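import Mathlib

/-!
# Nonrepetitive colourings with `O(Δ²)` colours in Monte Carlo polynomial time: definitions

The algorithm: rounds of parallel resampling (Moser-Tardos, Harvey-Vondrak); violated events are
found by colour coding.  An event (`flaw`) is a pair of vertex-disjoint paths with the same number
`i` of vertices which together form a path of `2 i` vertices, or which have `L` vertices each; it is
violated if the two colour sequences agree.
-/

namespace Pool.Agent.H329N


/-! ## Averages over finite types -/

/-- average of a real function on a finite type -/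
noncomputable def avg {α : Type} [Fintype α] (f : α → ℝ) : ℝ := (∑ x, f x) / Fintype.card α

open Classical in
/-- indicator of a proposition -/
noncomputable def ind (p : Prop) : ℝ := if p then 1 else 0

/-! ## The abstract resampling process -/

section Abstract

variable {V Col ι Aux G : Type}

/-- the vertices in `U` get the colours of `y`, the others keep those of `x` -/
def patch [DecidableEq V] (U : Finset V) (x y : V → Col) : V → Col :=
  fun v => if v ∈ U then y v else x v

/-- the union of the supports of a list of flaws -/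
def un [DecidableEq V] (supp : ι → Finset V) (I : List ι) : Finset V :=
  I.foldr (fun i U => supp i ∪ U) ∅

/-- `I` is a maximal list of violated flaws with pairwise disjoint supports. -/
structure MaxSel (fl : Finset ι) (supp : ι → Finset V) (viol : ι → (V → Col) → Prop)
    (x : V → Col) (I : List ι) : Prop where
  mem : ∀ i ∈ I, i ∈ fl
  disj : I.Pairwise (fun i j => Disjoint (supp i) (supp j))
  vi : ∀ i ∈ I, viol i x
  max : ∀ i ∈ fl, viol i x → ∃ j ∈ I, ¬ Disjoint (supp j) (supp i)

/-- one round: the vertices of the selected flaws get the new colours `p.1` -/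
def stp [DecidableEq V] (supp : ι → Finset V) (sel : (V → Col) → Aux → List ι) (x : V → Col)
    (p : (V → Col) × Aux) : V → Col := patch (un supp (sel x p.2)) x p.1

/-- one trial of the greedy selection -/
def gstp (fnd : List ι → G → Option ι) (I : List ι) (g : G) : List ι :=
  (fnd I g).elim I (fun i => i :: I)

end Abstract

/-- Exchanging two states on `U` preserves the uniform distribution. -/
def S_Swap : Prop := ∀ (V Col : Type) [Fintype V] [DecidableEq V] [Fintype Col] [Nonempty Col]
    (U : Finset V) (f h : (V → Col) → ℝ),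
  (∀ x y : V → Col, (∀ v ∈ U, x v = y v) → f x = f y) →
  avg (fun q : (V → Col) × (V → Col) => f q.1 * h (patch U q.1 q.2)) = avg f * avg h

/-- Flaws with pairwise disjoint supports are independent. -/
def S_MuProd : Prop := ∀ (V Col ι : Type) [Fintype V] [DecidableEq V] [Fintype Col]
    [Nonempty Col] (supp : ι → Finset V) (viol : ι → (V → Col) → Prop) (I : List ι),
  (∀ i ∈ I, ∀ x y : V → Col, (∀ v ∈ supp i, x v = y v) → viol i x → viol i y) →
  I.Pairwise (fun i j => Disjoint (supp i) (supp j)) →
  avg (fun x => ind (∀ i ∈ I, viol i x)) = (I.map (fun i => avg (fun x => ind (viol i x)))).prod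

/-- **The resampling theorem.** `ψ` satisfies the (cluster expansion) local lemma condition with a
factor `2` to spare; every state has, with probability `1 - δ`, a maximal selection.  Then after
`m` rounds a violated flaw is left with probability at most `(1/2)^m ∏ (1 + ψ) + m δ`. -/
def S_LLL : Prop := ∀ (V Col ι Aux : Type) [Fintype V] [DecidableEq V] [Fintype Col]
    [Nonempty Col] [Fintype Aux] [Nonempty Aux] (fl : Finset ι) (supp : ι → Finset V)
    (viol : ι → (V → Col) → Prop) (sel : (V → Col) → Aux → List ι) (ψ : ι → ℝ) (δ : ℝ) (m : ℕ),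
  (∀ i ∈ fl, ∀ x y : V → Col, (∀ v ∈ supp i, x v = y v) → viol i x → viol i y) →
  (∀ i ∈ fl, (supp i).Nonempty) →
  (∀ i, 0 ≤ ψ i) →
  (∀ i ∈ fl, 2 * avg (fun x => ind (viol i x)) *
    ∏ j ∈ fl.filter (fun j => ¬ Disjoint (supp i) (supp j)), (1 + ψ j) ≤ ψ i) →
  (∀ x, avg (fun a => ind (¬ MaxSel fl supp viol x (sel x a))) ≤ δ) →
  avg (fun q : (V → Col) × (Fin m → (V → Col) × Aux) =>
      ind (∃ i ∈ fl, viol i ((List.ofFn q.2).foldl (stp supp sel) q.1))) ≤
    (1 / 2) ^ m * (∏ i ∈ fl, (1 + ψ i)) + m * δ

/-- **The greedy selection.**  If every trial finds a violated flaw disjoint from the flaws already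
selected with probability at least `p` as long as there is one, then after `m` trials the selection
is not maximal with probability at most `2^|V| (1 - p/2)^m`. -/
def S_Greedy : Prop := ∀ (V Col ι G : Type) [Fintype V] [DecidableEq V] [Fintype G] [Nonempty G]
    (fl : Finset ι) (supp : ι → Finset V) (viol : ι → (V → Col) → Prop) (x : V → Col)
    (fnd : List ι → G → Option ι) (p : ℝ) (m : ℕ),
  (∀ i ∈ fl, (supp i).Nonempty) → 0 ≤ p → p ≤ 1 →
  (∀ I g i, (∀ j ∈ I, j ∈ fl) → fnd I g = some i →
    i ∈ fl ∧ viol i x ∧ ∀ j ∈ I, Disjoint (supp i) (supp j)) →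
  (∀ I, (∀ j ∈ I, j ∈ fl) → (∃ i ∈ fl, viol i x ∧ ∀ j ∈ I, Disjoint (supp j) (supp i)) →
    p ≤ avg (fun g => ind (fnd I g ≠ none))) →
  avg (fun gs : Fin m → G =>
      ind (¬ MaxSel fl supp viol x ((List.ofFn gs).foldl (gstp fnd) []))) ≤
    2 ^ Fintype.card V * (1 - p / 2) ^ m

/-- **Colour coding.**  A random function to `M` colours is injective on a set of at most `M`
elements with probability at least `3^{-M}`. -/
def S_Color : Prop := ∀ (n M : ℕ) (S : Finset (Fin n)), 0 < M → S.card ≤ M →
  (1 / 3 : ℝ) ^ M ≤ avg (fun g : Fin n → Fin M => ind (Set.InjOn g (S : Set (Fin n))))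

/-! ## Flaws -/

/-- entry of the adjacency matrix -/
def adj (A : List (List Bool)) (u v : ℕ) : Bool := (A.getD u []).getD v false

/-- A flaw: the two paths, written backwards (the last vertex first). -/
abbrev Fl := List ℕ × List ℕ

/-- the vertices of a flaw -/
def verts (F : Fl) : List ℕ := F.1 ++ F.2

/-- the colour of a vertex -/
def cl (l : List ℕ) (v : ℕ) : ℕ := l.getD v 0

/-- The flaws: `F.1` and `F.2` are paths, written backwards, with the same number `i ≥ 1` of
vertices, vertex disjoint; either `i = L`, or the last vertex of the first path is adjacent to the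
first vertex of the second one (that is, the head of `F.1` to the last entry of `F.2`). -/
structure IsFlaw (A : List (List Bool)) (L : ℕ) (F : Fl) : Prop where
  len : F.2.length = F.1.length
  pos : 1 ≤ F.1.length
  le : F.1.length ≤ L
  lt : ∀ v ∈ verts F, v < A.length
  nd : (verts F).Nodup
  ch1 : F.1.IsChain (fun p q => adj A q p = true)
  ch2 : F.2.IsChain (fun p q => adj A q p = true)
  clo : F.1.length = L ∨ ∃ u w, F.1.head? = some u ∧ F.2.getLast? = some w ∧ adj A u w = true

/-- the flaw is violated: the colour sequences agree -/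
def Viol (col : List ℕ) (F : Fl) : Prop := F.1.map (cl col) = F.2.map (cl col)

/-! ## Finding a violated flaw by colour coding -/

/-- May the partial flaw `F` be extended by the vertices `x`, `y`? -/
def okp (A : List (List Bool)) (col U g : List ℕ) (F : Fl) (x y : ℕ) : Bool :=
  (F.1.head?).elim true (fun u => adj A u x) && ((F.2.head?).elim true (fun u => adj A u y) &&
  (decide (cl col x = cl col y) && (!decide (x ∈ U) && (!decide (y ∈ U) &&
  (!decide (cl g x = cl g y) &&
  (verts F).all (fun v => !decide (cl g v = cl g x) && !decide (cl g v = cl g y)))))))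

/-- all extensions of a partial flaw -/
def ext (A : List (List Bool)) (col U g : List ℕ) (F : Fl) : List Fl :=
  (List.range A.length).flatMap fun x => (List.range A.length).flatMap fun y =>
    if okp A col U g F x y = true then [(x :: F.1, y :: F.2)] else []

/-- the key of a partial flaw: last vertices, first vertex of the second path, colours used -/
def keyOf (L : ℕ) (g : List ℕ) (F : Fl) : (Option ℕ × Option ℕ) × (Option ℕ × List Bool) :=
  ((F.1.head?, F.2.head?), (F.2.reverse.head?,
    (List.range (4 * L)).map (fun c => (verts F).any (fun v => decide (cl g v = c)))))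

/-- keep only the first element with each key -/
def dd {κ : Type} [DecidableEq κ] (k : Fl → κ) (l : List Fl) : List Fl :=
  (l.zipIdx.filter (fun p => !(l.zipIdx.any (fun q => decide (q.2 < p.2) &&
    decide (k q.1 = k p.1))))).map Prod.fst

/-- one step of the search -/
def lstep (A : List (List Bool)) (L : ℕ) (col U g : List ℕ) (l : List Fl) : List Fl :=
  dd (keyOf L g) (l.flatMap (ext A col U g))

/-- the representatives of the partial flaws with `i` vertices in each path -/
def lay (A : List (List Bool)) (L : ℕ) (col U g : List ℕ) (i : ℕ) : List Fl :=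
  (lstep A L col U g)^[i] [([], [])]

/-- the closing condition of flaws -/
def closed (A : List (List Bool)) (L : ℕ) (F : Fl) : Bool :=
  decide (F.1.length = L) ||
    (F.1.head?).elim false (fun u => (F.2.reverse.head?).elim false (fun w => adj A u w))

/-- search for a violated flaw avoiding the vertices in `U` whose vertices have different colours
under `g` -/
def find (A : List (List Bool)) (L : ℕ) (col U g : List ℕ) : Option Fl :=
  ((List.range L).flatMap (fun i => (lay A L col U g (i + 1)).filter (closed A L))).head?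

/-- soundness of the search -/
def S_FindSound : Prop := ∀ (A : List (List Bool)) (L : ℕ) (col U g : List ℕ) (F : Fl),
  find A L col U g = some F → IsFlaw A L F ∧ Viol col F ∧ ∀ v ∈ verts F, v ∉ U

/-- completeness of the search -/
def S_FindComplete : Prop := ∀ (A : List (List Bool)) (L : ℕ) (col U g : List ℕ) (F : Fl),
  IsFlaw A L F → Viol col F → (∀ v ∈ verts F, v ∉ U) →
  (∀ v < A.length, cl g v < 4 * L) → (∀ v ∈ verts F, ∀ w ∈ verts F, cl g v = cl g w → v = w) →
  find A L col U g ≠ none

/-- the layers of the search are small -/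
def S_LaySize : Prop := ∀ (A : List (List Bool)) (L : ℕ) (col U g : List ℕ) (i : ℕ),
  (lay A L col U g i).length ≤ (A.length + 1) ^ 3 * 2 ^ (4 * L) ∧
  ∀ F ∈ lay A L col U g i, F.1.length = i ∧ F.2.length = i ∧ ∀ v ∈ verts F, v < A.length

/-! ## The algorithm -/

/-- the greedy selection of disjoint violated flaws, one trial for every list in `gs` -/
def greedy (A : List (List Bool)) (L : ℕ) (col : List ℕ) (gs : List (List ℕ)) : List Fl :=
  gs.foldl (gstp (fun I g => find A L col (I.flatMap verts) g)) []

/-- one round of resampling -/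
def round (A : List (List Bool)) (L : ℕ) (col new : List ℕ) (gs : List (List ℕ)) : List ℕ :=
  (List.range A.length).map (fun v =>
    if decide (v ∈ (greedy A L col gs).flatMap verts) = true then cl new v else cl col v)

/-- the number with given binary digits, least significant first -/
def bval : List Bool → ℕ
  | [] => 0
  | b :: l => (if b then 1 else 0) + 2 * bval l

theorem bval_lt (l : List Bool) : bval l < 2 ^ l.length := by
  induction l with
  | nil => simp [bval]
  | cons b l ih => cases b <;> simp [bval, pow_succ] <;> omega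

/-- the number with the binary digits `r[w i], ..., r[w i + l - 1]` -/
def rd (r : List Bool) (w i l : ℕ) : ℕ := bval ((r.drop (w * i)).take l)

/-- the `q`-th block of random bits, read as a list of `n` numbers with `l` digits -/
def blk (r : List Bool) (w n l q : ℕ) : List ℕ :=
  (List.range n).map (fun v => rd r w (q * n + v) l)

/-- the maximum degree -/
def mxd (A : List (List Bool)) : ℕ :=
  ((List.range A.length).filter (fun d =>
    A.any (fun row => decide (d < (row.filter (fun b => b)).length)))).length

/-- number of digits of a colour: there are `2 ^ ka A` colours -/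
def ka (A : List (List Bool)) : ℕ := (128 * (mxd A * mxd A)).size

/-- number of digits of an auxiliary colour -/
def kb (n : ℕ) : ℕ := (2 * n.size).size

/-- width of a cell -/
def wd (n : ℕ) : ℕ := 2 * n + 8

/-- number of rounds -/
def nT (n : ℕ) : ℕ := 2 * n + 1

/-- number of trials in each round -/
def nR (n : ℕ) : ℕ := 256 * n ^ 7 * (3 * n + 2)

/-- number of random bits -/
def nN (n : ℕ) : ℕ := wd n * (n * (nT n * (nR n + 1) + 1))

/-- the algorithm: `A` is the adjacency matrix, `r` the list of random bits -/
def alg (A : List (List Bool)) (r : List Bool) : List ℕ :=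
  (List.range (nT A.length)).foldl (fun col t =>
    round A A.length.size col
      (blk r (wd A.length) A.length (ka A) (t * (nR A.length + 1)))
      ((List.range (nR A.length)).map (fun j =>
        blk r (wd A.length) A.length (kb A.length) (t * (nR A.length + 1) + (j + 1)))))
    (blk r (wd A.length) A.length (ka A) (nT A.length * (nR A.length + 1)))

/-- The adjacency matrix of a graph on `{0, ..., n-1}`, as a list of rows. -/
def mat {n : ℕ} (G : SimpleGraph (Fin n)) [DecidableRel G.Adj] : List (List Bool) :=
  List.ofFn fun i => List.ofFn fun j => decide (G.Adj i j)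

/-! ## Link with the abstract process -/

/-- a colouring as a list -/
def toL {n K : ℕ} (x : Fin n → Fin K) : List ℕ := List.ofFn (fun v => (x v : ℕ))

/-- the support of a flaw -/
def supp (n : ℕ) (F : Fl) : Finset (Fin n) :=
  Finset.univ.filter (fun v => (v : ℕ) ∈ verts F)

/-- the flaw is violated -/
def violF {n K : ℕ} (F : Fl) (x : Fin n → Fin K) : Prop := Viol (toL x) F

/-- there are finitely many flaws -/
theorem flaws_finite (A : List (List Bool)) (L : ℕ) : {F : Fl | IsFlaw A L F}.Finite := by
  have h1 : {l : List ℕ | l.length ≤ L ∧ ∀ v ∈ l, v < A.length}.Finite := by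
    have h2 := List.finite_length_le (Fin A.length) L
    refine (h2.image (List.map Fin.val)).subset ?_
    rintro l ⟨hl, hv⟩
    refine ⟨l.attach.map (fun v => (⟨v.1, hv v.1 v.2⟩ : Fin A.length)), ?_, ?_⟩
    · simpa using hl
    · rw [List.map_map]
      conv_rhs => rw [← List.attach_map_subtype_val l]
      rfl
  refine (h1.prod h1).subset ?_
  rintro F hF
  refine ⟨⟨hF.le, fun v hv => hF.lt v (by simp [verts, hv])⟩,
    ⟨by rw [hF.len]; exact hF.le, fun v hv => hF.lt v (by simp [verts, hv])⟩⟩

/-- the finite set of flaws -/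
noncomputable def flaws (A : List (List Bool)) (L : ℕ) : Finset Fl := (flaws_finite A L).toFinset

theorem mem_flaws {A : List (List Bool)} {L : ℕ} {F : Fl} : F ∈ flaws A L ↔ IsFlaw A L F := by
  simp [flaws]

/-- the weight of a flaw -/
noncomputable def psi (K : ℕ) (F : Fl) : ℝ := (8 / K) ^ F.1.length

/-- the selection in the abstract process -/
def selF (A : List (List Bool)) (n K M R : ℕ) (x : Fin n → Fin K) (a : Fin R → Fin n → Fin M) :
    List Fl := greedy A n.size (toL x) (List.ofFn (fun j => toL (a j)))

/-- probability that a flaw is violated -/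
def S_Mu : Prop := ∀ (A : List (List Bool)) (L K : ℕ) (F : Fl), 0 < K → IsFlaw A L F →
  avg (fun x : Fin A.length → Fin K => ind (violF F x)) = (1 / K : ℝ) ^ F.1.length

/-- the walks with `N` vertices, as lists -/
def Wk {n : ℕ} (G : SimpleGraph (Fin n)) [DecidableRel G.Adj] (N : ℕ) : Set (List ℕ) :=
  {l | l.length = N ∧ (∀ u ∈ l, u < n) ∧ l.IsChain (fun p q => adj (mat G) q p = true)}

/-- the number of walks with `N` vertices, and of those through a given vertex -/
def S_Count : Prop := ∀ (n : ℕ) (G : SimpleGraph (Fin n)) [DecidableRel G.Adj] (N : ℕ), 1 ≤ N →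
  (Wk G N).Finite ∧ (Wk G N).ncard ≤ n * G.maxDegree ^ (N - 1) ∧
  ∀ v : Fin n, {l ∈ Wk G N | (v : ℕ) ∈ l}.ncard ≤ N * G.maxDegree ^ (N - 1)

/-- the sum of the weights of the flaws through a vertex -/
def S_Sum : Prop := ∀ (n : ℕ) (G : SimpleGraph (Fin n)) [DecidableRel G.Adj] (v : Fin n),
  ∑ F ∈ (flaws (mat G) n.size).filter (fun F => v ∈ supp n F),
    psi (2 ^ (128 * (G.maxDegree * G.maxDegree)).size) F ≤ 1 / 2

/-- the local lemma condition -/
def S_Cond : Prop := ∀ (n : ℕ) (G : SimpleGraph (Fin n)) [DecidableRel G.Adj] (K : ℕ),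
  K = 2 ^ (128 * (G.maxDegree * G.maxDegree)).size →
  (∀ i ∈ flaws (mat G) n.size, 2 * avg (fun x : Fin n → Fin K => ind (violF i x)) *
    ∏ j ∈ (flaws (mat G) n.size).filter (fun j => ¬ Disjoint (supp n i) (supp n j)),
      (1 + psi K j) ≤ psi K i) ∧
  ∏ i ∈ flaws (mat G) n.size, (1 + psi K i) ≤ 2 ^ n

/-- the maximum degree is computed correctly -/
def S_MaxDeg : Prop := ∀ (n : ℕ) (G : SimpleGraph (Fin n)) [DecidableRel G.Adj],
  mxd (mat G) = G.maxDegree

/-- A colouring `c` of a graph `G` is nonrepetitive: on no path `v 0, v 1, ..., v (2 t - 1)` of `G`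
(`t ≥ 1`) is the colour sequence of the first half equal to that of the second half. -/
def Nonrepetitive {V K : Type} (G : SimpleGraph V) (c : V → K) : Prop :=
  ∀ (t : ℕ) (v : ℕ → V), 1 ≤ t → (∀ i < 2 * t, ∀ j < 2 * t, v i = v j → i = j) →
    (∀ i, i + 1 < 2 * t → G.Adj (v i) (v (i + 1))) → ∃ i < t, c (v i) ≠ c (v (t + i))

/-- without violated flaws the colouring is nonrepetitive -/
def S_Nonrep : Prop := ∀ (n K : ℕ) (G : SimpleGraph (Fin n)) [DecidableRel G.Adj] (x : Fin n → Fin K), 0 < n →
  (¬ ∃ F ∈ flaws (mat G) n.size, violF F x) →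
  Nonrepetitive G (fun v => (x v : ℕ))

/-- the probability of a maximal selection -/
def S_Sel : Prop := ∀ (n : ℕ) (G : SimpleGraph (Fin n)) [DecidableRel G.Adj] (K R : ℕ) (x : Fin n → Fin K), 0 < n →
  avg (fun a : Fin R → Fin n → Fin (2 ^ kb n) => ind (¬ MaxSel (flaws (mat G) n.size)
    (supp n) violF x (selF (mat G) n K (2 ^ kb n) R x a))) ≤
    2 ^ n * (1 - (1 / (128 * n ^ 7) : ℝ) / 2) ^ R

/-! ## Random bits -/

/-- the value of a block of random bits -/
def blkF {N : ℕ} (w n l : ℕ) (r : Fin N → Bool) (q : ℕ) : Fin n → Fin (2 ^ l) :=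
  fun v => ⟨rd (List.ofFn r) w (q * n + v) l, lt_of_lt_of_le (bval_lt _)
    (Nat.pow_le_pow_right (by norm_num) (by simp))⟩

/-- the random data of the process, from the random bits -/
def data (n w ca cb T R : ℕ) {N : ℕ} (r : Fin N → Bool) :
    (Fin n → Fin (2 ^ ca)) × (Fin T → (Fin n → Fin (2 ^ ca)) × (Fin R → Fin n → Fin (2 ^ cb))) :=
  (blkF w n ca r (T * (R + 1)), fun t => (blkF w n ca r (t * (R + 1)),
    fun j => blkF w n cb r (t * (R + 1) + (j + 1))))

/-- the random data are uniformly distributed -/
def S_Unif : Prop := ∀ (n w ca cb T R : ℕ), ca ≤ w → cb ≤ w →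
  ∀ h : (Fin n → Fin (2 ^ ca)) ×
      (Fin T → (Fin n → Fin (2 ^ ca)) × (Fin R → Fin n → Fin (2 ^ cb))) → ℝ,
    avg (fun r : Fin (w * (n * (T * (R + 1) + 1))) → Bool => h (data n w ca cb T R r)) = avg h

/-- the algorithm is the abstract process -/
def S_Bridge : Prop := ∀ (A : List (List Bool)) (n N : ℕ) (r : Fin N → Bool), A.length = n →
  alg A (List.ofFn r) =
    toL ((List.ofFn (data n (wd n) (ka A) (kb n) (nT n) (nR n) r).2).foldl
      (stp (supp n) (selF A n (2 ^ ka A) (2 ^ kb n) (nR n)))
      (data n (wd n) (ka A) (kb n) (nT n) (nR n) r).1)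

/-- the final estimate -/
def S_Num : Prop := ∀ n : ℕ, 0 < n →
  ((1 / 2 : ℝ) ^ nT n * 2 ^ n + nT n * (2 ^ n * (1 - (1 / (128 * n ^ 7) : ℝ) / 2) ^ nR n)) ≤ 1 / n

/-- bounds for the widths -/
def S_Wid : Prop := ∀ (n : ℕ) (G : SimpleGraph (Fin n)) [DecidableRel G.Adj], 0 < n →
  (128 * (G.maxDegree * G.maxDegree)).size ≤ wd n ∧ kb n ≤ wd n

end Pool.Agent.H329N
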