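import Pool.Agent.H329N.Spec
import Pool.Agent.NPC.Dec

/-!
# Assembly
-/

namespace Pool.Agent.H329N

open Pool.Agent.NPC

/-- number of random bits, as a polynomial -/
noncomputable def pN : Polynomial ℕ :=
  (2 * Polynomial.X + 8) * (Polynomial.X * ((2 * Polynomial.X + 1) *
    ((256 * Polynomial.X ^ 7) * (3 * Polynomial.X + 2) + 1) + 1))

theorem pN_eval (n : ℕ) : pN.eval n = wd n * (n * (nT n * (nR n + 1) + 1)) := by
  simp [pN, wd, nT, nR]

/-- the algorithm on bit strings -/
def bitAlg (x : List Bool) : List Bool :=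
  bits (((unbits (List (List Bool) × List Bool) x).map (fun p => alg p.1 p.2)).getD [])

theorem bitAlg_bits (A : List (List Bool)) (r : List Bool) : bitAlg (bits (A, r)) = bits (alg A r) := by
  simp [bitAlg, unbits_bits]

theorem polyTime_bitAlg (h : S_PolyAlg) : PolyTime bitAlg := by
  have h' : Poly (fun p : List Bool × (List (List Bool) × List Bool) => alg p.2.1 p.2.2) :=
    Poly.comp (g := fun p : List (List Bool) × List Bool => alg p.1 p.2)
      (f := fun p : List Bool × (List (List Bool) × List Bool) => p.2) h (Poly.snd Poly.id)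
  have h2 : Poly (fun x : List Bool =>
      (unbits (List (List Bool) × List Bool) x).map (fun p => alg p.1 p.2)) :=
    Poly.optMap_fp (o := fun x : List Bool => unbits (List (List Bool) × List Bool) x)
      (h := fun _ (p : List (List Bool) × List Bool) => alg p.1 p.2) poly_unbits h'
  have h3 : Poly (fun x : List Bool =>
      ((unbits (List (List Bool) × List Bool) x).map (fun p => alg p.1 p.2)).getD []) :=
    NPC.Poly.optGetD h2 (NPC.Poly.const ([] : List ℕ))
  exact polyTime_bits h3

/-- the output `out` is (the code of) a nonrepetitive colouring of `G` with at most `C Δ²` colours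
(one colour if `G` has no edges) -/
def GoodOutput (C : ℕ) {n : ℕ} (G : SimpleGraph (Fin n)) [DecidableRel G.Adj] (out : List Bool) :
    Prop :=
  ∃ c : Fin n → ℕ, out = bits (List.ofFn c) ∧ Nonrepetitive G c ∧
    ∀ v, c v < max 1 (C * G.maxDegree ^ 2)

theorem avg_ind {α : Type} [Fintype α] (p : α → Prop) [DecidablePred p] :
    avg (fun x => ind (p x)) = ((Finset.univ.filter p).card : ℝ) / Fintype.card α := by
  classical
  unfold avg
  congr 1
  rw [Finset.card_filter]
  push_cast
  refine Finset.sum_congr rfl fun x _ => ?_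
  unfold ind
  split_ifs <;> rfl

theorem final_bound (hLLL : S_LLL) (hCond : S_Cond) (hMD : S_MaxDeg) (hSel : S_Sel)
    (hUnif : S_Unif) (hNum : S_Num) (hWid : S_Wid) (n : ℕ) (hn : 0 < n)
    (G : SimpleGraph (Fin n)) [DecidableRel G.Adj] :
    avg (fun r : Fin (wd n * (n * (nT n * (nR n + 1) + 1))) → Bool =>
      ind (∃ i ∈ flaws (mat G) n.size, violF i
        ((List.ofFn (data n (wd n) (ka (mat G)) (kb n) (nT n) (nR n) r).2).foldl
          (stp (supp n) (selF (mat G) n (2 ^ ka (mat G)) (2 ^ kb n) (nR n)))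
          (data n (wd n) (ka (mat G)) (kb n) (nT n) (nR n) r).1))) ≤ 1 / n := by
  have hka : ka (mat G) = (128 * (G.maxDegree * G.maxDegree)).size := by
    unfold ka; rw [hMD n G]
  obtain ⟨hw1, hw2⟩ := hWid n G hn
  have h1 := hUnif n (wd n) (ka (mat G)) (kb n) (nT n) (nR n) (by rw [hka]; exact hw1) hw2
    (fun q => ind (∃ i ∈ flaws (mat G) n.size, violF i
        ((List.ofFn q.2).foldl
          (stp (supp n) (selF (mat G) n (2 ^ ka (mat G)) (2 ^ kb n) (nR n))) q.1)))
  rw [h1]
  obtain ⟨hc1, hc2⟩ := hCond n G (2 ^ ka (mat G)) (by rw [hka])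
  have : Nonempty (Fin n) := ⟨⟨0, hn⟩⟩
  have h2 := hLLL (Fin n) (Fin (2 ^ ka (mat G))) Fl (Fin (nR n) → Fin n → Fin (2 ^ kb n))
    (flaws (mat G) n.size) (supp n) violF
    (selF (mat G) n (2 ^ ka (mat G)) (2 ^ kb n) (nR n)) (psi (2 ^ ka (mat G)))
    (2 ^ n * (1 - (1 / (128 * n ^ 7) : ℝ) / 2) ^ nR n) (nT n) ?_ ?_ ?_ hc1 ?_
  · refine h2.trans (le_trans ?_ (hNum n hn))
    gcongr
  · -- dependence on the support
    intro F hF x y hxy hv
    have hF' := mem_flaws.1 hF
    have key : ∀ v ∈ verts F, cl (toL x) v = cl (toL y) v := by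
      intro v hv
      have hvn : v < n := by simpa [mat] using hF'.lt v hv
      have := hxy ⟨v, hvn⟩ (by simp [supp, hv])
      simp [cl, toL, List.getD_eq_getElem?_getD, hvn, this]
    unfold violF Viol at *
    rw [← List.map_congr_left (fun v hv => key v (by simp [verts, hv])),
      ← List.map_congr_left (l := F.2) (fun v hv => key v (by simp [verts, hv]))]
    exact hv
  · intro F hF
    have hF' := mem_flaws.1 hF
    obtain ⟨a, l, hl⟩ : ∃ a l, F.1 = a :: l := by
      cases h : F.1 with
      | nil => have := hF'.pos; simp [h] at this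
      | cons a l => exact ⟨a, l, rfl⟩
    have ha : a < n := by simpa [mat] using hF'.lt a (by simp [verts, hl])
    exact ⟨⟨a, ha⟩, by simp [supp, verts, hl]⟩
  · intro F; unfold psi; positivity
  · intro x
    exact hSel n G (2 ^ ka (mat G)) (nR n) x hn

theorem final (hLLL : S_LLL) (hCond : S_Cond) (hMD : S_MaxDeg) (hSel : S_Sel)
    (hUnif : S_Unif) (hNum : S_Num) (hWid : S_Wid) (hBr : S_Bridge) (hNr : S_Nonrep)
    (hPoly : S_PolyAlg) :
    ∃ (C : ℕ) (p : Polynomial ℕ) (A : List Bool → List Bool), PolyTime A ∧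
      ∀ (n : ℕ) (G : SimpleGraph (Fin n)) [DecidableRel G.Adj], 0 < n →
        1 - 1 / (n : ℝ) ≤
          ({r : Fin (p.eval n) → Bool | GoodOutput C G (A (bits (mat G, List.ofFn r)))}.ncard : ℝ) /
            2 ^ (p.eval n) := by
  classical
  refine ⟨256, pN, bitAlg, polyTime_bitAlg hPoly, ?_⟩
  intro n G _ hn
  have hb := final_bound hLLL hCond hMD hSel hUnif hNum hWid n hn G
  rw [← pN_eval n] at hb
  rw [avg_ind] at hb
  have hcard : (Fintype.card (Fin (pN.eval n) → Bool) : ℝ) = 2 ^ (pN.eval n) := by simp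
  rw [hcard] at hb
  set B : Finset (Fin (pN.eval n) → Bool) := Finset.univ.filter (fun r =>
    ∃ i ∈ flaws (mat G) n.size, violF i
        ((List.ofFn (data n (wd n) (ka (mat G)) (kb n) (nT n) (nR n) r).2).foldl
          (stp (supp n) (selF (mat G) n (2 ^ ka (mat G)) (2 ^ kb n) (nR n)))
          (data n (wd n) (ka (mat G)) (kb n) (nT n) (nR n) r).1)) with hB
  have hsub : ((Bᶜ : Finset (Fin (pN.eval n) → Bool)) : Set (Fin (pN.eval n) → Bool)) ⊆
      {r | GoodOutput 256 G (bitAlg (bits (mat G, List.ofFn r)))} := by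
    intro r hr
    have hr' : ¬ ∃ i ∈ flaws (mat G) n.size, violF i
        ((List.ofFn (data n (wd n) (ka (mat G)) (kb n) (nT n) (nR n) r).2).foldl
          (stp (supp n) (selF (mat G) n (2 ^ ka (mat G)) (2 ^ kb n) (nR n)))
          (data n (wd n) (ka (mat G)) (kb n) (nT n) (nR n) r).1) := by
      simpa [hB] using hr
    set X := ((List.ofFn (data n (wd n) (ka (mat G)) (kb n) (nT n) (nR n) r).2).foldl
          (stp (supp n) (selF (mat G) n (2 ^ ka (mat G)) (2 ^ kb n) (nR n)))
          (data n (wd n) (ka (mat G)) (kb n) (nT n) (nR n) r).1) with hX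
    have hlen : (mat G).length = n := by simp [mat]
    have hbr := hBr (mat G) n (pN.eval n) r hlen
    rw [← hX] at hbr
    refine ⟨fun v => (X v : ℕ), ?_, hNr n _ G X hn hr', ?_⟩
    · rw [bitAlg_bits, hbr]
      rfl
    · intro v
      have hv := (X v).2
      have hka : ka (mat G) = (128 * (G.maxDegree * G.maxDegree)).size := by
        unfold ka; rw [hMD n G]
      refine lt_of_lt_of_le hv ?_
      rw [hka]
      rcases Nat.eq_zero_or_pos G.maxDegree with h0 | h0
      · simp [h0]
      · have h1 : 0 < (128 * (G.maxDegree * G.maxDegree)).size := Nat.size_pos.2 (by positivity)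
        have h2 : 2 ^ ((128 * (G.maxDegree * G.maxDegree)).size - 1) ≤
            128 * (G.maxDegree * G.maxDegree) := by
          have := Nat.lt_size.1 (Nat.sub_one_lt_of_lt h1)
          exact this
        have h3 : 2 ^ (128 * (G.maxDegree * G.maxDegree)).size =
            2 * 2 ^ ((128 * (G.maxDegree * G.maxDegree)).size - 1) := by
          rw [← pow_succ']
          congr 1
          omega
        rw [h3]
        refine le_trans ?_ (le_max_right _ _)
        nlinarith
  have h4 : (Bᶜ.card : ℝ) ≤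
      ({r : Fin (pN.eval n) → Bool | GoodOutput 256 G (bitAlg (bits (mat G, List.ofFn r)))}.ncard : ℝ) := by
    have := Set.ncard_le_ncard hsub (Set.toFinite _)
    rw [Set.ncard_coe_finset] at this
    exact_mod_cast this
  have h5 : (Bᶜ.card : ℝ) = 2 ^ (pN.eval n) - B.card := by
    rw [Finset.card_compl, Nat.cast_sub (Finset.card_le_univ B)]
    simp
  have hpos : (0 : ℝ) < 2 ^ (pN.eval n) := by positivity
  rw [div_le_iff₀ hpos] at hb
  rw [le_div_iff₀ hpos]
  linarith

end Pool.Agent.H329N
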