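import Pool.Agent.H329N.Base

/-!
# Bridge
-/

namespace Pool.Agent.H329N

namespace BridgeAux

theorem blk_eq {N : ℕ} (r : Fin N → Bool) (w n l q : ℕ) :
    blk (List.ofFn r) w n l q = toL (blkF w n l r q) := by
  unfold blk toL blkF
  apply List.ext_getElem
  · simp
  · intro i h1 h2
    simp

theorem cl_toL {n K : ℕ} (x : Fin n → Fin K) (v : ℕ) (hv : v < n) :
    cl (toL x) v = (x ⟨v, hv⟩ : ℕ) := by
  unfold cl toL
  rw [List.getD_eq_getElem _ _ (by simpa using hv)]
  simp

theorem mem_un {n : ℕ} (I : List Fl) (v : Fin n) :
    v ∈ un (supp n) I ↔ (v : ℕ) ∈ I.flatMap verts := by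
  induction I with
  | nil => simp [un]
  | cons F I ih =>
    have h1 : un (supp n) (F :: I) = supp n F ∪ un (supp n) I := rfl
    rw [h1, Finset.mem_union, ih, List.flatMap_cons, List.mem_append]
    simp [supp]

theorem round_eq (A : List (List Bool)) {n K : ℕ} (hA : A.length = n) (L : ℕ)
    (x y : Fin n → Fin K) (gs : List (List ℕ)) :
    round A L (toL x) (toL y) gs =
      toL (patch (un (supp n) (greedy A L (toL x) gs)) x y) := by
  unfold round
  apply List.ext_getElem
  · simp [toL, hA]
  · intro i h1 h2
    have hi : i < n := by simpa [toL] using h2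
    rw [List.getElem_map, List.getElem_range]
    have e : (toL (patch (un (supp n) (greedy A L (toL x) gs)) x y))[i] =
        ((patch (un (supp n) (greedy A L (toL x) gs)) x y ⟨i, hi⟩ : Fin K) : ℕ) := by
      unfold toL
      simp
    rw [e, cl_toL x i hi, cl_toL y i hi]
    unfold patch
    have hm := mem_un (greedy A L (toL x) gs) (⟨i, hi⟩ : Fin n)
    by_cases h : i ∈ (greedy A L (toL x) gs).flatMap verts
    · rw [if_pos (hm.2 h), if_pos (by simpa using h)]
    · rw [if_neg (fun hh => h (hm.1 hh)), if_neg (by simpa using h)]

theorem foldl_gen {n K T : ℕ} {P : Type} (F : List ℕ → ℕ → List ℕ)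
    (S : (Fin n → Fin K) → P → (Fin n → Fin K)) (p : Fin T → P)
    (h : ∀ (x : Fin n → Fin K) (t : Fin T), F (toL x) (t : ℕ) = toL (S x (p t)))
    (l : List (Fin T)) (x : Fin n → Fin K) :
    (l.map Fin.val).foldl F (toL x) = toL ((l.map p).foldl S x) := by
  induction l generalizing x with
  | nil => rfl
  | cons t l ih =>
    simp only [List.map_cons, List.foldl_cons]
    rw [h, ih]

end BridgeAux

/-- TARGET -/
theorem Bridge_proof : S_Bridge := by
  intro A n N r hA
  subst hA
  have key := BridgeAux.foldl_gen (n := A.length) (K := 2 ^ ka A) (T := nT A.length)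
    (fun col t =>
      round A A.length.size col
        (blk (List.ofFn r) (wd A.length) A.length (ka A) (t * (nR A.length + 1)))
        ((List.range (nR A.length)).map (fun j =>
          blk (List.ofFn r) (wd A.length) A.length (kb A.length)
            (t * (nR A.length + 1) + (j + 1)))))
    (stp (supp A.length) (selF A A.length (2 ^ ka A) (2 ^ kb A.length) (nR A.length)))
    (data A.length (wd A.length) (ka A) (kb A.length) (nT A.length) (nR A.length) r).2
    (fun x t => by
      rw [BridgeAux.blk_eq, BridgeAux.round_eq A rfl]
      have e : (List.range (nR A.length)).map (fun j =>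
          blk (List.ofFn r) (wd A.length) A.length (kb A.length)
            ((t : ℕ) * (nR A.length + 1) + (j + 1))) =
          List.ofFn (fun j => toL (((data A.length (wd A.length) (ka A) (kb A.length)
            (nT A.length) (nR A.length) r).2 t).2 j)) := by
        apply List.ext_getElem
        · simp
        · intro i h1 h2
          rw [List.getElem_map, List.getElem_range, BridgeAux.blk_eq]
          simp [data]
      rw [e]
      rfl)
    (List.finRange (nT A.length))
    (data A.length (wd A.length) (ka A) (kb A.length) (nT A.length) (nR A.length) r).1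
  have e1 : List.ofFn (data A.length (wd A.length) (ka A) (kb A.length) (nT A.length)
      (nR A.length) r).2 = (List.finRange (nT A.length)).map
        (data A.length (wd A.length) (ka A) (kb A.length) (nT A.length) (nR A.length) r).2 :=
    List.ofFn_eq_map
  rw [e1, ← key]
  unfold alg
  rw [BridgeAux.blk_eq]
  congr 1
  exact (List.map_coe_finRange_eq_range).symm

end Pool.Agent.H329N
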