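import Pool.Agent.H329N.Base

/-!
# Color
-/

namespace Pool.Agent.H329N

namespace ColorAux

open Classical in
theorem card_injOn {n M : ℕ} (S : Finset (Fin n)) :
    ((Finset.univ.filter (fun g : Fin n → Fin M => Set.InjOn g (S : Set (Fin n)))).card) =
      M.descFactorial S.card * M ^ (n - S.card) := by
  have h1 : (Finset.univ.filter (fun g : Fin n → Fin M => Set.InjOn g (S : Set (Fin n)))).card =
      Fintype.card {g : Fin n → Fin M // Set.InjOn g (S : Set (Fin n))} :=
    (Fintype.card_subtype _).symm
  rw [h1]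
  have e : {g : Fin n → Fin M // Set.InjOn g (S : Set (Fin n))} ≃
      ({v // v ∈ S} ↪ Fin M) × ({v // ¬ v ∈ S} → Fin M) :=
    { toFun := fun g => (⟨fun v => g.1 v.1, fun a b hab => Subtype.ext (g.2 a.2 b.2 hab)⟩,
        fun v => g.1 v.1)
      invFun := fun q => ⟨fun v => if h : v ∈ S then q.1 ⟨v, h⟩ else q.2 ⟨v, h⟩, by
        intro a ha b hb hab
        have ha' : a ∈ S := ha
        have hb' : b ∈ S := hb
        simp only [dif_pos ha', dif_pos hb'] at hab
        exact congrArg Subtype.val (q.1.injective hab)⟩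
      left_inv := by
        rintro ⟨g, hg⟩
        apply Subtype.ext
        funext v
        by_cases h : v ∈ S
        · simp [h]
        · simp [h]
      right_inv := by
        rintro ⟨q1, q2⟩
        refine Prod.ext ?_ ?_
        · ext v
          simp
        · funext v
          have hv := v.2
          simp [hv] }
  rw [Fintype.card_congr e, Fintype.card_prod, Fintype.card_embedding_eq, Fintype.card_fun,
    Fintype.card_fin, Fintype.card_coe]
  congr 2
  rw [Fintype.card_subtype_compl, Fintype.card_fin, Fintype.card_coe]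

theorem pow_self_le (M : ℕ) : (M : ℝ) ^ M ≤ 3 ^ M * (M.factorial : ℝ) := by
  have h1 := Real.pow_div_factorial_le_exp (M : ℝ) (Nat.cast_nonneg M) M
  have h2 : (0 : ℝ) < M.factorial := by exact_mod_cast M.factorial_pos
  rw [div_le_iff₀ h2] at h1
  refine h1.trans (mul_le_mul_of_nonneg_right ?_ h2.le)
  rw [← Real.exp_one_pow]
  exact pow_le_pow_left₀ (Real.exp_pos 1).le (by linarith [Real.exp_one_lt_d9]) M

theorem ratio {M k : ℕ} (hM : 0 < M) (hk : k ≤ M) :
    (1 / 3 : ℝ) ^ M ≤ (M.descFactorial k : ℝ) / (M : ℝ) ^ k := by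
  have hM' : (0 : ℝ) < M := by exact_mod_cast hM
  have h1 : M.factorial ≤ M.descFactorial k * M ^ (M - k) := by
    rw [← Nat.factorial_mul_descFactorial hk, mul_comm]
    refine Nat.mul_le_mul_left _ ?_
    exact (Nat.factorial_le_pow _).trans (Nat.pow_le_pow_left (Nat.sub_le _ _) _)
  have h2 : (M.factorial : ℝ) ≤ (M.descFactorial k : ℝ) * (M : ℝ) ^ (M - k) := by
    exact_mod_cast h1
  have h3 := pow_self_le M
  rw [one_div, inv_pow, le_div_iff₀ (by positivity), inv_mul_le_iff₀ (by positivity)]
  have h4 : (M : ℝ) ^ M = (M : ℝ) ^ k * (M : ℝ) ^ (M - k) := by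
    rw [← pow_add, Nat.add_sub_cancel' hk]
  have h5 : (M : ℝ) ^ k * (M : ℝ) ^ (M - k) ≤
      (3 ^ M * (M.descFactorial k : ℝ)) * (M : ℝ) ^ (M - k) := by
    rw [← h4, mul_assoc]
    exact h3.trans (mul_le_mul_of_nonneg_left h2 (by positivity))
  exact le_of_mul_le_mul_right h5 (by positivity)

end ColorAux

/-- TARGET -/
theorem Color_proof : S_Color := by
  classical
  intro n M S hM hS
  have h1 : avg (fun g : Fin n → Fin M => ind (Set.InjOn g (S : Set (Fin n)))) =
      (M.descFactorial S.card : ℝ) / (M : ℝ) ^ S.card := by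
    have hM' : (0 : ℝ) < M := by exact_mod_cast hM
    have hSn : S.card ≤ n := by
      have := Finset.card_le_univ S
      rwa [Fintype.card_fin] at this
    have h2 : (∑ g : Fin n → Fin M, ind (Set.InjOn g (S : Set (Fin n)))) =
        ((Finset.univ.filter
          (fun g : Fin n → Fin M => Set.InjOn g (S : Set (Fin n)))).card : ℝ) := by
      rw [Finset.card_filter]
      push_cast
      refine Finset.sum_congr rfl fun g _ => ?_
      unfold ind
      split_ifs <;> rfl
    unfold avg
    rw [h2, ColorAux.card_injOn, Fintype.card_fun, Fintype.card_fin, Fintype.card_fin]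
    push_cast
    rw [div_eq_div_iff (by positivity) (by positivity), mul_assoc, ← pow_add,
      Nat.sub_add_cancel hSn]
  rw [h1]
  exact ColorAux.ratio hM hS

end Pool.Agent.H329N
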