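import Pool.Agent.H329N.Base

/-!
# Cond
-/

namespace Pool.Agent.H329N

namespace CondAux

theorem mat_length {n : ℕ} (G : SimpleGraph (Fin n)) [DecidableRel G.Adj] :
    (mat G).length = n := by
  simp [mat]

theorem mu_eq (h1 : S_Mu) (A : List (List Bool)) (n L K : ℕ) (hA : A.length = n) (F : Fl)
    (hK : 0 < K) (hF : IsFlaw A L F) :
    avg (fun x : Fin n → Fin K => ind (violF F x)) = (1 / K : ℝ) ^ F.1.length := by
  subst hA
  exact h1 A L K F hK hF

theorem psi_nonneg (K : ℕ) (F : Fl) : 0 ≤ psi K F := by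
  unfold psi
  positivity

theorem card_supp {A : List (List Bool)} {n L : ℕ} (hA : A.length = n) {F : Fl}
    (hF : IsFlaw A L F) : (supp n F).card = 2 * F.1.length := by
  have hl : (verts F).toFinset.card = 2 * F.1.length := by
    rw [List.toFinset_card_of_nodup hF.nd]
    unfold verts
    rw [List.length_append, hF.len]
    ring
  rw [← hl, ← Finset.card_map Fin.valEmbedding]
  congr 1
  ext v
  simp only [Finset.mem_map, supp, Finset.mem_filter, Finset.mem_univ, true_and,
    Fin.valEmbedding_apply, List.mem_toFinset]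
  constructor
  · rintro ⟨a, ha, rfl⟩
    exact ha
  · intro hv
    exact ⟨⟨v, hA ▸ hF.lt v hv⟩, hv, rfl⟩

/-- the product over a family of flaws all of which meet `U` -/
theorem prod_le {n : ℕ} (T S : Finset Fl) (K : ℕ) (U : Finset (Fin n)) (hST : S ⊆ T)
    (hS : ∀ F ∈ S, ∃ v ∈ U, v ∈ supp n F)
    (h : ∀ v : Fin n, ∑ F ∈ T.filter (fun F => v ∈ supp n F), psi K F ≤ 1 / 2) :
    ∏ F ∈ S, (1 + psi K F) ≤ Real.exp (U.card / 2) := by
  have hsum : ∑ F ∈ S, psi K F ≤ U.card / 2 := by
    calc ∑ F ∈ S, psi K F
        ≤ ∑ F ∈ S, ∑ v ∈ U, (if v ∈ supp n F then psi K F else 0) := by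
          apply Finset.sum_le_sum
          intro F hF
          obtain ⟨v, hvU, hv⟩ := hS F hF
          have := Finset.single_le_sum (f := fun v => if v ∈ supp n F then psi K F else 0)
            (s := U) (fun w _ => by
              show 0 ≤ if w ∈ supp n F then psi K F else 0
              split_ifs
              · exact psi_nonneg K F
              · exact le_refl 0) hvU
          simpa [hv] using this
      _ = ∑ v ∈ U, ∑ F ∈ S, (if v ∈ supp n F then psi K F else 0) := Finset.sum_comm
      _ ≤ ∑ v ∈ U, (1 / 2 : ℝ) := by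
          apply Finset.sum_le_sum
          intro v _
          rw [← Finset.sum_filter]
          refine le_trans ?_ (h v)
          apply Finset.sum_le_sum_of_subset_of_nonneg
          · exact Finset.filter_subset_filter _ hST
          · intro F _ _
            exact psi_nonneg K F
      _ = U.card / 2 := by
          rw [Finset.sum_const, nsmul_eq_mul]
          ring
  calc ∏ F ∈ S, (1 + psi K F) ≤ ∏ F ∈ S, Real.exp (psi K F) := by
        apply Finset.prod_le_prod
        · intro F _
          have := psi_nonneg K F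
          linarith
        · intro F _
          have := Real.add_one_le_exp (psi K F)
          linarith
    _ = Real.exp (∑ F ∈ S, psi K F) := (Real.exp_sum _ _).symm
    _ ≤ Real.exp (U.card / 2) := Real.exp_le_exp.mpr hsum

theorem two_mul_three_pow (i : ℕ) (hi : 1 ≤ i) : 2 * (3 : ℝ) ^ i ≤ 8 ^ i := by
  obtain ⟨j, rfl⟩ : ∃ j, i = j + 1 := ⟨i - 1, by omega⟩
  have h : (3 : ℝ) ^ j ≤ 8 ^ j := pow_le_pow_left₀ (by norm_num) (by norm_num) j
  have h0 : (0 : ℝ) < 8 ^ j := by positivity
  rw [pow_succ, pow_succ]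
  nlinarith

theorem exp_nat_le (i : ℕ) : Real.exp ((i : ℝ)) ≤ 3 ^ i := by
  have h : Real.exp ((i : ℝ)) = Real.exp 1 ^ i := by
    rw [← Real.exp_nat_mul]
    simp
  rw [h]
  exact pow_le_pow_left₀ (Real.exp_pos 1).le (by
    have := Real.exp_one_lt_d9
    linarith) i

theorem exp_half_le (n : ℕ) : Real.exp ((n : ℝ) / 2) ≤ 2 ^ n := by
  have h2 : Real.exp (1 / 2) ≤ 2 := by
    have h : Real.exp (1 / 2) ^ 2 = Real.exp 1 := by
      rw [← Real.exp_nat_mul]
      norm_num
    have h3 : Real.exp 1 < 4 := by
      have := Real.exp_one_lt_d9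
      linarith
    nlinarith [Real.exp_pos (1 / 2 : ℝ)]
  have h : Real.exp ((n : ℝ) / 2) = Real.exp (1 / 2) ^ n := by
    rw [← Real.exp_nat_mul]
    congr 1
    ring
  rw [h]
  exact pow_le_pow_left₀ (Real.exp_pos _).le h2 n

end CondAux

/-- TARGET -/
theorem Cond_proof (h1 : S_Mu) (h2 : S_Sum) : S_Cond := by
  intro n G _ K hK
  have hKpos : 0 < K := by
    rw [hK]
    positivity
  have hS : ∀ v : Fin n, ∑ F ∈ (flaws (mat G) n.size).filter (fun F => v ∈ supp n F),
      psi K F ≤ 1 / 2 := by
    intro v
    rw [hK]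
    exact h2 n G v
  have hlen := CondAux.mat_length G
  constructor
  · intro i hi
    have hiF : IsFlaw (mat G) n.size i := mem_flaws.mp hi
    rw [CondAux.mu_eq h1 (mat G) n n.size K hlen i hKpos hiF]
    have hp := CondAux.prod_le (flaws (mat G) n.size)
      ((flaws (mat G) n.size).filter (fun j => ¬ Disjoint (supp n i) (supp n j))) K (supp n i)
      (Finset.filter_subset _ _) (by
        intro F hF
        rw [Finset.mem_filter] at hF
        obtain ⟨v, hv1, hv2⟩ := Finset.not_disjoint_iff.mp hF.2
        exact ⟨v, hv1, hv2⟩) hS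
    rw [CondAux.card_supp hlen hiF] at hp
    have he : Real.exp (((2 * i.1.length : ℕ) : ℝ) / 2) ≤ 3 ^ i.1.length := by
      refine le_trans (le_of_eq ?_) (CondAux.exp_nat_le i.1.length)
      congr 1
      push_cast
      ring
    have hp' := le_trans hp he
    have h3 := CondAux.two_mul_three_pow i.1.length hiF.pos
    have hKR : (0 : ℝ) < K := by exact_mod_cast hKpos
    unfold psi
    rw [div_pow, div_pow, one_pow]
    have hKp : (0 : ℝ) < (K : ℝ) ^ i.1.length := by positivity
    rw [div_eq_mul_inv (8 ^ i.1.length), mul_comm (8 ^ i.1.length), one_div]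
    calc 2 * ((K : ℝ) ^ i.1.length)⁻¹ *
          ∏ j ∈ (flaws (mat G) n.size).filter (fun j => ¬ Disjoint (supp n i) (supp n j)),
            (1 + psi K j)
        ≤ 2 * ((K : ℝ) ^ i.1.length)⁻¹ * 3 ^ i.1.length := by
          apply mul_le_mul_of_nonneg_left hp'
          positivity
      _ = ((K : ℝ) ^ i.1.length)⁻¹ * (2 * 3 ^ i.1.length) := by ring
      _ ≤ ((K : ℝ) ^ i.1.length)⁻¹ * 8 ^ i.1.length := by
          apply mul_le_mul_of_nonneg_left h3
          positivity
  · have hp := CondAux.prod_le (flaws (mat G) n.size) (flaws (mat G) n.size) K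
      (Finset.univ : Finset (Fin n)) (Finset.Subset.refl _) (by
        intro F hF
        have hF' : IsFlaw (mat G) n.size F := mem_flaws.mp hF
        have hc := CondAux.card_supp hlen hF'
        have hpos := hF'.pos
        have hne : (supp n F).Nonempty := by
          rw [← Finset.card_pos]
          omega
        obtain ⟨v, hv⟩ := hne
        exact ⟨v, Finset.mem_univ v, hv⟩) hS
    rw [Finset.card_univ, Fintype.card_fin] at hp
    exact le_trans hp (CondAux.exp_half_le n)

end Pool.Agent.H329N
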