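import Pool.Agent.H329N.Base

/-!
# Count
-/

namespace Pool.Agent.H329N

namespace CountAux

theorem cnt_adj {n : ℕ} (G : SimpleGraph (Fin n)) [DecidableRel G.Adj] (a b : Fin n) :
    adj (mat G) a b = decide (G.Adj a b) := by
  simp [adj, mat, List.getD_eq_getElem?_getD]

/-- the walks from `v` with `k + 1` vertices -/
def ws {n : ℕ} (G : SimpleGraph (Fin n)) [DecidableRel G.Adj] : ℕ → Fin n → Finset (List (Fin n))
  | 0, v => {[v]}
  | k + 1, v => (G.neighborFinset v).biUnion (fun w => (ws G k w).image (List.cons v))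

theorem ws_card {n : ℕ} (G : SimpleGraph (Fin n)) [DecidableRel G.Adj] (k : ℕ) :
    ∀ v, (ws G k v).card ≤ G.maxDegree ^ k := by
  induction k with
  | zero => intro v; simp [ws]
  | succ k ih =>
    intro v
    rw [ws, pow_succ']
    refine Finset.card_biUnion_le.trans ?_
    calc ∑ w ∈ G.neighborFinset v, ((ws G k w).image (List.cons v)).card
        ≤ ∑ w ∈ G.neighborFinset v, G.maxDegree ^ k :=
          Finset.sum_le_sum fun w _ => Finset.card_image_le.trans (ih w)
      _ = (G.neighborFinset v).card * G.maxDegree ^ k := by rw [Finset.sum_const, smul_eq_mul]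
      _ ≤ G.maxDegree * G.maxDegree ^ k := by
          refine Nat.mul_le_mul_right _ ?_
          rw [SimpleGraph.card_neighborFinset_eq_degree]
          exact G.degree_le_maxDegree v

theorem mem_ws {n : ℕ} (G : SimpleGraph (Fin n)) [DecidableRel G.Adj] (l : List (Fin n)) :
    ∀ v, (v :: l).IsChain G.Adj → v :: l ∈ ws G l.length v := by
  induction l with
  | nil => intro v _; simp [ws]
  | cons a l ih =>
    intro v h
    rw [List.isChain_cons_cons] at h
    rw [List.length_cons, ws, Finset.mem_biUnion]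
    refine ⟨a, ?_, ?_⟩
    · rw [SimpleGraph.mem_neighborFinset]
      exact h.1
    · exact Finset.mem_image_of_mem _ (ih a h.2)

theorem lift_list {n : ℕ} (l : List ℕ) (h : ∀ u ∈ l, u < n) :
    ∃ l' : List (Fin n), l'.map Fin.val = l := by
  induction l with
  | nil => exact ⟨[], rfl⟩
  | cons a l ih =>
    obtain ⟨l', hl'⟩ := ih (fun u hu => h u (List.mem_cons_of_mem _ hu))
    refine ⟨⟨a, h a List.mem_cons_self⟩ :: l', ?_⟩
    rw [List.map_cons, hl']

theorem chain_lift {n : ℕ} (G : SimpleGraph (Fin n)) [DecidableRel G.Adj] (l : List (Fin n))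
    (h : (l.map Fin.val).IsChain (fun p q => adj (mat G) q p = true)) : l.IsChain G.Adj := by
  rw [List.isChain_map] at h
  refine h.imp ?_
  intro a b hab
  rw [cnt_adj, decide_eq_true_eq] at hab
  exact hab.symm

/-- all walks -/
def wa {n : ℕ} (G : SimpleGraph (Fin n)) [DecidableRel G.Adj] (k : ℕ) : Finset (List ℕ) :=
  Finset.univ.biUnion (fun v => (ws G k v).image (List.map Fin.val))

/-- all walks through `v` -/
def wt {n : ℕ} (G : SimpleGraph (Fin n)) [DecidableRel G.Adj] (k : ℕ) (v : Fin n) :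
    Finset (List ℕ) :=
  (Finset.range (k + 1)).biUnion (fun j => ((ws G j v) ×ˢ (ws G (k - j) v)).image
    (fun p => (p.1.tail.reverse ++ p.2).map Fin.val))

theorem wa_card {n : ℕ} (G : SimpleGraph (Fin n)) [DecidableRel G.Adj] (k : ℕ) :
    (wa G k).card ≤ n * G.maxDegree ^ k := by
  refine Finset.card_biUnion_le.trans ?_
  refine (Finset.sum_le_sum fun v _ => Finset.card_image_le.trans (ws_card G k v)).trans ?_
  rw [Finset.sum_const, smul_eq_mul, Finset.card_univ, Fintype.card_fin]

theorem wt_card {n : ℕ} (G : SimpleGraph (Fin n)) [DecidableRel G.Adj] (k : ℕ) (v : Fin n) :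
    (wt G k v).card ≤ (k + 1) * G.maxDegree ^ k := by
  refine Finset.card_biUnion_le.trans ?_
  refine (Finset.sum_le_sum (g := fun _ => G.maxDegree ^ k) fun j hj => ?_).trans ?_
  · refine Finset.card_image_le.trans ?_
    rw [Finset.card_product]
    refine (Nat.mul_le_mul (ws_card G j v) (ws_card G (k - j) v)).trans ?_
    rw [← pow_add]
    have : j + (k - j) = k := by have := Finset.mem_range.1 hj; omega
    rw [this]
  · rw [Finset.sum_const, smul_eq_mul, Finset.card_range]

theorem sub_wa {n : ℕ} (G : SimpleGraph (Fin n)) [DecidableRel G.Adj] (N : ℕ) (hN : 1 ≤ N) :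
    Wk G N ⊆ (wa G (N - 1) : Set (List ℕ)) := by
  rintro l ⟨hl, hlt, hc⟩
  obtain ⟨l', rfl⟩ := lift_list l hlt
  have h1 := chain_lift G l' hc
  rw [List.length_map] at hl
  cases l' with
  | nil => simp at hl; omega
  | cons v l' =>
    rw [Finset.mem_coe, wa, Finset.mem_biUnion]
    refine ⟨v, Finset.mem_univ _, Finset.mem_image_of_mem _ ?_⟩
    have h2 := mem_ws G l' v h1
    have h3 : l'.length = N - 1 := by rw [List.length_cons] at hl; omega
    rwa [h3] at h2

theorem sub_wt {n : ℕ} (G : SimpleGraph (Fin n)) [DecidableRel G.Adj] (N : ℕ) (hN : 1 ≤ N)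
    (v : Fin n) : {l ∈ Wk G N | (v : ℕ) ∈ l} ⊆ (wt G (N - 1) v : Set (List ℕ)) := by
  rintro l ⟨⟨hl, hlt, hc⟩, hv⟩
  obtain ⟨l', rfl⟩ := lift_list l hlt
  have h1 := chain_lift G l' hc
  rw [List.length_map] at hl
  have hv' : v ∈ l' := by
    obtain ⟨w, hw, hwv⟩ := List.mem_map.1 hv
    rwa [← Fin.ext hwv]
  obtain ⟨a, b, rfl⟩ := List.append_of_mem hv'
  rw [List.isChain_split] at h1
  obtain ⟨h2, h3⟩ := h1
  have h4 : (v :: a.reverse).IsChain G.Adj := by
    have h5 : (a ++ [v]).reverse = v :: a.reverse := by simp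
    rw [← h5, List.isChain_reverse]
    refine h2.imp ?_
    intro x y hxy
    exact hxy.symm
  have h6 := mem_ws G _ v h4
  have h7 := mem_ws G _ v h3
  rw [List.length_append, List.length_cons] at hl
  rw [Finset.mem_coe, wt, Finset.mem_biUnion]
  refine ⟨a.length, Finset.mem_range.2 (by omega), ?_⟩
  rw [Finset.mem_image]
  refine ⟨(v :: a.reverse, v :: b), ?_, ?_⟩
  · rw [Finset.mem_product]
    rw [List.length_reverse] at h6
    have h8 : N - 1 - a.length = b.length := by omega
    rw [h8]
    exact ⟨h6, h7⟩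
  · simp

end CountAux

/-- TARGET -/
theorem Count_proof : S_Count := by
  intro n G _ N hN
  have h1 := CountAux.sub_wa G N hN
  have e : N - 1 + 1 = N := by omega
  refine ⟨(Finset.finite_toSet _).subset h1, ?_, fun v => ?_⟩
  · refine (Set.ncard_le_ncard h1 (Finset.finite_toSet _)).trans ?_
    rw [Set.ncard_coe_finset]
    exact CountAux.wa_card G (N - 1)
  · refine (Set.ncard_le_ncard (CountAux.sub_wt G N hN v) (Finset.finite_toSet _)).trans ?_
    rw [Set.ncard_coe_finset]
    have h2 := CountAux.wt_card G (N - 1) v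
    rwa [e] at h2

end Pool.Agent.H329N
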