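import Pool.Agent.H329N.Base

/-!
# FindComplete
-/

namespace Pool.Agent.H329N

namespace FindCompleteAux

/-- `dd` keeps one representative of every key -/
theorem dd_complete {κ : Type} [DecidableEq κ] (k : Fl → κ) (l : List Fl) (x : Fl) (hx : x ∈ l) :
    ∃ y ∈ dd k l, k y = k x := by
  classical
  have h : ∃ n : ℕ, ∃ z : Fl, l[n]? = some z ∧ k z = k x := by
    obtain ⟨n, hn, rfl⟩ := List.mem_iff_getElem.1 hx
    exact ⟨n, l[n], by simp, rfl⟩
  obtain ⟨z, hz, hk⟩ := Nat.find_spec h
  refine ⟨z, ?_, hk⟩
  unfold dd
  rw [List.mem_map]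
  refine ⟨(z, Nat.find h), ?_, rfl⟩
  rw [List.mem_filter]
  refine ⟨?_, ?_⟩
  · rw [List.mem_zipIdx_iff_getElem?]
    exact hz
  · rw [Bool.not_eq_true', List.any_eq_false]
    rintro ⟨w, m⟩ hw hb
    rw [List.mem_zipIdx_iff_getElem?] at hw
    rw [Bool.and_eq_true, decide_eq_true_iff, decide_eq_true_iff] at hb
    exact Nat.find_min h hb.1 ⟨w, hw, hb.2.trans hk⟩

/-- `dd` is a sublist -/
theorem mem_of_mem_dd {κ : Type} [DecidableEq κ] (k : Fl → κ) (l : List Fl) (x : Fl)
    (hx : x ∈ dd k l) : x ∈ l := by
  unfold dd at hx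
  rw [List.mem_map] at hx
  obtain ⟨⟨z, m⟩, hz, rfl⟩ := hx
  have h := (List.mem_filter.1 hz).1
  rw [List.mem_zipIdx_iff_getElem?] at h
  exact List.mem_of_getElem? h

theorem mem_ext {A : List (List Bool)} {col U g : List ℕ} {F G : Fl} :
    G ∈ ext A col U g F ↔ ∃ x < A.length, ∃ y < A.length, okp A col U g F x y = true ∧
      G = (x :: F.1, y :: F.2) := by
  unfold ext
  rw [List.mem_flatMap]
  constructor
  · rintro ⟨x, hx, h⟩
    rw [List.mem_flatMap] at h
    obtain ⟨y, hy, h⟩ := h
    by_cases ho : okp A col U g F x y = true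
    · rw [if_pos ho, List.mem_singleton] at h
      exact ⟨x, List.mem_range.1 hx, y, List.mem_range.1 hy, ho, h⟩
    · rw [if_neg ho] at h
      simp at h
  · rintro ⟨x, hx, y, hy, ho, rfl⟩
    refine ⟨x, List.mem_range.2 hx, ?_⟩
    rw [List.mem_flatMap]
    refine ⟨y, List.mem_range.2 hy, ?_⟩
    rw [if_pos ho, List.mem_singleton]

theorem lay_succ (A : List (List Bool)) (L : ℕ) (col U g : List ℕ) (i : ℕ) :
    lay A L col U g (i + 1) = lstep A L col U g (lay A L col U g i) := by
  unfold lay
  rw [Function.iterate_succ_apply']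

theorem lay_mem (A : List (List Bool)) (L : ℕ) (col U g : List ℕ) (i : ℕ) :
    ∀ F ∈ lay A L col U g i, F.1.length = i ∧ ∀ v ∈ verts F, v < A.length := by
  induction i with
  | zero =>
    intro F hF
    unfold lay at hF
    rw [Function.iterate_zero, id, List.mem_singleton] at hF
    subst hF
    simp [verts]
  | succ i ih =>
    intro F hF
    rw [lay_succ] at hF
    unfold lstep at hF
    have h := mem_of_mem_dd _ _ _ hF
    rw [List.mem_flatMap] at h
    obtain ⟨F', hF', h⟩ := h
    rw [mem_ext] at h
    obtain ⟨x, hx, y, hy, -, rfl⟩ := h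
    obtain ⟨h1, h2⟩ := ih F' hF'
    refine ⟨by simp [h1], ?_⟩
    intro v hv
    simp only [verts, List.cons_append, List.mem_cons, List.mem_append] at hv
    rcases hv with rfl | hv | rfl | hv
    · exact hx
    · exact h2 v (by simp [verts, hv])
    · exact hy
    · exact h2 v (by simp [verts, hv])

theorem key_color {L : ℕ} {g : List ℕ} {F F' : Fl} (h : keyOf L g F' = keyOf L g F) {c : ℕ}
    (hc : c < 4 * L) : (verts F').any (fun v => decide (cl g v = c)) =
      (verts F).any (fun v => decide (cl g v = c)) := by
  have h1 : (List.range (4 * L)).map (fun c => (verts F').any (fun v => decide (cl g v = c))) =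
      (List.range (4 * L)).map (fun c => (verts F).any (fun v => decide (cl g v = c))) :=
    congrArg (fun p => p.2.2) h
  rw [List.map_inj_left] at h1
  exact h1 c (List.mem_range.2 hc)

theorem okp_of_key {A : List (List Bool)} {L : ℕ} {col U g : List ℕ} {F F' : Fl} {x y : ℕ}
    (h : keyOf L g F' = keyOf L g F) (hlt : ∀ v ∈ verts F', cl g v < 4 * L)
    (ho : okp A col U g F x y = true) : okp A col U g F' x y = true := by
  have e1 : F'.1.head? = F.1.head? := congrArg (fun p => p.1.1) h
  have e2 : F'.2.head? = F.2.head? := congrArg (fun p => p.1.2) h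
  unfold okp at ho ⊢
  rw [e1, e2]
  simp only [Bool.and_eq_true] at ho ⊢
  obtain ⟨a1, a2, a3, a4, a5, a6, a7⟩ := ho
  refine ⟨a1, a2, a3, a4, a5, a6, ?_⟩
  rw [List.all_eq_true] at a7 ⊢
  intro v hv
  have hk := key_color h (hlt v hv)
  have h1 : (verts F').any (fun w => decide (cl g w = cl g v)) = true := by
    rw [List.any_eq_true]
    exact ⟨v, hv, by simp⟩
  rw [h1] at hk
  have h2 := hk.symm
  rw [List.any_eq_true] at h2
  obtain ⟨w, hw, hwv⟩ := h2
  have := a7 w hw
  rw [of_decide_eq_true hwv] at this
  exact this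

theorem key_cons {L : ℕ} {g : List ℕ} {F F' : Fl} {x y : ℕ}
    (h : keyOf L g F' = keyOf L g F) :
    keyOf L g (x :: F'.1, y :: F'.2) = keyOf L g (x :: F.1, y :: F.2) := by
  have e3 : F'.2.reverse.head? = F.2.reverse.head? := congrArg (fun p => p.2.1) h
  unfold keyOf
  refine Prod.ext rfl (Prod.ext ?_ ?_)
  · show (y :: F'.2).reverse.head? = (y :: F.2).reverse.head?
    rw [List.reverse_cons, List.reverse_cons, List.head?_append, List.head?_append, e3]
  · show (List.range (4 * L)).map (fun c => (verts (x :: F'.1, y :: F'.2)).any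
      (fun v => decide (cl g v = c))) = (List.range (4 * L)).map
      (fun c => (verts (x :: F.1, y :: F.2)).any (fun v => decide (cl g v = c)))
    refine List.map_congr_left ?_
    intro c hc
    have hk := key_color h (List.mem_range.1 hc)
    simp only [verts, List.any_append, List.any_cons, List.cons_append] at hk ⊢
    generalize decide (cl g x = c) = p1 at hk ⊢
    generalize decide (cl g y = c) = p2 at hk ⊢
    generalize (F'.1.any fun v => decide (cl g v = c)) = p3 at hk ⊢
    generalize (F'.2.any fun v => decide (cl g v = c)) = p4 at hk ⊢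
    generalize (F.1.any fun v => decide (cl g v = c)) = p5 at hk ⊢
    generalize (F.2.any fun v => decide (cl g v = c)) = p6 at hk ⊢
    revert hk
    cases p1 <;> cases p2 <;> cases p3 <;> cases p4 <;> cases p5 <;> cases p6 <;> decide

theorem head_chain {A : List (List Bool)} {x : ℕ} {a : List ℕ}
    (h : (x :: a).IsChain (fun p q => adj A q p = true)) :
    (a.head?).elim true (fun u => adj A u x) = true := by
  cases a with
  | nil => rfl
  | cons u a =>
    rw [List.isChain_cons_cons] at h
    exact h.1

theorem main (A : List (List Bool)) (L : ℕ) (col U g : List ℕ)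
    (hg : ∀ v < A.length, cl g v < 4 * L) : ∀ (a b : List ℕ), b.length = a.length →
    (∀ v ∈ a ++ b, v < A.length) → (a ++ b).Nodup →
    a.IsChain (fun p q => adj A q p = true) → b.IsChain (fun p q => adj A q p = true) →
    a.map (cl col) = b.map (cl col) → (∀ v ∈ a ++ b, v ∉ U) →
    (∀ v ∈ a ++ b, ∀ w ∈ a ++ b, cl g v = cl g w → v = w) →
    ∃ F' ∈ lay A L col U g a.length, keyOf L g F' = keyOf L g (a, b) := by
  intro a
  induction a with
  | nil =>
    intro b hb _ _ _ _ _ _ _
    rw [List.length_nil, List.length_eq_zero_iff] at hb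
    subst hb
    exact ⟨([], []), by simp [lay], rfl⟩
  | cons x a ih =>
    intro b hb hlt hnd hc1 hc2 hm hU hinj
    cases b with
    | nil => simp at hb
    | cons y b =>
      have hsub : ∀ v ∈ a ++ b, v ∈ (x :: a) ++ (y :: b) := by
        intro v hv
        simp only [List.cons_append, List.mem_cons, List.mem_append] at hv ⊢
        tauto
      have hxm : x ∈ (x :: a) ++ (y :: b) := by simp
      have hym : y ∈ (x :: a) ++ (y :: b) := by simp
      have hnd' : (a ++ (y :: b)).Nodup ∧ x ∉ a ++ (y :: b) := by
        rw [List.cons_append, List.nodup_cons] at hnd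
        exact ⟨hnd.2, hnd.1⟩
      have hperm : (a ++ (y :: b)).Perm (y :: (a ++ b)) := List.perm_middle
      have hnd2 : (a ++ b).Nodup ∧ y ∉ a ++ b := by
        have := hperm.nodup_iff.1 hnd'.1
        rw [List.nodup_cons] at this
        exact ⟨this.2, this.1⟩
      have hxy : x ≠ y := by
        rintro rfl
        exact hnd'.2 (by simp)
      have hxn : ∀ v ∈ a ++ b, v ≠ x := by
        rintro v hv rfl
        refine hnd'.2 ?_
        simp only [List.mem_cons, List.mem_append] at hv ⊢
        tauto
      have hyn : ∀ v ∈ a ++ b, v ≠ y := by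
        rintro v hv rfl
        exact hnd2.2 hv
      rw [List.map_cons, List.map_cons, List.cons.injEq] at hm
      obtain ⟨F', hF', hk⟩ := ih b (by simpa using hb) (fun v hv => hlt v (hsub v hv)) hnd2.1
        hc1.tail hc2.tail hm.2 (fun v hv => hU v (hsub v hv))
        (fun v hv w hw => hinj v (hsub v hv) w (hsub w hw))
      have hF'2 := lay_mem A L col U g _ F' hF'
      have hok : okp A col U g (a, b) x y = true := by
        unfold okp
        simp only [Bool.and_eq_true, Bool.not_eq_true', decide_eq_true_iff, decide_eq_false_iff_not]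
        refine ⟨head_chain hc1, head_chain hc2, hm.1, hU x hxm, hU y hym,
          fun h => hxy (hinj x hxm y hym h), ?_⟩
        rw [List.all_eq_true]
        intro v hv
        have hv' : v ∈ a ++ b := hv
        simp only [Bool.and_eq_true, Bool.not_eq_true', decide_eq_false_iff_not]
        exact ⟨fun h => hxn v hv' (hinj v (hsub v hv') x hxm h),
          fun h => hyn v hv' (hinj v (hsub v hv') y hym h)⟩
      have hok' : okp A col U g F' x y = true :=
        okp_of_key hk (fun v hv => hg v (hF'2.2 v hv)) hok
      have hmem : (x :: F'.1, y :: F'.2) ∈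
          (lay A L col U g a.length).flatMap (ext A col U g) := by
        rw [List.mem_flatMap]
        refine ⟨F', hF', ?_⟩
        rw [mem_ext]
        exact ⟨x, hlt x hxm, y, hlt y hym, hok', rfl⟩
      obtain ⟨F'', hF'', hk''⟩ := dd_complete (keyOf L g) _ _ hmem
      refine ⟨F'', ?_, ?_⟩
      · rw [List.length_cons, lay_succ]
        exact hF''
      · rw [hk'']
        exact key_cons hk

theorem closed_of_key {A : List (List Bool)} {L : ℕ} {g : List ℕ} {F F' : Fl}
    (h : keyOf L g F' = keyOf L g F) (hl : F'.1.length = F.1.length)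
    (hc : closed A L F = true) : closed A L F' = true := by
  have e1 : F'.1.head? = F.1.head? := congrArg (fun p => p.1.1) h
  have e3 : F'.2.reverse.head? = F.2.reverse.head? := congrArg (fun p => p.2.1) h
  unfold closed at hc ⊢
  rw [e1, e3, hl]
  exact hc

end FindCompleteAux

/-- TARGET -/
theorem FindComplete_proof : S_FindComplete := by
  intro A L col U g F hF hV hU hg hinj
  obtain ⟨F', hF', hk⟩ := FindCompleteAux.main A L col U g hg F.1 F.2 hF.len hF.lt hF.nd hF.ch1
    hF.ch2 hV hU hinj
  have hl := (FindCompleteAux.lay_mem A L col U g _ F' hF').1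
  have hcl : closed A L F = true := by
    unfold closed
    rw [Bool.or_eq_true, decide_eq_true_iff]
    rcases hF.clo with h | ⟨u, w, hu, hw, ha⟩
    · exact Or.inl h
    · right
      rw [hu, List.head?_reverse, hw]
      exact ha
  have hcl' : closed A L F' = true := FindCompleteAux.closed_of_key hk hl hcl
  have hmem : F' ∈ (List.range L).flatMap
      (fun i => (lay A L col U g (i + 1)).filter (closed A L)) := by
    rw [List.mem_flatMap]
    have hp := hF.pos
    have hle := hF.le
    refine ⟨F.1.length - 1, List.mem_range.2 (by omega), ?_⟩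
    rw [List.mem_filter, Nat.sub_add_cancel hp]
    exact ⟨hF', hcl'⟩
  unfold find
  rw [Ne, List.head?_eq_none_iff]
  exact List.ne_nil_of_mem hmem

end Pool.Agent.H329N
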