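import Pool.Agent.H329N.Base

/-!
# FindSound
-/

namespace Pool.Agent.H329N

namespace FindSoundAux

/-- invariant of the partial flaws -/
structure Inv (A : List (List Bool)) (col U g : List ℕ) (i : ℕ) (F : Fl) : Prop where
  l1 : F.1.length = i
  l2 : F.2.length = i
  lt : ∀ v ∈ verts F, v < A.length
  nu : ∀ v ∈ verts F, v ∉ U
  nd : ((verts F).map (cl g)).Nodup
  ch1 : F.1.IsChain (fun p q => adj A q p = true)
  ch2 : F.2.IsChain (fun p q => adj A q p = true)
  vi : Viol col F

theorem mem_dd {κ : Type} [DecidableEq κ] (k : Fl → κ) (l : List Fl) {F : Fl}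
    (h : F ∈ dd k l) : F ∈ l := by
  unfold dd at h
  rw [List.mem_map] at h
  obtain ⟨⟨a, n⟩, hp, rfl⟩ := h
  have := (List.mem_filter.1 hp).1
  exact (List.mem_zipIdx' this).2 ▸ List.getElem_mem _

theorem chain_cons {R : ℕ → ℕ → Prop} {x : ℕ} {l : List ℕ} (h : l.IsChain R)
    (hx : ∀ u, l.head? = some u → R x u) : (x :: l).IsChain R := by
  cases l with
  | nil => simp
  | cons a l => exact List.IsChain.cons_cons (hx a rfl) h

theorem inv_ext {A : List (List Bool)} {L : ℕ} {col U g : List ℕ} {i : ℕ} {F F' : Fl}
    (h : Inv A col U g i F) (hF : F' ∈ ext A col U g F) : Inv A col U g (i + 1) F' := by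
  unfold ext at hF
  rw [List.mem_flatMap] at hF
  obtain ⟨x, hx, hF⟩ := hF
  rw [List.mem_flatMap] at hF
  obtain ⟨y, hy, hF⟩ := hF
  split_ifs at hF with hok
  · rw [List.mem_singleton] at hF
    subst hF
    rw [List.mem_range] at hx hy
    unfold okp at hok
    simp only [Bool.and_eq_true, decide_eq_true_eq, Bool.not_eq_true', decide_eq_false_iff_not,
      List.all_eq_true] at hok
    obtain ⟨h1, h2, h3, h4, h5, h6, h7⟩ := hok
    have hv : ∀ v, v ∈ verts (x :: F.1, y :: F.2) → v = x ∨ v = y ∨ v ∈ verts F := by
      intro v hv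
      simp only [verts, List.mem_append, List.mem_cons] at hv ⊢
      tauto
    refine ⟨by simp [h.l1], by simp [h.l2], ?_, ?_, ?_, ?_, ?_, ?_⟩
    · intro v hv'
      rcases hv v hv' with rfl | rfl | h'
      · exact hx
      · exact hy
      · exact h.lt v h'
    · intro v hv'
      rcases hv v hv' with rfl | rfl | h'
      · exact h4
      · exact h5
      · exact h.nu v h'
    · have hp : (verts (x :: F.1, y :: F.2)).Perm (x :: y :: verts F) := by
        simp only [verts]
        exact List.Perm.cons _ List.perm_middle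
      rw [(hp.map (cl g)).nodup_iff]
      simp only [List.map_cons, List.nodup_cons, List.mem_cons, List.mem_map, not_or, not_exists,
        not_and]
      exact ⟨⟨h6, fun v hv' => (h7 v hv').1⟩, fun v hv' => (h7 v hv').2, h.nd⟩
    · refine chain_cons h.ch1 (fun u hu => ?_)
      rw [hu] at h1
      exact h1
    · refine chain_cons h.ch2 (fun u hu => ?_)
      rw [hu] at h2
      exact h2
    · have := h.vi
      unfold Viol at this ⊢
      simp [this, h3]
  · simp at hF

theorem inv_lay {A : List (List Bool)} {L : ℕ} {col U g : List ℕ} :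
    ∀ (i : ℕ) (F : Fl), F ∈ lay A L col U g i → Inv A col U g i F := by
  intro i
  induction i with
  | zero =>
    intro F hF
    simp only [lay, Function.iterate_zero, id_eq, List.mem_singleton] at hF
    subst hF
    refine ⟨rfl, rfl, by simp [verts], by simp [verts], by simp [verts], by simp, by simp,
      by simp [Viol]⟩
  | succ i ih =>
    intro F hF
    unfold lay at hF
    rw [Function.iterate_succ_apply'] at hF
    have h1 := mem_dd _ _ hF
    rw [List.mem_flatMap] at h1
    obtain ⟨F0, h0, h1⟩ := h1
    exact inv_ext (L := L) (ih F0 h0) h1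

end FindSoundAux

/-- TARGET -/
theorem FindSound_proof : S_FindSound := by
  intro A L col U g F hF
  unfold find at hF
  have hF := List.mem_of_head? hF
  rw [List.mem_flatMap] at hF
  obtain ⟨i, hi, hF⟩ := hF
  rw [List.mem_range] at hi
  obtain ⟨hF, hc⟩ := List.mem_filter.1 hF
  have h := FindSoundAux.inv_lay _ _ hF
  refine ⟨⟨by rw [h.l1, h.l2], by rw [h.l1]; omega, by rw [h.l1]; omega, h.lt,
    List.Nodup.of_map _ h.nd, h.ch1, h.ch2, ?_⟩, h.vi, h.nu⟩
  unfold closed at hc
  rw [Bool.or_eq_true, decide_eq_true_eq] at hc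
  rcases hc with hc | hc
  · exact Or.inl hc
  · right
    cases h1 : F.1.head? with
    | none => rw [h1] at hc; simp at hc
    | some u =>
      rw [h1] at hc
      simp only [Option.elim] at hc
      cases h2 : F.2.reverse.head? with
      | none => rw [h2] at hc; simp at hc
      | some w =>
        rw [h2] at hc
        simp only at hc
        exact ⟨u, w, rfl, by rw [← List.head?_reverse]; exact h2, hc⟩

end Pool.Agent.H329N
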