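import Pool.Agent.H329N.Base

/-!
# Greedy
-/

namespace Pool.Agent.H329N

set_option linter.unusedSectionVars false

namespace GreedyAux

section Av

variable {α β : Type} [Fintype α] [Fintype β]

theorem avg_mono {f g : α → ℝ} (h : ∀ a, f a ≤ g a) : avg f ≤ avg g := by
  unfold avg
  exact div_le_div_of_nonneg_right (Finset.sum_le_sum fun a _ => h a) (Nat.cast_nonneg _)

theorem avg_const_mul (c : ℝ) (f : α → ℝ) : avg (fun a => c * f a) = c * avg f := by
  unfold avg
  rw [← Finset.mul_sum, mul_div_assoc]

theorem avg_add (f g : α → ℝ) : avg (fun a => f a + g a) = avg f + avg g := by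
  unfold avg
  rw [Finset.sum_add_distrib, add_div]

theorem avg_const [Nonempty α] (c : ℝ) : avg (fun _ : α => c) = c := by
  unfold avg
  rw [Finset.sum_const, nsmul_eq_mul, Finset.card_univ]
  have : (Fintype.card α : ℝ) ≠ 0 := by exact_mod_cast Fintype.card_ne_zero
  field_simp

theorem ind_nonneg (q : Prop) : 0 ≤ ind q := by
  unfold ind; split_ifs <;> norm_num

theorem ind_le_one (q : Prop) : ind q ≤ 1 := by
  unfold ind; split_ifs <;> norm_num

theorem ind_true {q : Prop} (h : q) : ind q = 1 := by simp [ind, h]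

theorem ind_false {q : Prop} (h : ¬ q) : ind q = 0 := by simp [ind, h]

theorem avg_zero' (f : (Fin 0 → α) → ℝ) : avg f = f Fin.elim0 := by
  unfold avg
  have h1 : ∀ a : Fin 0 → α, a = Fin.elim0 := fun a => Subsingleton.elim _ _
  have h2 : ∑ a : Fin 0 → α, f a = f Fin.elim0 := by
    rw [Fintype.sum_unique]
    rw [h1 default]
  rw [h2]
  simp

theorem avg_succ {m : ℕ} (f : (Fin (m + 1) → α) → ℝ) :
    avg f = avg (fun a : α => avg (fun b : Fin m → α => f (Fin.cons a b))) := by
  unfold avg
  have h1 : ∑ x, f x = ∑ a : α, ∑ b : Fin m → α, f (Fin.cons a b) := by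
    rw [← Fintype.sum_prod_type' (f := fun (a : α) (b : Fin m → α) => f (Fin.cons a b))]
    refine (Fintype.sum_equiv (Fin.consEquiv (fun _ : Fin (m + 1) => α)) _ _ ?_).symm
    rintro ⟨a, b⟩
    rfl
  rw [h1, ← Finset.sum_div, div_div]
  congr 1
  simp [pow_succ]

end Av

section G

variable {V Col ι G : Type} [Fintype V] [DecidableEq V] [Fintype G] [Nonempty G]

/-- the invariant -/
structure Inv (fl : Finset ι) (supp : ι → Finset V) (viol : ι → (V → Col) → Prop)
    (x : V → Col) (I : List ι) : Prop where
  mem : ∀ i ∈ I, i ∈ fl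
  disj : I.Pairwise (fun i j => Disjoint (supp i) (supp j))
  vi : ∀ i ∈ I, viol i x

/-- not maximal -/
def NM (fl : Finset ι) (supp : ι → Finset V) (viol : ι → (V → Col) → Prop)
    (x : V → Col) (I : List ι) : Prop :=
  ∃ i ∈ fl, viol i x ∧ ∀ j ∈ I, Disjoint (supp j) (supp i)

/-- the potential -/
noncomputable def Phi (fl : Finset ι) (supp : ι → Finset V) (viol : ι → (V → Col) → Prop)
    (x : V → Col) (I : List ι) : ℝ := ind (NM fl supp viol x I) * (1 / 2) ^ I.length

variable {fl : Finset ι} {supp : ι → Finset V} {viol : ι → (V → Col) → Prop} {x : V → Col}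
  {fnd : List ι → G → Option ι} {p : ℝ}

theorem len_le (hne : ∀ i ∈ fl, (supp i).Nonempty) (I : List ι) (h1 : ∀ i ∈ I, i ∈ fl)
    (h2 : I.Pairwise (fun i j => Disjoint (supp i) (supp j))) :
    I.length ≤ (un supp I).card := by
  induction I with
  | nil => simp
  | cons i I ih =>
    have h3 := List.pairwise_cons.1 h2
    have h4 : Disjoint (supp i) (un supp I) := by
      have h5 : ∀ J : List ι, (∀ j ∈ J, Disjoint (supp i) (supp j)) →
          Disjoint (supp i) (un supp J) := by
        intro J
        induction J with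
        | nil => intro _; simp [un]
        | cons j J ihJ =>
          intro hJ
          have : un supp (j :: J) = supp j ∪ un supp J := rfl
          rw [this, Finset.disjoint_union_right]
          exact ⟨hJ j (by simp), ihJ fun k hk => hJ k (by simp [hk])⟩
      exact h5 I h3.1
    have h6 : un supp (i :: I) = supp i ∪ un supp I := rfl
    rw [h6, Finset.card_union_of_disjoint h4, List.length_cons]
    have h7 := ih (fun j hj => h1 j (by simp [hj])) h3.2
    have h8 : 1 ≤ (supp i).card := Finset.card_pos.2 (hne i (h1 i (by simp)))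
    omega

theorem inv_step (hs : ∀ I g i, (∀ j ∈ I, j ∈ fl) → fnd I g = some i →
    i ∈ fl ∧ viol i x ∧ ∀ j ∈ I, Disjoint (supp i) (supp j)) (I : List ι) (g : G)
    (h : Inv fl supp viol x I) : Inv fl supp viol x (gstp fnd I g) := by
  unfold gstp
  cases hf : fnd I g with
  | none => simpa using h
  | some i =>
    obtain ⟨h1, h2, h3⟩ := hs I g i h.mem hf
    refine ⟨?_, ?_, ?_⟩
    · intro j hj
      simp only [Option.elim_some, List.mem_cons] at hj
      rcases hj with rfl | hj
      · exact h1
      · exact h.mem j hj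
    · simp only [Option.elim_some]
      exact List.pairwise_cons.2 ⟨h3, h.disj⟩
    · intro j hj
      simp only [Option.elim_some, List.mem_cons] at hj
      rcases hj with rfl | hj
      · exact h2
      · exact h.vi j hj

theorem inv_foldl (hs : ∀ I g i, (∀ j ∈ I, j ∈ fl) → fnd I g = some i →
    i ∈ fl ∧ viol i x ∧ ∀ j ∈ I, Disjoint (supp i) (supp j)) (l : List G) (I : List ι)
    (h : Inv fl supp viol x I) : Inv fl supp viol x (l.foldl (gstp fnd) I) := by
  induction l generalizing I with
  | nil => exact h
  | cons g l ih => exact ih _ (inv_step hs I g h)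

theorem one_step (hs : ∀ I g i, (∀ j ∈ I, j ∈ fl) → fnd I g = some i →
    i ∈ fl ∧ viol i x ∧ ∀ j ∈ I, Disjoint (supp i) (supp j))
    (hc : ∀ I, (∀ j ∈ I, j ∈ fl) → (∃ i ∈ fl, viol i x ∧ ∀ j ∈ I, Disjoint (supp j) (supp i)) →
    p ≤ avg (fun g => ind (fnd I g ≠ none))) (I : List ι) (h : Inv fl supp viol x I) :
    avg (fun g : G => Phi fl supp viol x (gstp fnd I g)) ≤ (1 - p / 2) * Phi fl supp viol x I := by
  by_cases hN : NM fl supp viol x I
  · have h1 : ∀ g : G, Phi fl supp viol x (gstp fnd I g) ≤
        (1 / 2) ^ I.length + (-(1 / 2 : ℝ) * (1 / 2) ^ I.length) * ind (fnd I g ≠ none) := by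
      intro g
      unfold gstp
      have hpos : (0 : ℝ) < (1 / 2) ^ I.length := by positivity
      cases hf : fnd I g with
      | none =>
        rw [ind_false (by simp)]
        simp only [Option.elim_none, mul_zero, add_zero, Phi]
        have := ind_le_one (NM fl supp viol x I)
        nlinarith
      | some i =>
        rw [ind_true (by simp)]
        simp only [Option.elim_some, Phi, List.length_cons, pow_succ]
        have := ind_le_one (NM fl supp viol x (i :: I))
        nlinarith
    have h2 := avg_mono h1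
    rw [avg_add, avg_const_mul, avg_const] at h2
    have h3 := hc I h.mem hN
    have hpos : (0 : ℝ) < (1 / 2) ^ I.length := by positivity
    have h4 : Phi fl supp viol x I = (1 / 2) ^ I.length := by
      rw [Phi, ind_true hN, one_mul]
    rw [h4]
    refine h2.trans ?_
    nlinarith
  · have h1 : ∀ g : G, Phi fl supp viol x (gstp fnd I g) = 0 := by
      intro g
      have h2 : fnd I g = none := by
        cases hf : fnd I g with
        | none => rfl
        | some i =>
          obtain ⟨h3, h4, h5⟩ := hs I g i h.mem hf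
          exact absurd ⟨i, h3, h4, fun j hj => (h5 j hj).symm⟩ hN
      unfold gstp
      rw [h2]
      simp only [Option.elim_none, Phi]
      rw [ind_false hN, zero_mul]
    have h2 : (fun g : G => Phi fl supp viol x (gstp fnd I g)) = fun _ => 0 := funext h1
    rw [h2, avg_const]
    have : Phi fl supp viol x I = 0 := by rw [Phi, ind_false hN, zero_mul]
    rw [this, mul_zero]

theorem many_steps (hp1 : p ≤ 1) (hs : ∀ I g i, (∀ j ∈ I, j ∈ fl) → fnd I g = some i →
    i ∈ fl ∧ viol i x ∧ ∀ j ∈ I, Disjoint (supp i) (supp j))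
    (hc : ∀ I, (∀ j ∈ I, j ∈ fl) → (∃ i ∈ fl, viol i x ∧ ∀ j ∈ I, Disjoint (supp j) (supp i)) →
    p ≤ avg (fun g => ind (fnd I g ≠ none))) (m : ℕ) (I : List ι) (h : Inv fl supp viol x I) :
    avg (fun gs : Fin m → G => Phi fl supp viol x ((List.ofFn gs).foldl (gstp fnd) I)) ≤
      (1 - p / 2) ^ m * Phi fl supp viol x I := by
  induction m generalizing I with
  | zero =>
    rw [avg_zero']
    simp
  | succ m ih =>
    rw [avg_succ]
    have h1 : ∀ (g : G) (b : Fin m → G), (List.ofFn (Fin.cons g b : Fin (m + 1) → G)).foldl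
        (gstp fnd) I = (List.ofFn b).foldl (gstp fnd) (gstp fnd I g) := by
      intro g b
      rw [List.ofFn_succ]
      simp
    have h2 : ∀ g : G, avg (fun b : Fin m → G => Phi fl supp viol x
        ((List.ofFn (Fin.cons g b : Fin (m + 1) → G)).foldl (gstp fnd) I)) ≤
        (1 - p / 2) ^ m * Phi fl supp viol x (gstp fnd I g) := by
      intro g
      simp only [h1]
      exact ih _ (inv_step hs I g h)
    refine (avg_mono h2).trans ?_
    rw [avg_const_mul, pow_succ, mul_assoc]
    refine mul_le_mul_of_nonneg_left (one_step hs hc I h) ?_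
    exact pow_nonneg (by linarith) _

end G

end GreedyAux

open GreedyAux in
/-- TARGET -/
theorem Greedy_proof : S_Greedy := by
  intro V Col ι G _ _ _ _ fl supp viol x fnd p m hne hp0 hp1 hs hc
  have h0 : Inv fl supp viol x [] := ⟨by simp, by simp, by simp⟩
  have h1 := many_steps (m := m) hp1 hs hc [] h0
  have hpp : 0 ≤ (1 - p / 2) ^ m := pow_nonneg (by linarith) _
  have h2 : ∀ gs : Fin m → G, ind (¬ MaxSel fl supp viol x ((List.ofFn gs).foldl (gstp fnd) [])) ≤
      2 ^ Fintype.card V * Phi fl supp viol x ((List.ofFn gs).foldl (gstp fnd) []) := by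
    intro gs
    set J := (List.ofFn gs).foldl (gstp fnd) [] with hJ
    have hI : Inv fl supp viol x J := inv_foldl hs _ _ h0
    by_cases hM : MaxSel fl supp viol x J
    · rw [ind_false (not_not.2 hM)]
      exact mul_nonneg (by positivity) (mul_nonneg (ind_nonneg _) (by positivity))
    · have hN : NM fl supp viol x J := by
        by_contra hN
        refine hM ⟨hI.mem, hI.disj, hI.vi, ?_⟩
        intro i hi hv
        by_contra hcon
        push Not at hcon
        exact hN ⟨i, hi, hv, hcon⟩
      rw [ind_true hM, Phi, ind_true hN, one_mul]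
      have hl : J.length ≤ Fintype.card V :=
        (len_le hne J hI.mem hI.disj).trans (Finset.card_le_univ _)
      have h3 : (1 / 2 : ℝ) ^ Fintype.card V ≤ (1 / 2) ^ J.length :=
        pow_le_pow_of_le_one (by norm_num) (by norm_num) hl
      have h4 : (2 : ℝ) ^ Fintype.card V * (1 / 2) ^ Fintype.card V = 1 := by
        rw [← mul_pow]; norm_num
      calc (1 : ℝ) = 2 ^ Fintype.card V * (1 / 2) ^ Fintype.card V := h4.symm
        _ ≤ _ := mul_le_mul_of_nonneg_left h3 (by positivity)
  refine (avg_mono h2).trans ?_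
  rw [avg_const_mul]
  refine mul_le_mul_of_nonneg_left (h1.trans ?_) (by positivity)
  have h5 : Phi fl supp viol x [] ≤ 1 := by
    rw [Phi]
    simpa using ind_le_one _
  calc (1 - p / 2) ^ m * Phi fl supp viol x [] ≤ (1 - p / 2) ^ m * 1 :=
        mul_le_mul_of_nonneg_left h5 hpp
    _ = _ := mul_one _

end Pool.Agent.H329N
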