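import Pool.Agent.H329N.Base

/-!
# LLL
-/

namespace Pool.Agent.H329N

namespace LLLAux

theorem ind_pos {p : Prop} (h : p) : ind p = 1 := by
  unfold ind
  rw [if_pos h]

theorem ind_neg {p : Prop} (h : ¬ p) : ind p = 0 := by
  unfold ind
  rw [if_neg h]

theorem ind_nonneg (p : Prop) : 0 ≤ ind p := by
  unfold ind
  split_ifs <;> norm_num

theorem ind_le_one (p : Prop) : ind p ≤ 1 := by
  unfold ind
  split_ifs <;> norm_num

theorem ind_add_not (p : Prop) : ind p + ind (¬ p) = 1 := by
  by_cases h : p
  · rw [ind_pos h, ind_neg (not_not.2 h)]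
    norm_num
  · rw [ind_neg h, ind_pos h]
    norm_num

section avg

variable {α β : Type} [Fintype α] [Fintype β]

theorem avg_mono {f g : α → ℝ} (h : ∀ x, f x ≤ g x) : avg f ≤ avg g := by
  unfold avg
  exact div_le_div_of_nonneg_right (Finset.sum_le_sum fun x _ => h x) (Nat.cast_nonneg _)

theorem avg_nonneg {f : α → ℝ} (h : ∀ x, 0 ≤ f x) : 0 ≤ avg f := by
  unfold avg
  exact div_nonneg (Finset.sum_nonneg fun x _ => h x) (Nat.cast_nonneg _)

theorem avg_const [Nonempty α] (c : ℝ) : avg (fun _ : α => c) = c := by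
  unfold avg
  have h : (Fintype.card α : ℝ) ≠ 0 := Nat.cast_ne_zero.2 Fintype.card_ne_zero
  rw [Finset.sum_const, nsmul_eq_mul, Finset.card_univ]
  field_simp

theorem avg_add (f g : α → ℝ) : avg (fun x => f x + g x) = avg f + avg g := by
  unfold avg
  rw [Finset.sum_add_distrib, add_div]

theorem avg_const_mul (c : ℝ) (f : α → ℝ) : avg (fun x => c * f x) = c * avg f := by
  unfold avg
  rw [← Finset.mul_sum, mul_div_assoc]

theorem avg_sum {J : Type} (s : Finset J) (f : J → α → ℝ) :
    avg (fun x => ∑ j ∈ s, f j x) = ∑ j ∈ s, avg (f j) := by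
  unfold avg
  rw [Finset.sum_comm, Finset.sum_div]

theorem avg_prod (f : α × β → ℝ) : avg f = avg (fun x => avg (fun y => f (x, y))) := by
  unfold avg
  rw [Fintype.sum_prod_type, Fintype.card_prod, ← Finset.sum_div, div_div, Nat.cast_mul, mul_comm
    (Fintype.card β : ℝ)]

theorem avg_equiv (e : α ≃ β) (f : β → ℝ) : avg (fun x => f (e x)) = avg f := by
  unfold avg
  rw [Equiv.sum_comp e f, Fintype.card_congr e]

theorem avg_le_one [Nonempty α] {f : α → ℝ} (h : ∀ x, f x ≤ 1) : avg f ≤ 1 :=
  (avg_mono h).trans (avg_const 1).le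

end avg

/-- average over the rounds, recursively -/
noncomputable def Rn {X P : Type} [Fintype P] (step : X → P → X) (g : X → ℝ) : ℕ → X → ℝ
  | 0, x => g x
  | m + 1, x => avg (fun p : P => Rn step g m (step x p))

theorem avg_foldl {X P : Type} [Fintype P] (step : X → P → X) (g : X → ℝ) :
    ∀ (m : ℕ) (x : X), avg (fun w : Fin m → P => g ((List.ofFn w).foldl step x)) = Rn step g m x := by
  intro m
  induction m with
  | zero =>
    intro x
    simp only [List.ofFn_zero, List.foldl_nil, Rn]
    exact avg_const _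
  | succ m ih =>
    intro x
    rw [← avg_equiv (Fin.consEquiv (fun _ : Fin (m + 1) => P))
      (fun w : Fin (m + 1) → P => g ((List.ofFn w).foldl step x))]
    rw [avg_prod]
    simp only [Rn]
    congr 1
    funext p
    rw [← ih (step x p)]
    congr 1
    funext w
    have h1 : List.ofFn ((Fin.consEquiv (fun _ : Fin (m + 1) => P)) (p, w)) = p :: List.ofFn w := by
      rw [List.ofFn_succ]
      rfl
    rw [h1, List.foldl_cons]

section main

variable {V Col ι Aux : Type} [Fintype V] [DecidableEq V] [Fintype Col] [Nonempty Col]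
  [Fintype Aux] [Nonempty Aux] (fl : Finset ι) (supp : ι → Finset V)
  (viol : ι → (V → Col) → Prop) (sel : (V → Col) → Aux → List ι)

/-- failure with all the selections on the way maximal -/
noncomputable def Hn : ℕ → (V → Col) → ℝ
  | 0, x => ind (∃ i ∈ fl, viol i x)
  | m + 1, x => avg (fun p : (V → Col) × Aux => ind (MaxSel fl supp viol x (sel x p.2)) *
      Hn m (stp supp sel x p))

/-- plain failure -/
noncomputable def Fn (m : ℕ) (x : V → Col) : ℝ :=
  Rn (stp supp sel) (fun x => ind (∃ i ∈ fl, viol i x)) m x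

omit [Nonempty Col] [Nonempty Aux] in
theorem Hn_nonneg (m : ℕ) : ∀ x, 0 ≤ Hn fl supp viol sel m x := by
  induction m with
  | zero => exact fun x => ind_nonneg _
  | succ m ih => exact fun x => avg_nonneg fun p => mul_nonneg (ind_nonneg _) (ih _)

theorem Fn_le_one (m : ℕ) : ∀ x, Fn fl supp viol sel m x ≤ 1 := by
  induction m with
  | zero => exact fun x => ind_le_one _
  | succ m ih => exact fun x => avg_le_one fun p => ih _

theorem Hn_le_one (m : ℕ) : ∀ x, Hn fl supp viol sel m x ≤ 1 := by
  induction m with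
  | zero => exact fun x => ind_le_one _
  | succ m ih =>
    intro x
    refine avg_le_one fun p => ?_
    have h := mul_le_mul (ind_le_one (MaxSel fl supp viol x (sel x p.2)))
      (ih (stp supp sel x p)) (Hn_nonneg fl supp viol sel m _) zero_le_one
    rw [one_mul] at h
    exact h

theorem Fn_le {δ : ℝ} (hδ : ∀ x, avg (fun a => ind (¬ MaxSel fl supp viol x (sel x a))) ≤ δ)
    (m : ℕ) : ∀ x, Fn fl supp viol sel m x ≤ Hn fl supp viol sel m x + m * δ := by
  have hδ0 : 0 ≤ δ := (avg_nonneg fun a => ind_nonneg _).trans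
    (hδ (fun _ => Classical.arbitrary Col))
  induction m with
  | zero =>
    intro x
    simp only [Nat.cast_zero, zero_mul, add_zero]
    exact le_refl _
  | succ m ih =>
    intro x
    have h1 : ∀ p : (V → Col) × Aux, Fn fl supp viol sel m (stp supp sel x p) ≤
        (ind (MaxSel fl supp viol x (sel x p.2)) * Hn fl supp viol sel m (stp supp sel x p) +
          ind (¬ MaxSel fl supp viol x (sel x p.2))) + m * δ := by
      intro p
      have hm : 0 ≤ (m : ℝ) * δ := mul_nonneg (Nat.cast_nonneg _) hδ0
      by_cases h : MaxSel fl supp viol x (sel x p.2)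
      · rw [ind_pos h, ind_neg (not_not.2 h)]
        have := ih (stp supp sel x p)
        linarith
      · rw [ind_neg h, ind_pos h]
        have := Fn_le_one fl supp viol sel m (stp supp sel x p)
        linarith
    have h2 : avg (fun p : (V → Col) × Aux => ind (¬ MaxSel fl supp viol x (sel x p.2))) ≤ δ := by
      rw [avg_prod]
      show avg (fun _ : V → Col => avg (fun a => ind (¬ MaxSel fl supp viol x (sel x a)))) ≤ δ
      rw [avg_const]
      exact hδ x
    calc Fn fl supp viol sel (m + 1) x
        = avg (fun p : (V → Col) × Aux => Fn fl supp viol sel m (stp supp sel x p)) := rfl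
      _ ≤ avg (fun p : (V → Col) × Aux => (ind (MaxSel fl supp viol x (sel x p.2)) *
          Hn fl supp viol sel m (stp supp sel x p) +
          ind (¬ MaxSel fl supp viol x (sel x p.2))) + m * δ) := avg_mono h1
      _ = Hn fl supp viol sel (m + 1) x +
          avg (fun p : (V → Col) × Aux => ind (¬ MaxSel fl supp viol x (sel x p.2))) + m * δ := by
          rw [avg_add, avg_add, avg_const]
          rfl
      _ ≤ Hn fl supp viol sel (m + 1) x + (m + 1 : ℕ) * δ := by
          push_cast
          linarith

omit [Fintype V] in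
theorem un_eq [DecidableEq ι] (I : List ι) : un supp I = I.toFinset.biUnion supp := by
  induction I with
  | nil => simp [un]
  | cons i I ih =>
    have h1 : un supp (i :: I) = supp i ∪ un supp I := rfl
    rw [h1, ih, List.toFinset_cons, Finset.biUnion_insert]

theorem Hn_zero {x : V → Col} (h : ¬ ∃ i ∈ fl, viol i x) (m : ℕ) :
    Hn fl supp viol sel m x = 0 := by
  induction m with
  | zero => exact ind_neg h
  | succ m ih =>
    have h1 : ∀ p : (V → Col) × Aux, ind (MaxSel fl supp viol x (sel x p.2)) *
        Hn fl supp viol sel m (stp supp sel x p) = 0 := by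
      intro p
      by_cases h2 : MaxSel fl supp viol x (sel x p.2)
      · have h3 : sel x p.2 = [] := by
          rw [List.eq_nil_iff_forall_not_mem]
          intro i hi
          exact h ⟨i, h2.mem i hi, h2.vi i hi⟩
        have h4 : stp supp sel x p = x := by
          funext v
          unfold stp patch
          rw [h3]
          simp [un]
        rw [h4, ih, mul_zero]
      · rw [ind_neg h2, zero_mul]
    simp only [Hn, h1]
    exact avg_const 0

theorem prod_biUnion_le [DecidableEq ι] {f : ι → ℝ} (hf : ∀ i, 1 ≤ f i) (J : Finset ι)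
    (Γ : ι → Finset ι) : ∏ i ∈ J.biUnion Γ, f i ≤ ∏ i ∈ J, ∏ j ∈ Γ i, f j := by
  have h1 : ∀ s : Finset ι, 1 ≤ ∏ i ∈ s, f i := fun s => by
    induction s using Finset.induction_on with
    | empty => simp
    | insert a s ha ih =>
      rw [Finset.prod_insert ha]
      exact one_le_mul_of_one_le_of_one_le (hf a) ih
  induction J using Finset.induction_on with
  | empty => simp
  | insert a J ha ih =>
    rw [Finset.biUnion_insert, Finset.prod_insert ha]
    have h2 := Finset.prod_union_inter (s₁ := Γ a) (s₂ := J.biUnion Γ) (f := f)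
    have h3 := h1 (Γ a ∩ J.biUnion Γ)
    have h4 : 0 ≤ ∏ i ∈ Γ a ∪ J.biUnion Γ, f i := zero_le_one.trans (h1 _)
    calc ∏ i ∈ Γ a ∪ J.biUnion Γ, f i
        ≤ (∏ i ∈ Γ a ∪ J.biUnion Γ, f i) * ∏ i ∈ Γ a ∩ J.biUnion Γ, f i :=
          le_mul_of_one_le_right h4 h3
      _ = (∏ i ∈ Γ a, f i) * ∏ i ∈ J.biUnion Γ, f i := h2
      _ ≤ (∏ j ∈ Γ a, f j) * ∏ i ∈ J, ∏ j ∈ Γ i, f j :=
          mul_le_mul_of_nonneg_left ih (zero_le_one.trans (h1 _))

/-- the neighbours of the flaws in `J` -/
noncomputable def GJ [DecidableEq ι] (J : Finset ι) : Finset ι :=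
  J.biUnion fun i => fl.filter fun j => ¬ Disjoint (supp i) (supp j)

/-- the term of the set `J` in the bound for one round -/
noncomputable def fJ (J : Finset ι) (x : V → Col) : ℝ := ind (∀ i ∈ J, viol i x)

/-- the second factor of the term of the set `J` -/
noncomputable def hJ [DecidableEq ι] (m : ℕ) (J : Finset ι) (x : V → Col) : ℝ :=
  ind (∀ i ∈ fl, viol i x → i ∈ GJ fl supp J) * Hn fl supp viol sel m x

omit [Nonempty Col] [Nonempty Aux] in
theorem hJ_nonneg [DecidableEq ι] (m : ℕ) (J : Finset ι) (x : V → Col) :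
    0 ≤ hJ fl supp viol sel m J x := mul_nonneg (ind_nonneg _) (Hn_nonneg _ _ _ _ _ _)

open Classical in
/-- the nonempty sets of flaws in `S` with disjoint supports -/
noncomputable def JS (S : Finset ι) : Finset (Finset ι) :=
  S.powerset.filter fun J => J.Nonempty ∧ ∀ i ∈ J, ∀ j ∈ J, i ≠ j → Disjoint (supp i) (supp j)

omit [Fintype V] in
theorem mem_JS {S J : Finset ι} : J ∈ JS supp S ↔
    J ⊆ S ∧ J.Nonempty ∧ ∀ i ∈ J, ∀ j ∈ J, i ≠ j → Disjoint (supp i) (supp j) := by
  classical
  unfold JS
  simp only [Finset.mem_filter, Finset.mem_powerset]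

theorem round_le [DecidableEq ι]
    (hv : ∀ i ∈ fl, ∀ x y : V → Col, (∀ v ∈ supp i, x v = y v) → viol i x → viol i y)
    (S : Finset ι) (m : ℕ) (x y : V → Col) (a : Aux) :
    ind (∀ i ∈ fl, viol i x → i ∈ S) * (ind (MaxSel fl supp viol x (sel x a)) *
      Hn fl supp viol sel m (stp supp sel x (y, a))) ≤
    ∑ J ∈ JS supp S, fJ viol J x * hJ fl supp viol sel m J (patch (J.biUnion supp) x y) := by
  have hnn : ∀ J ∈ JS supp S, 0 ≤ fJ viol J x *
      hJ fl supp viol sel m J (patch (J.biUnion supp) x y) := fun J _ =>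
    mul_nonneg (ind_nonneg _) (hJ_nonneg _ _ _ _ _ _ _)
  by_cases h1 : ∀ i ∈ fl, viol i x → i ∈ S
  · by_cases h2 : MaxSel fl supp viol x (sel x a)
    · rw [ind_pos h1, ind_pos h2, one_mul, one_mul]
      set J := (sel x a).toFinset with hJdef
      have hun : un supp (sel x a) = J.biUnion supp := un_eq supp (sel x a)
      have hst : stp supp sel x (y, a) = patch (J.biUnion supp) x y := by
        unfold stp
        rw [hun]
      by_cases h3 : J.Nonempty
      · have hJS : J ∈ JS supp S := by
          rw [mem_JS]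
          refine ⟨fun i hi => ?_, h3, fun i hi j hj hij => ?_⟩
          · rw [hJdef, List.mem_toFinset] at hi
            exact h1 i (h2.mem i hi) (h2.vi i hi)
          · rw [hJdef, List.mem_toFinset] at hi hj
            have hsy : Std.Symm (fun i j => Disjoint (supp i) (supp j)) :=
              ⟨fun _ _ h => h.symm⟩
            exact h2.disj.forall hi hj hij
        refine le_trans ?_ (Finset.single_le_sum hnn hJS)
        have h4 : fJ viol J x = 1 := ind_pos fun i hi => by
          rw [hJdef, List.mem_toFinset] at hi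
          exact h2.vi i hi
        have h5 : ∀ i ∈ fl, viol i (patch (J.biUnion supp) x y) → i ∈ GJ fl supp J := by
          intro i hi hvi
          by_contra h6
          have h7 : ∀ j ∈ J, Disjoint (supp j) (supp i) := by
            intro j hj
            by_contra h8
            exact h6 (Finset.mem_biUnion.2 ⟨j, hj, Finset.mem_filter.2 ⟨hi, h8⟩⟩)
          have h8 : ∀ v ∈ supp i, patch (J.biUnion supp) x y v = x v := by
            intro v hvs
            unfold patch
            rw [if_neg]
            intro h9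
            obtain ⟨j, hj, hvj⟩ := Finset.mem_biUnion.1 h9
            exact Finset.disjoint_left.1 (h7 j hj) hvj hvs
          have h9 := hv i hi _ _ h8 hvi
          obtain ⟨j, hj, hj'⟩ := h2.max i hi h9
          exact hj' (h7 j (by rw [hJdef, List.mem_toFinset]; exact hj))
        rw [h4, one_mul, hst]
        unfold hJ
        rw [ind_pos h5, one_mul]
      · have h4 : sel x a = [] := by
          rw [List.eq_nil_iff_forall_not_mem]
          intro i hi
          exact h3 ⟨i, by rw [hJdef, List.mem_toFinset]; exact hi⟩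
        have h5 : stp supp sel x (y, a) = x := by
          funext v
          unfold stp patch
          rw [h4]
          simp [un]
        have h6 : ¬ ∃ i ∈ fl, viol i x := by
          rintro ⟨i, hi, hvi⟩
          obtain ⟨j, hj, -⟩ := h2.max i hi hvi
          rw [h4] at hj
          simp at hj
        rw [h5, Hn_zero fl supp viol sel h6]
        exact Finset.sum_nonneg hnn
    · rw [ind_neg h2, zero_mul, mul_zero]
      exact Finset.sum_nonneg hnn
  · rw [ind_neg h1, zero_mul]
    exact Finset.sum_nonneg hnn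

theorem main_claim [DecidableEq ι] (h1 : S_Swap) (h2 : S_MuProd) (ψ : ι → ℝ)
    (hv : ∀ i ∈ fl, ∀ x y : V → Col, (∀ v ∈ supp i, x v = y v) → viol i x → viol i y)
    (hψ : ∀ i, 0 ≤ ψ i)
    (hc : ∀ i ∈ fl, 2 * avg (fun x => ind (viol i x)) *
      ∏ j ∈ fl.filter (fun j => ¬ Disjoint (supp i) (supp j)), (1 + ψ j) ≤ ψ i) (m : ℕ) :
    ∀ S ⊆ fl, avg (fun x => ind (∀ i ∈ fl, viol i x → i ∈ S) * Hn fl supp viol sel m x) ≤
      (1 / 2) ^ m * ∏ i ∈ S, (1 + ψ i) := by
  have hge : ∀ S : Finset ι, 1 ≤ ∏ i ∈ S, (1 + ψ i) := fun S => by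
    induction S using Finset.induction_on with
    | empty => simp
    | insert a s ha ih =>
      rw [Finset.prod_insert ha]
      exact one_le_mul_of_one_le_of_one_le (by linarith [hψ a]) ih
  induction m with
  | zero =>
    intro S _
    rw [pow_zero, one_mul]
    refine le_trans (avg_le_one fun x => ?_) (hge S)
    calc _ ≤ (1 : ℝ) * 1 := mul_le_mul (ind_le_one _) (Hn_le_one _ _ _ _ _ _)
          (Hn_nonneg _ _ _ _ _ _) zero_le_one
      _ = 1 := one_mul 1
  | succ m ih =>
    intro S hS
    -- the bound for a fixed set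
    have hterm : ∀ J ∈ JS supp S,
        avg (fun q : (V → Col) × (V → Col) => fJ viol J q.1 *
          hJ fl supp viol sel m J (patch (J.biUnion supp) q.1 q.2)) ≤
        (1 / 2) ^ (m + 1) * ∏ i ∈ J, ψ i := by
      intro J hJ
      rw [mem_JS] at hJ
      obtain ⟨hJS, hJne, hJd⟩ := hJ
      have hJfl : J ⊆ fl := hJS.trans hS
      have hdep : ∀ x y : V → Col, (∀ v ∈ J.biUnion supp, x v = y v) →
          fJ viol J x = fJ viol J y := by
        intro x y hxy
        unfold fJ
        congr 1
        apply propext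
        constructor
        · intro h3 i hi
          exact hv i (hJfl hi) x y (fun v hvs => hxy v (Finset.mem_biUnion.2 ⟨i, hi, hvs⟩)) (h3 i hi)
        · intro h3 i hi
          exact hv i (hJfl hi) y x
            (fun v hvs => (hxy v (Finset.mem_biUnion.2 ⟨i, hi, hvs⟩)).symm) (h3 i hi)
      rw [h1 V Col (J.biUnion supp) (fJ viol J) (hJ fl supp viol sel m J) hdep]
      have hmu : avg (fJ viol J) = ∏ i ∈ J, avg (fun x => ind (viol i x)) := by
        have h3 := h2 V Col ι supp viol J.toList
          (fun i hi => hv i (hJfl (Finset.mem_toList.1 hi)))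
          (J.nodup_toList.pairwise_of_forall_ne fun i hi j hj hij =>
            hJd i (Finset.mem_toList.1 hi) j (Finset.mem_toList.1 hj) hij)
        rw [Finset.prod_map_toList] at h3
        rw [← h3]
        unfold fJ
        simp only [Finset.mem_toList]
      have hGJ : GJ fl supp J ⊆ fl := by
        intro j hj
        obtain ⟨i, -, hi⟩ := Finset.mem_biUnion.1 hj
        exact (Finset.mem_filter.1 hi).1
      have hih := ih (GJ fl supp J) hGJ
      have hprod := prod_biUnion_le (f := fun i => 1 + ψ i) (fun i => by linarith [hψ i]) J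
        (fun i => fl.filter fun j => ¬ Disjoint (supp i) (supp j))
      have hmu0 : 0 ≤ ∏ i ∈ J, avg (fun x => ind (viol i x)) :=
        Finset.prod_nonneg fun i _ => avg_nonneg fun x => ind_nonneg _
      have hhalf : (0 : ℝ) ≤ (1 / 2) ^ m := by positivity
      calc avg (fJ viol J) * avg (hJ fl supp viol sel m J)
          ≤ (∏ i ∈ J, avg (fun x => ind (viol i x))) *
              ((1 / 2) ^ m * ∏ i ∈ GJ fl supp J, (1 + ψ i)) := by
            rw [hmu]
            exact mul_le_mul_of_nonneg_left hih hmu0
        _ ≤ (∏ i ∈ J, avg (fun x => ind (viol i x))) * ((1 / 2) ^ m *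
              ∏ i ∈ J, ∏ j ∈ fl.filter (fun j => ¬ Disjoint (supp i) (supp j)), (1 + ψ j)) :=
            mul_le_mul_of_nonneg_left (mul_le_mul_of_nonneg_left hprod hhalf) hmu0
        _ = (1 / 2) ^ m * ∏ i ∈ J, (avg (fun x => ind (viol i x)) *
              ∏ j ∈ fl.filter (fun j => ¬ Disjoint (supp i) (supp j)), (1 + ψ j)) := by
            rw [Finset.prod_mul_distrib]
            ring
        _ ≤ (1 / 2) ^ m * ∏ i ∈ J, (1 / 2 * ψ i) := by
            refine mul_le_mul_of_nonneg_left (Finset.prod_le_prod (fun i _ => ?_) fun i hi => ?_) hhalf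
            · exact mul_nonneg (avg_nonneg fun x => ind_nonneg _) (zero_le_one.trans (hge _))
            · have := hc i (hJfl hi)
              linarith
        _ = (1 / 2) ^ m * ((1 / 2) ^ J.card * ∏ i ∈ J, ψ i) := by
            rw [Finset.prod_mul_distrib, Finset.prod_const]
        _ ≤ (1 / 2) ^ m * ((1 / 2) ^ 1 * ∏ i ∈ J, ψ i) := by
            refine mul_le_mul_of_nonneg_left (mul_le_mul_of_nonneg_right ?_
              (Finset.prod_nonneg fun i _ => hψ i)) hhalf
            exact pow_le_pow_of_le_one (by norm_num) (by norm_num) hJne.card_pos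
        _ = (1 / 2) ^ (m + 1) * ∏ i ∈ J, ψ i := by ring
    -- the sum over the sets
    have hsum : ∑ J ∈ JS supp S, ∏ i ∈ J, ψ i ≤ ∏ i ∈ S, (1 + ψ i) := by
      have h3 : ∏ i ∈ S, (1 + ψ i) = ∑ J ∈ S.powerset, ∏ i ∈ J, ψ i := Finset.prod_one_add S
      rw [h3]
      refine Finset.sum_le_sum_of_subset_of_nonneg
        (fun J hJ => Finset.mem_powerset.2 ((mem_JS supp).1 hJ).1) fun J _ _ => ?_
      exact Finset.prod_nonneg fun i _ => hψ i
    calc avg (fun x => ind (∀ i ∈ fl, viol i x → i ∈ S) * Hn fl supp viol sel (m + 1) x)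
        = avg (fun x => avg (fun p : (V → Col) × Aux => ind (∀ i ∈ fl, viol i x → i ∈ S) *
            (ind (MaxSel fl supp viol x (sel x p.2)) *
              Hn fl supp viol sel m (stp supp sel x p)))) := by
          congr 1
          funext x
          rw [avg_const_mul]
          rfl
      _ ≤ avg (fun x => avg (fun p : (V → Col) × Aux => ∑ J ∈ JS supp S, fJ viol J x *
            hJ fl supp viol sel m J (patch (J.biUnion supp) x p.1))) :=
          avg_mono fun x => avg_mono fun p => round_le fl supp viol sel hv S m x p.1 p.2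
      _ = avg (fun x => avg (fun y : V → Col => ∑ J ∈ JS supp S, fJ viol J x *
            hJ fl supp viol sel m J (patch (J.biUnion supp) x y))) := by
          congr 1
          funext x
          rw [avg_prod]
          congr 1
          funext y
          show avg (fun _ : Aux => ∑ J ∈ JS supp S, fJ viol J x *
            hJ fl supp viol sel m J (patch (J.biUnion supp) x y)) = _
          exact avg_const _
      _ = ∑ J ∈ JS supp S, avg (fun q : (V → Col) × (V → Col) => fJ viol J q.1 *
            hJ fl supp viol sel m J (patch (J.biUnion supp) q.1 q.2)) := by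
          rw [← avg_sum, avg_prod]
      _ ≤ ∑ J ∈ JS supp S, (1 / 2) ^ (m + 1) * ∏ i ∈ J, ψ i := Finset.sum_le_sum hterm
      _ = (1 / 2) ^ (m + 1) * ∑ J ∈ JS supp S, ∏ i ∈ J, ψ i := by rw [Finset.mul_sum]
      _ ≤ (1 / 2) ^ (m + 1) * ∏ i ∈ S, (1 + ψ i) :=
          mul_le_mul_of_nonneg_left hsum (by positivity)

end main

end LLLAux

open LLLAux in
/-- TARGET -/
theorem LLL_proof (h1 : S_Swap) (h2 : S_MuProd) : S_LLL := by
  classical
  intro V Col ι Aux _ _ _ _ _ _ fl supp viol sel ψ δ m hv _ hψ hc hδ
  have h3 := main_claim fl supp viol sel h1 h2 ψ hv hψ hc m fl (Finset.Subset.refl fl)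
  have h4 : avg (fun q : (V → Col) × (Fin m → (V → Col) × Aux) =>
      ind (∃ i ∈ fl, viol i ((List.ofFn q.2).foldl (stp supp sel) q.1))) =
      avg (fun x => Fn fl supp viol sel m x) := by
    rw [avg_prod]
    congr 1
    funext x
    exact avg_foldl (stp supp sel) (fun x => ind (∃ i ∈ fl, viol i x)) m x
  rw [h4]
  calc avg (fun x => Fn fl supp viol sel m x)
      ≤ avg (fun x => Hn fl supp viol sel m x + m * δ) := avg_mono (Fn_le fl supp viol sel hδ m)
    _ = avg (fun x => Hn fl supp viol sel m x) + m * δ := by rw [avg_add, avg_const]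
    _ ≤ (1 / 2) ^ m * (∏ i ∈ fl, (1 + ψ i)) + m * δ := by
        refine add_le_add_left (le_trans (le_of_eq ?_) h3) _
        congr 1
        funext x
        rw [ind_pos fun i hi _ => hi, one_mul]

end Pool.Agent.H329N
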