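import Pool.Agent.H329N.Base

/-!
# LaySize
-/

namespace Pool.Agent.H329N

namespace LaySizeAux

theorem mem_of_mem_dd {κ : Type} [DecidableEq κ] {k : Fl → κ} {l : List Fl} {F : Fl}
    (h : F ∈ dd k l) : F ∈ l := by
  unfold dd at h
  rw [List.mem_map] at h
  obtain ⟨p, hp, rfl⟩ := h
  have h1 := List.mem_of_mem_filter hp
  exact List.fst_mem_of_mem_zipIdx h1

theorem zipIdx_pairwise (l : List Fl) (j : ℕ) :
    (l.zipIdx j).Pairwise (fun p q => p.2 < q.2) := by
  induction l generalizing j with
  | nil => simp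
  | cons a l ih =>
    rw [List.zipIdx_cons, List.pairwise_cons]
    refine ⟨?_, ih (j + 1)⟩
    intro p hp
    have h1 := List.le_snd_of_mem_zipIdx hp
    show j < p.2
    omega

theorem dd_nodup {κ : Type} [DecidableEq κ] (k : Fl → κ) (l : List Fl) :
    ((dd k l).map k).Nodup := by
  unfold dd
  rw [List.map_map]
  unfold List.Nodup
  rw [List.pairwise_map]
  have h1 : (l.zipIdx.filter (fun p => !(l.zipIdx.any (fun q => decide (q.2 < p.2) &&
    decide (k q.1 = k p.1))))).Pairwise (fun p q => p.2 < q.2) :=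
    List.Pairwise.filter _ (zipIdx_pairwise l 0)
  rw [List.pairwise_iff_forall_sublist] at h1 ⊢
  intro a b hab
  have h2 := h1 hab
  have hb : b ∈ (l.zipIdx.filter (fun p => !(l.zipIdx.any (fun q => decide (q.2 < p.2) &&
    decide (k q.1 = k p.1))))) := hab.subset (by simp)
  have ha : a ∈ (l.zipIdx.filter (fun p => !(l.zipIdx.any (fun q => decide (q.2 < p.2) &&
    decide (k q.1 = k p.1))))) := hab.subset (by simp)
  have ha' := List.mem_of_mem_filter ha
  rw [List.mem_filter] at hb
  intro he
  have h3 := hb.2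
  rw [Bool.not_eq_true', List.any_eq_false] at h3
  apply h3 a ha'
  simp only [Function.comp] at he
  simp [h2, he]

/-- the options of numbers below `n` -/
def os (n : ℕ) : Finset (Option ℕ) := insert none ((Finset.range n).image some)

theorem os_card (n : ℕ) : (os n).card ≤ n + 1 := by
  unfold os
  refine (Finset.card_insert_le _ _).trans ?_
  have := Finset.card_image_le (s := Finset.range n) (f := (some : ℕ → Option ℕ))
  rw [Finset.card_range] at this
  omega

/-- the Boolean lists of length `m` -/
def bs (m : ℕ) : Finset (List Bool) := Finset.univ.image (fun f : Fin m → Bool => List.ofFn f)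

theorem bs_card (m : ℕ) : (bs m).card ≤ 2 ^ m := by
  unfold bs
  refine Finset.card_image_le.trans ?_
  simp

theorem mem_bs {m : ℕ} {l : List Bool} (h : l.length = m) : l ∈ bs m := by
  subst h
  unfold bs
  rw [Finset.mem_image]
  exact ⟨fun i => l.get i, Finset.mem_univ _, List.ofFn_get l⟩

theorem head_mem_os {n : ℕ} {l : List ℕ} (h : ∀ v ∈ l, v < n) : l.head? ∈ os n := by
  unfold os
  cases l with
  | nil => simp
  | cons a l =>
    have := h a (by simp)
    simp [this]

theorem key_mem {n L : ℕ} {g : List ℕ} {F : Fl} (h : ∀ v ∈ verts F, v < n) :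
    keyOf L g F ∈ (os n ×ˢ os n) ×ˢ (os n ×ˢ bs (4 * L)) := by
  unfold keyOf
  unfold verts at h
  rw [Finset.mem_product, Finset.mem_product, Finset.mem_product]
  refine ⟨⟨head_mem_os fun v hv => h v ?_, head_mem_os fun v hv => h v ?_⟩,
    head_mem_os fun v hv => h v ?_, mem_bs ?_⟩
  · simp [hv]
  · simp [hv]
  · rw [List.mem_reverse] at hv
    simp [hv]
  · simp

theorem card_le (n L : ℕ) :
    ((os n ×ˢ os n) ×ˢ (os n ×ˢ bs (4 * L))).card ≤ (n + 1) ^ 3 * 2 ^ (4 * L) := by
  rw [Finset.card_product, Finset.card_product, Finset.card_product]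
  have h1 := os_card n
  have h2 := bs_card (4 * L)
  calc (os n).card * (os n).card * ((os n).card * (bs (4 * L)).card)
      ≤ (n + 1) * (n + 1) * ((n + 1) * 2 ^ (4 * L)) :=
        Nat.mul_le_mul (Nat.mul_le_mul h1 h1) (Nat.mul_le_mul h1 h2)
    _ = (n + 1) ^ 3 * 2 ^ (4 * L) := by ring

theorem mem_ext {A : List (List Bool)} {col U g : List ℕ} {F F' : Fl}
    (h : F' ∈ ext A col U g F) :
    ∃ x y, x < A.length ∧ y < A.length ∧ F' = (x :: F.1, y :: F.2) := by
  unfold ext at h
  rw [List.mem_flatMap] at h
  obtain ⟨x, hx, h⟩ := h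
  rw [List.mem_flatMap] at h
  obtain ⟨y, hy, h⟩ := h
  rw [List.mem_range] at hx hy
  split_ifs at h with hc
  · rw [List.mem_singleton] at h
    exact ⟨x, y, hx, hy, h⟩
  · simp at h

theorem lay_succ (A : List (List Bool)) (L : ℕ) (col U g : List ℕ) (i : ℕ) :
    lay A L col U g (i + 1) = dd (keyOf L g) ((lay A L col U g i).flatMap (ext A col U g)) := by
  unfold lay
  rw [Function.iterate_succ_apply']
  rfl

theorem lay_mem (A : List (List Bool)) (L : ℕ) (col U g : List ℕ) (i : ℕ) :
    ∀ F ∈ lay A L col U g i, F.1.length = i ∧ F.2.length = i ∧ ∀ v ∈ verts F, v < A.length := by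
  induction i with
  | zero =>
    intro F hF
    have : F = ([], []) := by
      simpa [lay] using hF
    subst this
    simp [verts]
  | succ i ih =>
    intro F hF
    rw [lay_succ] at hF
    have h1 := mem_of_mem_dd hF
    rw [List.mem_flatMap] at h1
    obtain ⟨F0, h0, h2⟩ := h1
    obtain ⟨x, y, hx, hy, rfl⟩ := mem_ext h2
    obtain ⟨h3, h4, h5⟩ := ih F0 h0
    refine ⟨by simp [h3], by simp [h4], ?_⟩
    intro v hv
    unfold verts at hv h5
    simp only [List.cons_append, List.mem_cons, List.mem_append] at hv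
    rcases hv with rfl | hv | rfl | hv
    · exact hx
    · exact h5 v (by simp [hv])
    · exact hy
    · exact h5 v (by simp [hv])

end LaySizeAux

open LaySizeAux in
/-- TARGET -/
theorem LaySize_proof : S_LaySize := by
  intro A L col U g i
  refine ⟨?_, lay_mem A L col U g i⟩
  cases i with
  | zero =>
    show 1 ≤ _
    exact Nat.one_le_iff_ne_zero.2 (by positivity)
  | succ i =>
    have hn : ((lay A L col U g (i + 1)).map (keyOf L g)).Nodup := by
      rw [lay_succ]
      exact dd_nodup _ _
    rw [← List.length_map (f := keyOf L g), ← List.toFinset_card_of_nodup hn]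
    refine (Finset.card_le_card ?_).trans (card_le A.length L)
    intro κ hκ
    rw [List.mem_toFinset, List.mem_map] at hκ
    obtain ⟨F, hF, rfl⟩ := hκ
    exact key_mem (lay_mem A L col U g (i + 1) F hF).2.2

end Pool.Agent.H329N
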