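import Pool.Agent.H329N.Base

/-!
# MaxDeg
-/

namespace Pool.Agent.H329N

theorem MaxDeg_row {n : ℕ} (G : SimpleGraph (Fin n)) [DecidableRel G.Adj] (i : Fin n) :
    ((List.ofFn fun j => decide (G.Adj i j)).filter (fun b => b)).length = G.degree i := by
  rw [List.ofFn_eq_map, List.filter_map, List.length_map, ← SimpleGraph.card_neighborFinset_eq_degree,
    SimpleGraph.neighborFinset_eq_filter]
  have h : (List.filter ((fun b => b) ∘ fun j => decide (G.Adj i j)) (List.finRange n)) =
      (List.finRange n).filter (fun j => decide (G.Adj i j)) := rfl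
  rw [h, Finset.card_def, Finset.filter_val]
  have h2 : (Finset.univ : Finset (Fin n)).val = ((List.finRange n : List (Fin n)) : Multiset (Fin n)) := rfl
  rw [h2, Multiset.filter_coe, Multiset.coe_card]

theorem MaxDeg_any {n : ℕ} (G : SimpleGraph (Fin n)) [DecidableRel G.Adj] (d : ℕ) :
    (mat G).any (fun row => decide (d < (row.filter (fun b => b)).length)) = decide (d < G.maxDegree) := by
  rw [Bool.eq_iff_iff, List.any_eq_true, decide_eq_true_iff]
  constructor
  · rintro ⟨row, h1, h2⟩
    rw [mat, List.mem_ofFn] at h1
    obtain ⟨i, rfl⟩ := h1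
    rw [decide_eq_true_iff, MaxDeg_row] at h2
    exact lt_of_lt_of_le h2 (G.degree_le_maxDegree i)
  · intro h
    have hn : Nonempty (Fin n) := by
      by_contra hc
      rw [not_nonempty_iff] at hc
      have : G.maxDegree = 0 := by
        simp [SimpleGraph.maxDegree]
      omega
    obtain ⟨i, hi⟩ := G.exists_maximal_degree_vertex
    refine ⟨List.ofFn fun j => decide (G.Adj i j), ?_, ?_⟩
    · rw [mat, List.mem_ofFn]
      exact ⟨i, rfl⟩
    · rw [decide_eq_true_iff, MaxDeg_row]
      omega

theorem MaxDeg_range (D n : ℕ) (hle : D ≤ n) :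
    (List.range n).filter (fun d => decide (d < D)) = List.range D := by
  obtain ⟨k, hk⟩ := Nat.exists_eq_add_of_le hle
  rw [hk, List.range_add, List.filter_append]
  have h1 : (List.range D).filter (fun d => decide (d < D)) = List.range D := by
    rw [List.filter_eq_self]
    intro a ha
    simpa using ha
  have h2 : ((List.range k).map (fun x => D + x)).filter (fun d => decide (d < D)) = [] := by
    rw [List.filter_eq_nil_iff]
    intro a ha
    simp only [List.mem_map, List.mem_range] at ha
    obtain ⟨b, _, rfl⟩ := ha
    simp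
  rw [h1, h2, List.append_nil]

/-- TARGET -/
theorem MaxDeg_proof : S_MaxDeg := by
  intro n G _
  rw [mxd]
  simp only [MaxDeg_any]
  have hl : (mat G).length = n := by simp [mat]
  rw [hl]
  have hle : G.maxDegree ≤ n := by
    apply SimpleGraph.maxDegree_le_of_forall_degree_le
    intro v
    have := G.degree_lt_card_verts v
    simp at this
    omega
  rw [MaxDeg_range _ _ hle, List.length_range]

end Pool.Agent.H329N
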