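import Pool.Agent.H329N.Base

/-!
# Mu
-/

namespace Pool.Agent.H329N

namespace MuAux

theorem card_aux {V : Type} [Fintype V] [DecidableEq V] (K : ℕ) (l1 l2 : List V)
    (hn : (l1 ++ l2).Nodup) (hl : l1.length = l2.length) :
    (Finset.univ.filter (fun x : V → Fin K => l1.map x = l2.map x)).card * K ^ l1.length =
      K ^ Fintype.card V := by
  induction l1 generalizing l2 with
  | nil =>
    have h2 : l2 = [] := List.length_eq_zero_iff.mp (by simpa using hl.symm)
    subst h2
    simp
  | cons a t1 ih =>
    cases l2 with
    | nil => simp at hl
    | cons b t2 =>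
      have hl' : t1.length = t2.length := by simpa using hl
      have hn' : (t1 ++ t2).Nodup := by
        refine List.Nodup.sublist ?_ hn
        exact List.Sublist.append (List.sublist_cons_self a t1) (List.sublist_cons_self b t2)
      have hab : a ≠ b := by
        intro h
        subst h
        simp [List.nodup_append] at hn
      have ha1 : a ∉ t1 := by
        intro h
        simp [List.nodup_append, h] at hn
      have ha2 : a ∉ t2 := by
        intro h
        simp [List.nodup_append, h] at hn
      have key : (Finset.univ.filter (fun x : V → Fin K =>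
          (a :: t1).map x = (b :: t2).map x)).card * K =
          (Finset.univ.filter (fun x : V → Fin K => t1.map x = t2.map x)).card := by
        have hmap : ∀ (x : V → Fin K) (c : Fin K) (t : List V), a ∉ t →
            t.map (Function.update x a c) = t.map x := by
          intro x c t ht
          apply List.map_congr_left
          intro v hv
          rw [Function.update_of_ne]
          rintro rfl
          exact ht hv
        have hcard : (Finset.univ.filter (fun x : V → Fin K =>
          (a :: t1).map x = (b :: t2).map x)).card * K =
          ((Finset.univ.filter (fun x : V → Fin K =>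
          (a :: t1).map x = (b :: t2).map x)) ×ˢ (Finset.univ : Finset (Fin K))).card := by
          rw [Finset.card_product]; simp
        rw [hcard]
        refine Finset.card_bij' (fun p _ => Function.update p.1 a p.2)
          (fun y _ => (Function.update y a (y b), y a)) ?_ ?_ ?_ ?_
        · rintro ⟨x, c⟩ hp
          simp only [Finset.mem_product, Finset.mem_filter, Finset.mem_univ, true_and, and_true,
            List.map_cons, List.cons.injEq] at hp ⊢
          rw [hmap x c t1 ha1, hmap x c t2 ha2]
          exact hp.2
        · intro y hy
          simp only [Finset.mem_product, Finset.mem_filter, Finset.mem_univ, true_and, and_true,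
            List.map_cons, List.cons.injEq] at hy ⊢
          rw [hmap y (y b) t1 ha1, hmap y (y b) t2 ha2]
          refine ⟨?_, hy⟩
          rw [Function.update_self, Function.update_of_ne (Ne.symm hab)]
        · rintro ⟨x, c⟩ hp
          simp only [Finset.mem_product, Finset.mem_filter, Finset.mem_univ, true_and, and_true,
            List.map_cons, List.cons.injEq] at hp
          simp only [Prod.mk.injEq, Function.update_self, and_true]
          rw [Function.update_of_ne (Ne.symm hab), Function.update_idem, ← hp.1,
            Function.update_eq_self]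
        · intro y hy
          simp
      have := ih t2 hn' hl'
      rw [← key] at this
      rw [← this, List.length_cons, pow_succ]
      ring

theorem avg_aux {V : Type} [Fintype V] [DecidableEq V] (K : ℕ) (hK : 0 < K) (l1 l2 : List V)
    (hn : (l1 ++ l2).Nodup) (hl : l1.length = l2.length) :
    avg (fun x : V → Fin K => ind (l1.map x = l2.map x)) = (1 / K : ℝ) ^ l1.length := by
  have h := card_aux K l1 l2 hn hl
  unfold avg ind
  have hsum : (∑ x : V → Fin K, (if l1.map x = l2.map x then (1 : ℝ) else 0)) =
      ((Finset.univ.filter (fun x : V → Fin K => l1.map x = l2.map x)).card : ℝ) := by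
    rw [Finset.sum_ite]
    simp
  have hsum' : (∑ x : V → Fin K, (@ite ℝ (l1.map x = l2.map x)
      (Classical.propDecidable _) (1 : ℝ) 0)) =
      ((Finset.univ.filter (fun x : V → Fin K => l1.map x = l2.map x)).card : ℝ) := by
    rw [← hsum]
    apply Finset.sum_congr rfl
    intro x _
    congr
  rw [hsum']
  have hK' : (K : ℝ) ≠ 0 := by exact_mod_cast hK.ne'
  have hR : ((Finset.univ.filter (fun x : V → Fin K => l1.map x = l2.map x)).card : ℝ) *
      (K : ℝ) ^ l1.length = (K : ℝ) ^ Fintype.card V := by exact_mod_cast h
  have hcd : ((Fintype.card (V → Fin K) : ℕ) : ℝ) = (K : ℝ) ^ Fintype.card V := by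
    rw [Fintype.card_fun, Fintype.card_fin]
    push_cast
    rfl
  rw [hcd, ← hR, one_div, inv_pow]
  have hc0 : ((Finset.univ.filter (fun x : V → Fin K => l1.map x = l2.map x)).card : ℝ) ≠ 0 := by
    intro h0
    rw [h0, zero_mul] at hR
    exact (pow_ne_zero _ hK') hR.symm
  field_simp

theorem lift_list (n : ℕ) (l : List ℕ) (h : ∀ v ∈ l, v < n) :
    ∃ l' : List (Fin n), l'.map Fin.val = l := by
  induction l with
  | nil => exact ⟨[], rfl⟩
  | cons a t ih =>
    obtain ⟨t', ht'⟩ := ih (fun v hv => h v (by simp [hv]))
    exact ⟨⟨a, h a (by simp)⟩ :: t', by simp [ht']⟩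

theorem cl_toL {n K : ℕ} (x : Fin n → Fin K) (v : Fin n) : cl (toL x) (v : ℕ) = (x v : ℕ) := by
  unfold cl toL
  rw [List.getD_eq_getElem?_getD, List.getElem?_ofFn]
  simp

end MuAux

/-- TARGET -/
theorem Mu_proof : S_Mu := by
  intro A L K F hK hF
  obtain ⟨l1, h1⟩ := MuAux.lift_list A.length F.1 (fun v hv => hF.lt v (by simp [verts, hv]))
  obtain ⟨l2, h2⟩ := MuAux.lift_list A.length F.2 (fun v hv => hF.lt v (by simp [verts, hv]))
  have hn : (l1 ++ l2).Nodup := by
    have := hF.nd
    unfold verts at this
    rw [← h1, ← h2, ← List.map_append] at this
    exact List.Nodup.of_map _ this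
  have hl : l1.length = l2.length := by
    have := hF.len
    rw [← h1, ← h2] at this
    simpa using this.symm
  have hlen : F.1.length = l1.length := by rw [← h1]; simp
  rw [hlen, ← MuAux.avg_aux K hK l1 l2 hn hl]
  have hfun : (fun x : Fin A.length → Fin K => ind (violF F x)) =
      (fun x : Fin A.length → Fin K => ind (l1.map x = l2.map x)) := by
    funext x
    have hiff : violF F x ↔ l1.map x = l2.map x := by
      unfold violF Viol
      rw [← h1, ← h2, List.map_map, List.map_map]
      have hc : (cl (toL x)) ∘ Fin.val = Fin.val ∘ x := by
        funext v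
        exact MuAux.cl_toL x v
      rw [hc, ← List.map_map, ← List.map_map]
      constructor
      · intro h
        exact (List.map_injective_iff.mpr Fin.val_injective) h
      · intro h
        rw [h]
    rw [propext hiff]
  rw [hfun]

end Pool.Agent.H329N
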