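import Pool.Agent.H329N.Base

/-!
# Independence of disjoint flaws
-/

namespace Pool.Agent.H329N

namespace MuProdAux

theorem avg_fst {α : Type} [Fintype α] [Nonempty α] (F : α → ℝ) :
    avg (fun q : α × α => F q.1) = avg F := by
  unfold avg
  rw [Fintype.sum_prod_type]
  simp only [Finset.sum_const, Finset.card_univ, nsmul_eq_mul, Fintype.card_prod, Nat.cast_mul]
  rw [← Finset.mul_sum]
  have h : (Fintype.card α : ℝ) ≠ 0 := by exact_mod_cast Fintype.card_ne_zero
  field_simp

theorem ind_congr {p q : Prop} (h : p ↔ q) : ind p = ind q := by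
  rw [propext h]

theorem ind_and (p q : Prop) : ind (p ∧ q) = ind p * ind q := by
  unfold ind
  by_cases hp : p <;> by_cases hq : q <;> simp [hp, hq]

end MuProdAux

/-- TARGET -/
theorem MuProd_proof (h1 : S_Swap) : S_MuProd := by
  intro V Col ι _ _ _ _ supp viol I hviol hpw
  induction I with
  | nil =>
    simp only [List.not_mem_nil, false_implies, implies_true, List.map_nil, List.prod_nil]
    unfold avg ind
    simp only [if_true, Finset.sum_const, Finset.card_univ, nsmul_eq_mul, mul_one]
    have h : (Fintype.card (V → Col) : ℝ) ≠ 0 := by exact_mod_cast Fintype.card_ne_zero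
    exact div_self h
  | cons i I ih =>
    obtain ⟨hd, hpw'⟩ := List.pairwise_cons.1 hpw
    have ih' := ih (fun j hj => hviol j (List.mem_cons_of_mem _ hj)) hpw'
    rw [List.map_cons, List.prod_cons, ← ih']
    have hi := hviol i List.mem_cons_self
    have h2 := h1 V Col (supp i) (fun x => ind (viol i x)) (fun x => ind (∀ j ∈ I, viol j x))
      (fun x y hxy => MuProdAux.ind_congr
        ⟨hi x y hxy, hi y x (fun v hv => (hxy v hv).symm)⟩)
    rw [← h2]
    have h3 : ∀ q : (V → Col) × (V → Col),
        ind (∀ j ∈ I, viol j (patch (supp i) q.1 q.2)) = ind (∀ j ∈ I, viol j q.1) := by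
      intro q
      apply MuProdAux.ind_congr
      have h4 : ∀ j ∈ I, ∀ v ∈ supp j, patch (supp i) q.1 q.2 v = q.1 v := by
        intro j hj v hv
        have h5 : v ∉ supp i := fun h => (Finset.disjoint_left.1 (hd j hj) h) hv
        simp [patch, h5]
      constructor
      · intro h j hj
        exact hviol j (List.mem_cons_of_mem _ hj) _ _ (h4 j hj) (h j hj)
      · intro h j hj
        exact hviol j (List.mem_cons_of_mem _ hj) _ _ (fun v hv => (h4 j hj v hv).symm) (h j hj)
    simp only [h3]
    rw [MuProdAux.avg_fst (fun x : V → Col => ind (viol i x) * ind (∀ j ∈ I, viol j x))]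
    congr 1
    funext x
    rw [← MuProdAux.ind_and]
    exact MuProdAux.ind_congr (by simp)

end Pool.Agent.H329N
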