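import Pool.Agent.H329N.Base

/-!
# Nonrep
-/

namespace Pool.Agent.H329N

theorem Nonrep_adj {n : ℕ} (G : SimpleGraph (Fin n)) [DecidableRel G.Adj] (a b : Fin n)
    (h : G.Adj a b) : adj (mat G) (a : ℕ) (b : ℕ) = true := by
  unfold adj mat
  have h1 : (List.ofFn fun i : Fin n => List.ofFn fun j : Fin n => decide (G.Adj i j)).getD (a : ℕ) [] =
      List.ofFn fun j : Fin n => decide (G.Adj a j) := by
    rw [List.getD_eq_getElem _ _ (by simp)]
    simp
  rw [h1, List.getD_eq_getElem _ _ (by simp)]
  simpa using h

theorem Nonrep_cl {n K : ℕ} (x : Fin n → Fin K) (a : Fin n) : cl (toL x) (a : ℕ) = (x a : ℕ) := by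
  unfold cl toL
  rw [List.getD_eq_getElem _ _ (by simp)]
  simp

theorem Nonrep_chain {n : ℕ} (G : SimpleGraph (Fin n)) [DecidableRel G.Adj] (w : ℕ → Fin n) (i0 : ℕ)
    (h : ∀ i, i + 1 < i0 → G.Adj (w i) (w (i + 1))) :
    (((List.range i0).map (fun i => (w i : ℕ))).reverse).IsChain
      (fun p q => adj (mat G) q p = true) := by
  rw [List.isChain_reverse, List.isChain_iff_getElem]
  intro i hi
  simp only [List.length_map, List.length_range] at hi
  simpa using Nonrep_adj G _ _ (h i hi)

/-- TARGET -/
theorem Nonrep_proof : S_Nonrep := by
  intro n K G _ x hn hno t v ht hinj hadj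
  by_contra hcon
  push Not at hcon
  apply hno
  have hL : 1 ≤ n.size := by
    rw [Nat.one_le_iff_ne_zero]
    intro h0
    rw [Nat.size_eq_zero] at h0
    omega
  obtain ⟨i0, hi0⟩ : ∃ i0, i0 = min t n.size := ⟨_, rfl⟩
  have hi1 : 1 ≤ i0 := by omega
  have hit : i0 ≤ t := by omega
  have hiL : i0 ≤ n.size := by omega
  refine ⟨(((List.range i0).map (fun i => (v i : ℕ))).reverse,
    ((List.range i0).map (fun i => (v (t + i) : ℕ))).reverse), ?_, ?_⟩
  · rw [mem_flaws]
    refine ⟨by simp, by simpa using hi1, by simpa using hiL, ?_, ?_, ?_, ?_, ?_⟩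
    · intro u hu
      have hlen : (mat G).length = n := by simp [mat]
      rw [hlen]
      simp only [verts, List.mem_append, List.mem_reverse, List.mem_map] at hu
      rcases hu with ⟨a, _, rfl⟩ | ⟨a, _, rfl⟩
      · exact (v a).2
      · exact (v (t + a)).2
    · unfold verts
      simp only
      rw [List.nodup_append]
      refine ⟨?_, ?_, ?_⟩
      · rw [List.nodup_reverse]
        refine List.Nodup.map_on ?_ List.nodup_range
        intro a ha b hb hab
        rw [List.mem_range] at ha hb
        exact hinj a (by omega) b (by omega) (Fin.ext hab)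
      · rw [List.nodup_reverse]
        refine List.Nodup.map_on ?_ List.nodup_range
        intro a ha b hb hab
        rw [List.mem_range] at ha hb
        have := hinj (t + a) (by omega) (t + b) (by omega) (Fin.ext hab)
        omega
      · intro a ha b hb hab
        simp only [List.mem_reverse, List.mem_map, List.mem_range] at ha hb
        obtain ⟨i, hi, rfl⟩ := ha
        obtain ⟨j, hj, rfl⟩ := hb
        have := hinj i (by omega) (t + j) (by omega) (Fin.ext hab)
        omega
    · exact Nonrep_chain G v i0 (fun i hi => hadj i (by omega))
    · exact Nonrep_chain G (fun i => v (t + i)) i0 (fun i hi => by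
        have := hadj (t + i) (by omega)
        rwa [show t + (i + 1) = t + i + 1 by omega])
    · by_cases hc : i0 = n.size
      · left; simpa using hc
      · right
        have hitt : i0 = t := by omega
        refine ⟨(v (t - 1) : ℕ), (v t : ℕ), ?_, ?_, ?_⟩
        · simp only [List.head?_reverse]
          rw [List.getLast?_eq_getElem?]
          simp only [List.length_map, List.length_range, List.getElem?_map]
          rw [List.getElem?_range (by omega), hitt]
          rfl
        · simp only [List.getLast?_reverse]
          rw [List.head?_eq_getElem?]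
          simp only [List.getElem?_map]
          rw [List.getElem?_range (by omega)]
          rfl
        · apply Nonrep_adj
          have := hadj (t - 1) (by omega)
          rwa [show t - 1 + 1 = t by omega] at this
  · unfold violF Viol
    simp only [List.map_reverse, List.map_map]
    congr 1
    apply List.map_congr_left
    intro i hi
    rw [List.mem_range] at hi
    simp only [Function.comp]
    rw [Nonrep_cl, Nonrep_cl]
    exact hcon i (by omega)

end Pool.Agent.H329N
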