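import Pool.Agent.H329N.Base

/-!
# Num
-/

namespace Pool.Agent.H329N

/-- TARGET -/
theorem Num_proof : S_Num := by
  intro n hn
  have hn1 : (1 : ℝ) ≤ n := by exact_mod_cast hn
  have hn7 : (0 : ℝ) < (n : ℝ) ^ 7 := by positivity
  have hM : (1 : ℝ) ≤ ((256 * n ^ 7 : ℕ) : ℝ) := by
    have : 1 ≤ 256 * n ^ 7 := Nat.mul_pos (by norm_num) (Nat.pow_pos hn)
    exact_mod_cast this
  have hx : (1 / (128 * (n : ℝ) ^ 7)) / 2 = 1 / ((256 * n ^ 7 : ℕ) : ℝ) := by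
    push_cast
    field_simp
    norm_num
  rw [hx]
  have h1 : (1 - 1 / ((256 * n ^ 7 : ℕ) : ℝ)) ^ (256 * n ^ 7) ≤ 1 / 2 := by
    refine (Real.one_sub_div_pow_le_exp_neg hM).trans ?_
    have h2 := Real.exp_one_gt_d9
    rw [Real.exp_neg, inv_eq_one_div]
    apply one_div_le_one_div_of_le (by norm_num)
    linarith
  have h0 : 0 ≤ 1 - 1 / ((256 * n ^ 7 : ℕ) : ℝ) := by
    rw [sub_nonneg, div_le_one (by linarith)]
    exact hM
  have h3 : (1 - 1 / ((256 * n ^ 7 : ℕ) : ℝ)) ^ nR n ≤ (1 / 2 : ℝ) ^ (3 * n + 2) := by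
    unfold nR
    rw [pow_mul]
    exact pow_le_pow_left₀ (pow_nonneg h0 _) h1 _
  have h4 : (1 / 2 : ℝ) ^ nT n * 2 ^ n = (1 / 2) ^ (n + 1) := by
    unfold nT
    have e : 2 * n + 1 = n + (n + 1) := by ring
    rw [e, pow_add, mul_comm, ← mul_assoc, ← mul_pow]
    norm_num
  have h5 : (nT n : ℝ) * (2 ^ n * (1 - 1 / ((256 * n ^ 7 : ℕ) : ℝ)) ^ nR n) ≤ (1 / 2) ^ (n + 1) := by
    have h6 : (nT n : ℝ) ≤ 2 ^ (n + 1) := by
      have h7 : n < 2 ^ n := Nat.lt_two_pow_self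
      have h8 : nT n ≤ 2 ^ (n + 1) := by
        unfold nT
        rw [pow_succ]
        omega
      exact_mod_cast h8
    calc (nT n : ℝ) * (2 ^ n * (1 - 1 / ((256 * n ^ 7 : ℕ) : ℝ)) ^ nR n)
        ≤ 2 ^ (n + 1) * (2 ^ n * (1 / 2 : ℝ) ^ (3 * n + 2)) := by
          apply mul_le_mul h6 _ (mul_nonneg (by positivity) (pow_nonneg h0 _)) (by positivity)
          exact mul_le_mul_of_nonneg_left h3 (by positivity)
      _ = (1 / 2) ^ (n + 1) := by
          have e : 3 * n + 2 = (n + 1) + (n + (n + 1)) := by ring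
          rw [e, pow_add, pow_add]
          have e1 : (2 : ℝ) ^ (n + 1) * (1 / 2) ^ (n + 1) = 1 := by
            rw [← mul_pow]; norm_num
          have e2 : (2 : ℝ) ^ n * (1 / 2) ^ n = 1 := by
            rw [← mul_pow]; norm_num
          linear_combination ((2 : ℝ) ^ n * (1 / 2) ^ n * (1 / 2) ^ (n + 1)) * e1 +
            (1 / 2 : ℝ) ^ (n + 1) * e2
  have h9 : (1 / 2 : ℝ) ^ (n + 1) + (1 / 2) ^ (n + 1) ≤ 1 / n := by
    have h7 : n < 2 ^ n := Nat.lt_two_pow_self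
    have h8 : (n : ℝ) ≤ 2 ^ n := by exact_mod_cast h7.le
    have e : (1 / 2 : ℝ) ^ (n + 1) + (1 / 2) ^ (n + 1) = 1 / 2 ^ n := by
      rw [pow_succ, one_div_pow]
      ring
    rw [e]
    exact one_div_le_one_div_of_le (by linarith) h8
  rw [h4]
  linarith

end Pool.Agent.H329N
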