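import Pool.Agent.H329N.Spec

/-!
# PolyAlg
-/

namespace Pool.Agent.H329N

open Pool.Agent.NPC Pool.Agent.NPC.R671

namespace PolyAlgAux

variable {α β : Type} [TEnc α] [TEnc β]

omit [TEnc β] in
theorem take_eq (l : List β) (i k : ℕ) :
    ((l.zipIdx k).filter fun q => decide (q.2 < k + i)).map Prod.fst = l.take i := by
  induction l generalizing i k with
  | nil => simp
  | cons x l ih =>
      rw [List.zipIdx_cons]
      cases i with
      | zero =>
          rw [List.take_zero, List.map_eq_nil_iff, List.filter_eq_nil_iff]
          intro q hq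
          rw [decide_eq_true_iff]
          rcases List.mem_cons.1 hq with rfl | hq
          · simp
          · have := List.le_snd_of_mem_zipIdx hq
            omega
      | succ i =>
          rw [List.filter_cons, if_pos (by simp), List.map_cons, List.take_succ_cons, ← ih i (k + 1)]
          congr 3
          funext q
          congr 1
          rw [eq_iff_iff]
          omega

omit [TEnc β] in
theorem drop_eq (l : List β) (i k : ℕ) :
    ((l.zipIdx k).filter fun q => decide (k + i ≤ q.2)).map Prod.fst = l.drop i := by
  induction l generalizing i k with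
  | nil => simp
  | cons x l ih =>
      rw [List.zipIdx_cons]
      cases i with
      | zero =>
          rw [List.drop_zero, List.filter_eq_self.2]
          · rw [List.map_cons]
            congr 1
            have := ih 0 (k + 1)
            rw [List.drop_zero, List.filter_eq_self.2] at this
            · exact this
            · intro q hq
              have := List.le_snd_of_mem_zipIdx hq
              rw [decide_eq_true_iff]
              omega
          · intro q hq
            rw [decide_eq_true_iff]
            rcases List.mem_cons.1 hq with rfl | hq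
            · simp
            · have := List.le_snd_of_mem_zipIdx hq
              omega
      | succ i =>
          rw [List.filter_cons, if_neg (by simp), List.drop_succ_cons, ← ih i (k + 1)]
          congr 2
          funext q
          congr 1
          rw [eq_iff_iff]
          omega

theorem poly_take {l : α → List β} {n : α → ℕ} (hl : Poly l) (hn : Poly n) :
    Poly (fun a => (l a).take (n a)) := by
  refine (NPC.Poly.map (F := fun _ (q : β × ℕ) => q.1) (NPC.Poly.filter
    (p := fun a (q : β × ℕ) => decide (q.2 < n a)) (NPC.Poly.zipIdx hl)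
    (NPC.Poly.decide_lt (NPC.Poly.snd (NPC.Poly.snd NPC.Poly.id)) (hn.comp (NPC.Poly.fst NPC.Poly.id))))
    (NPC.Poly.fst (NPC.Poly.snd NPC.Poly.id))).congr fun a => ?_
  have := take_eq (l a) (n a) 0
  simp only [Nat.zero_add] at this
  exact this

theorem poly_drop {l : α → List β} {n : α → ℕ} (hl : Poly l) (hn : Poly n) :
    Poly (fun a => (l a).drop (n a)) := by
  refine (NPC.Poly.map (F := fun _ (q : β × ℕ) => q.1) (NPC.Poly.filter
    (p := fun a (q : β × ℕ) => decide (n a ≤ q.2)) (NPC.Poly.zipIdx hl)
    (NPC.Poly.decide_le (hn.comp (NPC.Poly.fst NPC.Poly.id)) (NPC.Poly.snd (NPC.Poly.snd NPC.Poly.id))))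
    (NPC.Poly.fst (NPC.Poly.snd NPC.Poly.id))).congr fun a => ?_
  have := drop_eq (l a) (n a) 0
  simp only [Nat.zero_add] at this
  exact this

attribute [local fun_prop] poly_take poly_drop

theorem upow {n : α → ℕ} (hn : UPoly n) (k : ℕ) : UPoly (fun a => n a ^ k) := by
  induction k with
  | zero => simpa using UPoly.const 1
  | succ k ih => simpa only [pow_succ] using UPoly.mul ih hn

theorem usize {n : α → ℕ} (hn : Poly n) : UPoly (fun a => (n a).size) := by
  have h : UPoly (fun a => (n a).bits.length) := UPoly.length (NPC.Poly.natBits hn)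
  have e : (fun a => (n a).size) = fun a => (n a).bits.length := by
    funext a
    rw [Nat.size_eq_bits_len]
  rw [e]
  exact h

theorem uwd {n : α → ℕ} (hn : UPoly n) : UPoly (fun a => wd (n a)) :=
  ((UPoly.const 2).mul hn).add (UPoly.const 8)

theorem unT {n : α → ℕ} (hn : UPoly n) : UPoly (fun a => nT (n a)) :=
  ((UPoly.const 2).mul hn).add (UPoly.const 1)

theorem unR {n : α → ℕ} (hn : UPoly n) : UPoly (fun a => nR (n a)) :=
  ((UPoly.const 256).mul (upow hn 7)).mul (((UPoly.const 3).mul hn).add (UPoly.const 2))

theorem ukb {n : α → ℕ} (hn : Poly n) : UPoly (fun a => kb (n a)) :=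
  usize (NPC.Poly.mul (NPC.Poly.const 2) (usize hn).toPoly)

theorem umxd {A : α → List (List Bool)} (hA : Poly A) : UPoly (fun a => mxd (A a)) := by
  have hr : Poly (fun a => List.range (A a).length) := (UPoly.length hA).range
  refine UPoly.length (l := fun a => (List.range (A a).length).filter (fun d =>
    (A a).any (fun row => decide (d < (row.filter (fun b => b)).length)))) ?_
  fun_prop

theorem uka {A : α → List (List Bool)} (hA : Poly A) : UPoly (fun a => ka (A a)) :=
  usize (NPC.Poly.mul (NPC.Poly.const 128) (NPC.Poly.mul (umxd hA).toPoly (umxd hA).toPoly))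

theorem prd {r : α → List Bool} {w i l : α → ℕ} (hr : Poly r) (hw : Poly w) (hi : Poly i)
    (hl : Poly l) : Poly (fun a => rd (r a) (w a) (i a) (l a)) := by
  refine (NPC.Poly.valBits (poly_take (poly_drop hr (NPC.Poly.mul hw hi)) hl)).congr fun a => ?_
  rw [rd, bval_eq]

theorem pblk {r : α → List Bool} {w n l q : α → ℕ} (hr : Poly r) (hw : Poly w) (hn : UPoly n)
    (hl : Poly l) (hq : Poly q) : Poly (fun a => blk (r a) (w a) (n a) (l a) (q a)) := by
  refine NPC.Poly.map (F := fun a v => rd (r a) (w a) (q a * n a + v) (l a)) hn.range ?_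
  have hf : Poly (fun p : α × ℕ => p.1) := NPC.Poly.fst NPC.Poly.id
  exact prd (hr.comp hf) (hw.comp hf)
    (NPC.Poly.add (NPC.Poly.mul (hq.comp hf) (hn.toPoly.comp hf)) (NPC.Poly.snd NPC.Poly.id)) (hl.comp hf)

theorem pround (h1 : S_PolyGreedy) {A : α → List (List Bool)} {col new : α → List ℕ}
    {gs : α → List (List ℕ)} (hA : Poly A) (hc : Poly col) (hn : Poly new) (hg : Poly gs) :
    Poly (fun a => round (A a) (A a).length.size (col a) (new a) (gs a)) := by
  have h2 : Poly (fun a => greedy (A a) (A a).length.size (col a) (gs a)) :=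
    NPC.Poly.comp (f := fun a => ((A a, col a), gs a)) h1 (NPC.Poly.pair (NPC.Poly.pair hA hc) hg)
  have h3 : Poly (fun a => (greedy (A a) (A a).length.size (col a) (gs a)).flatMap verts) := by
    refine NPC.Poly.flatMap (F := fun _ F => verts F) h2 ?_
    exact NPC.Poly.append (NPC.Poly.fst (NPC.Poly.snd NPC.Poly.id)) (NPC.Poly.snd (NPC.Poly.snd NPC.Poly.id))
  have hf : Poly (fun p : α × ℕ => p.1) := NPC.Poly.fst NPC.Poly.id
  have hs : Poly (fun p : α × ℕ => p.2) := NPC.Poly.snd NPC.Poly.id
  refine NPC.Poly.map (F := fun a v =>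
    if decide (v ∈ (greedy (A a) (A a).length.size (col a) (gs a)).flatMap verts) = true then
      cl (new a) v else cl (col a) v) (UPoly.length hA).range ?_
  refine NPC.Poly.ite (NPC.Poly.decide_bool (NPC.Poly.decide_mem hs (h3.comp hf))) ?_ ?_
  · exact NPC.Poly.getD (hn.comp hf) hs (NPC.Poly.const 0)
  · exact NPC.Poly.getD (hc.comp hf) hs (NPC.Poly.const 0)

/-- the lists of `n` numbers with at most `m` digits -/
def Good (n m : ℕ) (l : List ℕ) : Prop := l.length = n ∧ ∀ x ∈ l, x.size ≤ m

theorem good_cl {n m : ℕ} {l : List ℕ} (h : Good n m l) (v : ℕ) : (cl l v).size ≤ m := by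
  unfold cl
  rw [List.getD_eq_getElem?_getD]
  cases h1 : l[v]? with
  | none => simp
  | some x =>
    rw [Option.getD_some]
    exact h.2 x (List.mem_of_getElem? h1)

theorem good_blk (r : List Bool) (w n l q : ℕ) : Good n r.length (blk r w n l q) := by
  refine ⟨by simp [blk], fun x hx => ?_⟩
  unfold blk at hx
  rw [List.mem_map] at hx
  obtain ⟨v, -, rfl⟩ := hx
  rw [Nat.size_le]
  refine lt_of_lt_of_le (bval_lt _) (Nat.pow_le_pow_right (by norm_num) ?_)
  rw [List.length_take, List.length_drop]
  omega

theorem good_round {A : List (List Bool)} {L m n' : ℕ} {col new : List ℕ} {gs : List (List ℕ)}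
    (hc : Good n' m col) {n'' : ℕ} (hn : Good n'' m new) : Good A.length m (round A L col new gs) := by
  refine ⟨by simp [round], fun x hx => ?_⟩
  unfold round at hx
  rw [List.mem_map] at hx
  obtain ⟨v, -, rfl⟩ := hx
  split_ifs
  · exact good_cl hn v
  · exact good_cl hc v

theorem good_sz {n m : ℕ} {l : List ℕ} (h : Good n m l) : sz l ≤ n * (4 * m + 2) + 1 := by
  have h1 := sz_le_length_mul l (4 * m + 1) (fun a ha => by
    have h2 := sz_nat_le a
    have h3 := h.2 a ha
    omega)
  rw [h.1] at h1
  exact h1

end PolyAlgAux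

open PolyAlgAux in
/-- TARGET -/
theorem PolyAlg_proof (h1 : S_PolyGreedy) : S_PolyAlg := by
  have hA : Poly (fun p : List (List Bool) × List Bool => p.1) := NPC.Poly.fst NPC.Poly.id
  have hr : Poly (fun p : List (List Bool) × List Bool => p.2) := NPC.Poly.snd NPC.Poly.id
  have hn : UPoly (fun p : List (List Bool) × List Bool => p.1.length) := UPoly.length hA
  have hR : Poly (fun p : List (List Bool) × List Bool => nR p.1.length + 1) :=
    NPC.Poly.succ (unR hn).toPoly
  have hs : Poly (fun p : List (List Bool) × List Bool =>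
      blk p.2 (wd p.1.length) p.1.length (ka p.1) (nT p.1.length * (nR p.1.length + 1))) :=
    pblk hr (uwd hn).toPoly hn (uka hA).toPoly (NPC.Poly.mul (unT hn).toPoly hR)
  unfold S_PolyAlg alg
  refine NPC.Poly.foldl (l := fun p : List (List Bool) × List Bool => List.range (nT p.1.length))
    (s := fun p => blk p.2 (wd p.1.length) p.1.length (ka p.1) (nT p.1.length * (nR p.1.length + 1)))
    (F := fun p col t => round p.1 p.1.length.size col
      (blk p.2 (wd p.1.length) p.1.length (ka p.1) (t * (nR p.1.length + 1)))
      ((List.range (nR p.1.length)).map (fun j =>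
        blk p.2 (wd p.1.length) p.1.length (kb p.1.length) (t * (nR p.1.length + 1) + (j + 1)))))
    (unT hn).range hs ?_
    (Polynomial.X * (Polynomial.C 4 * Polynomial.X + Polynomial.C 2) + Polynomial.C 1) ?_
  · have hf : Poly (fun x : (List (List Bool) × List Bool) × List ℕ × ℕ => x.1) := NPC.Poly.fst NPC.Poly.id
    have ht : Poly (fun x : (List (List Bool) × List Bool) × List ℕ × ℕ => x.2.2) :=
      NPC.Poly.snd (NPC.Poly.snd NPC.Poly.id)
    refine pround h1 (hA.comp hf) (NPC.Poly.fst (NPC.Poly.snd NPC.Poly.id)) ?_ ?_
    · exact pblk (hr.comp hf) ((uwd hn).toPoly.comp hf) (hn.comp hf) ((uka hA).toPoly.comp hf)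
        (NPC.Poly.mul ht (hR.comp hf))
    · have hf' : Poly (fun x : ((List (List Bool) × List Bool) × List ℕ × ℕ) × ℕ => x.1.1) :=
        NPC.Poly.fst (NPC.Poly.fst NPC.Poly.id)
      refine NPC.Poly.map (F := fun (x : (List (List Bool) × List Bool) × List ℕ × ℕ) j =>
        blk x.1.2 (wd x.1.1.length) x.1.1.length (kb x.1.1.length)
          (x.2.2 * (nR x.1.1.length + 1) + (j + 1))) ((unR hn).comp hf).range ?_
      exact pblk (hr.comp hf') ((uwd hn).toPoly.comp hf') (hn.comp hf')
        ((ukb hn.toPoly).toPoly.comp hf')
        (NPC.Poly.add (NPC.Poly.mul (ht.comp (NPC.Poly.fst NPC.Poly.id)) (hR.comp hf')) (NPC.Poly.succ (NPC.Poly.snd NPC.Poly.id)))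
  · rintro ⟨A, r⟩ k hk
    have key : ∀ l : List ℕ, Good A.length r.length (l.foldl (fun col t => round A A.length.size col
      (blk r (wd A.length) A.length (ka A) (t * (nR A.length + 1)))
      ((List.range (nR A.length)).map (fun j =>
        blk r (wd A.length) A.length (kb A.length) (t * (nR A.length + 1) + (j + 1)))))
      (blk r (wd A.length) A.length (ka A) (nT A.length * (nR A.length + 1)))) := by
      intro l
      induction l using List.reverseRecOn with
      | nil => exact good_blk _ _ _ _ _
      | append_singleton l t ih =>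
        rw [List.foldl_append]
        exact good_round ih (good_blk _ _ _ _ _)
    have h2 := good_sz (key ((List.range (nT A.length)).take k))
    refine h2.trans ?_
    have h3 := length_lt_sz A
    have h4 := length_lt_sz r
    have h5 : sz (A, r) = sz A + sz r + 1 := by simp
    simp only [Polynomial.eval_add, Polynomial.eval_mul, Polynomial.eval_X, Polynomial.eval_C]
    gcongr <;> omega

end Pool.Agent.H329N
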