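import Pool.Agent.H329N.Spec

/-!
# PolyFind
-/

namespace Pool.Agent.H329N

open Pool.Agent.NPC Pool.Agent.NPC.R671

namespace PolyFindAux

variable {α κ : Type} [TEnc α] [TEnc κ]

theorem p_rangeLen {A : α → List (List Bool)} (hA : Poly A) :
    Poly (fun a => List.range (A a).length) := Poly.range_length hA

theorem p_adj {A : α → List (List Bool)} {u v : α → ℕ} (hA : Poly A) (hu : Poly u) (hv : Poly v) :
    Poly (fun a => adj (A a) (u a) (v a)) := by
  unfold adj
  fun_prop

theorem p_cl {l : α → List ℕ} {v : α → ℕ} (hl : Poly l) (hv : Poly v) :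
    Poly (fun a => cl (l a) (v a)) := by
  unfold cl
  fun_prop

theorem p_verts {F : α → Fl} (hF : Poly F) : Poly (fun a => verts (F a)) := by
  unfold verts
  fun_prop

attribute [local fun_prop] p_adj p_cl p_verts

theorem p_okp {A : α → List (List Bool)} {col U g : α → List ℕ} {F : α → Fl} {x y : α → ℕ}
    (hA : Poly A) (hcol : Poly col) (hU : Poly U) (hg : Poly g) (hF : Poly F) (hx : Poly x)
    (hy : Poly y) : Poly (fun a => okp (A a) (col a) (U a) (g a) (F a) (x a) (y a)) := by
  unfold okp
  fun_prop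

attribute [local fun_prop] p_okp

theorem p_ext {A : α → List (List Bool)} {col U g : α → List ℕ} {F : α → Fl}
    (hA : Poly A) (hcol : Poly col) (hU : Poly U) (hg : Poly g) (hF : Poly F) :
    Poly (fun a => ext (A a) (col a) (U a) (g a) (F a)) := by
  unfold ext
  refine Poly.flatMap (F := fun a x => (List.range (A a).length).flatMap fun y =>
    if okp (A a) (col a) (U a) (g a) (F a) x y = true then [(x :: (F a).1, y :: (F a).2)] else [])
    (p_rangeLen hA) ?_
  refine Poly.flatMap (F := fun (p : α × ℕ) y =>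
    if okp (A p.1) (col p.1) (U p.1) (g p.1) (F p.1) p.2 y = true then
      [(p.2 :: (F p.1).1, y :: (F p.1).2)] else [])
    (p_rangeLen (hA.comp (Poly.fst Poly.id))) ?_
  fun_prop

theorem p_key {L : α → ℕ} {g : α → List ℕ} {F : α → Fl} (hL : UPoly L) (hg : Poly g)
    (hF : Poly F) : Poly (fun a => keyOf (L a) (g a) (F a)) := by
  unfold keyOf
  have h1 : Poly (fun a => List.range (4 * L a)) := (UPoly.mul (UPoly.const 4) hL).range
  have h2 : Poly (fun a => (List.range (4 * L a)).map (fun c =>
      (verts (F a)).any (fun v => decide (cl (g a) v = c)))) := by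
    refine NPC.Poly.map (F := fun a c => (verts (F a)).any (fun v => decide (cl (g a) v = c))) h1 ?_
    fun_prop
  fun_prop

theorem p_dd [DecidableEq κ] {k : α → Fl → κ} {l : α → List Fl}
    (hk : Poly (fun p : α × Fl => k p.1 p.2)) (hl : Poly l) : Poly (fun a => dd (k a) (l a)) := by
  unfold dd
  have h2 : Poly (fun a => (l a).zipIdx) := Poly.zipIdx hl
  have h3 : Poly (fun a => (l a).zipIdx.filter (fun p => !((l a).zipIdx.any (fun q =>
      decide (q.2 < p.2) && decide (k a q.1 = k a p.1))))) := by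
    refine Poly.filter (p := fun a (p : Fl × ℕ) => !((l a).zipIdx.any (fun q =>
      decide (q.2 < p.2) && decide (k a q.1 = k a p.1)))) h2 ?_
    refine Poly.not ?_
    refine Poly.any (l := fun p : α × (Fl × ℕ) => (l p.1).zipIdx)
      (p := fun (p : α × (Fl × ℕ)) (q : Fl × ℕ) =>
        decide (q.2 < p.2.2) && decide (k p.1 q.1 = k p.1 p.2.1))
      (h2.comp (Poly.fst Poly.id)) ?_
    refine Poly.and ?_ ?_
    · exact Poly.decide_lt (Poly.snd (Poly.snd Poly.id)) (Poly.snd (Poly.snd (Poly.fst Poly.id)))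
    · refine Poly.dec_eq ?_ ?_
      · exact hk.comp (Poly.pair (Poly.fst (Poly.fst Poly.id)) (Poly.fst (Poly.snd Poly.id)))
      · exact hk.comp (Poly.pair (Poly.fst (Poly.fst Poly.id))
          (Poly.fst (Poly.snd (Poly.fst Poly.id))))
  exact NPC.Poly.map (F := fun _ (p : Fl × ℕ) => p.1) h3 (Poly.fst (Poly.snd Poly.id))

theorem p_lstep {A : α → List (List Bool)} {L : α → ℕ} {col U g : α → List ℕ}
    {l : α → List Fl} (hA : Poly A) (hL : UPoly L) (hcol : Poly col) (hU : Poly U) (hg : Poly g)
    (hl : Poly l) : Poly (fun a => lstep (A a) (L a) (col a) (U a) (g a) (l a)) := by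
  unfold lstep
  refine p_dd (k := fun a => keyOf (L a) (g a)) ?_ ?_
  · exact p_key (hL.comp (Poly.fst Poly.id)) (hg.comp (Poly.fst Poly.id)) (Poly.snd Poly.id)
  · refine Poly.flatMap (F := fun a F => ext (A a) (col a) (U a) (g a) F) hl ?_
    exact p_ext (hA.comp (Poly.fst Poly.id)) (hcol.comp (Poly.fst Poly.id))
      (hU.comp (Poly.fst Poly.id)) (hg.comp (Poly.fst Poly.id)) (Poly.snd Poly.id)

theorem p_closed {A : α → List (List Bool)} {L : α → ℕ} {F : α → Fl}
    (hA : Poly A) (hL : Poly L) (hF : Poly F) : Poly (fun a => closed (A a) (L a) (F a)) := by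
  unfold closed
  fun_prop

theorem pow_size (n : ℕ) : 2 ^ (4 * n.size) ≤ 16 * n ^ 4 + 1 := by
  rcases Nat.eq_zero_or_pos n with h | h
  · subst h; simp
  · have h1 : 2 ^ (n.size - 1) ≤ n := by
      by_contra hc
      have h2 : n.size ≤ n.size - 1 := Nat.size_le.2 (not_le.1 hc)
      have h3 : 0 < n.size := Nat.size_pos.2 h
      omega
    have h3 : 0 < n.size := Nat.size_pos.2 h
    have h4 : 2 ^ n.size ≤ 2 * n := by
      calc 2 ^ n.size = 2 * 2 ^ (n.size - 1) := by
            rw [← pow_succ']
            congr 1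
            omega
        _ ≤ 2 * n := by omega
    calc 2 ^ (4 * n.size) = (2 ^ n.size) ^ 4 := by rw [← pow_mul, mul_comm]
      _ ≤ (2 * n) ^ 4 := Nat.pow_le_pow_left h4 4
      _ = 16 * n ^ 4 := by ring
      _ ≤ _ := Nat.le_succ _

/-- the state of the search after `k` steps -/
def st (A : List (List Bool)) (L : ℕ) (col U g : List ℕ) (s : List Fl × List Fl) :
    List Fl × List Fl :=
  (lstep A L col U g s.1, s.2 ++ (lstep A L col U g s.1).filter (closed A L))

theorem st_iter (A : List (List Bool)) (L : ℕ) (col U g : List ℕ) (k : ℕ) :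
    (st A L col U g)^[k] ([([], [])], []) = (lay A L col U g k,
      (List.range k).flatMap (fun i => (lay A L col U g (i + 1)).filter (closed A L))) := by
  induction k with
  | zero => rfl
  | succ k ih =>
    rw [Function.iterate_succ_apply', ih, st, List.range_succ, List.flatMap_append]
    have h : lstep A L col U g (lay A L col U g k) = lay A L col U g (k + 1) := by
      unfold lay
      rw [Function.iterate_succ_apply']
    simp only [h, List.flatMap_cons, List.flatMap_nil, List.append_nil]

theorem p_st {A : α → List (List Bool)} {L : α → ℕ} {col U g : α → List ℕ}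
    {s : α → List Fl × List Fl} (hA : Poly A) (hL : UPoly L) (hcol : Poly col) (hU : Poly U)
    (hg : Poly g) (hs : Poly s) : Poly (fun a => st (A a) (L a) (col a) (U a) (g a) (s a)) := by
  unfold st
  have h1 := p_lstep hA hL hcol hU hg (Poly.fst hs)
  refine Poly.pair h1 (Poly.append (Poly.snd hs) ?_)
  refine Poly.filter (p := fun a F => closed (A a) (L a) F) h1 ?_
  exact p_closed (hA.comp (Poly.fst Poly.id)) (hL.toPoly.comp (Poly.fst Poly.id))
    (Poly.snd Poly.id)

theorem sz_list_nat (l : List ℕ) (n : ℕ) (h : ∀ v ∈ l, v < n) :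
    sz l ≤ l.length * (4 * n + 2) + 1 := by
  refine (sz_le_length_mul l (4 * n + 1) fun v hv => ?_)
  have h1 := sz_nat_le v
  have h2 := NPC.Poly.size_le_self v
  have h3 := h v hv
  omega

theorem sz_fl (F : Fl) (n : ℕ) (h1 : F.1.length ≤ n) (h2 : F.2.length ≤ n)
    (h : ∀ v ∈ verts F, v < n) : sz F ≤ 2 * (n * (4 * n + 2) + 1) + 1 := by
  have e : sz F = sz F.1 + sz F.2 + 1 := sz_pair F.1 F.2
  have e1 := sz_list_nat F.1 n fun v hv => h v (by simp [verts, hv])
  have e2 := sz_list_nat F.2 n fun v hv => h v (by simp [verts, hv])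
  have e3 := Nat.mul_le_mul_right (4 * n + 2) h1
  have e4 := Nat.mul_le_mul_right (4 * n + 2) h2
  omega

theorem len_flatMap_le (k M : ℕ) (f : ℕ → List Fl) (h : ∀ i < k, (f i).length ≤ M) :
    ((List.range k).flatMap f).length ≤ k * M := by
  induction k with
  | zero => simp
  | succ k ih =>
    rw [List.range_succ, List.flatMap_append, List.length_append]
    have h1 := ih fun i hi => h i (by omega)
    have h2 := h k (by omega)
    simp only [List.flatMap_cons, List.flatMap_nil, List.append_nil]
    rw [add_mul]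
    omega

theorem sz_st (h1 : S_LaySize) (A : List (List Bool)) (col U g : List ℕ) (k N : ℕ)
    (hk : k ≤ A.length.size) (hN : A.length ≤ N) :
    sz (lay A A.length.size col U g k,
      (List.range k).flatMap (fun i => (lay A A.length.size col U g (i + 1)).filter
        (closed A A.length.size))) ≤
      (((N + 1) ^ 3 * (16 * N ^ 4 + 1)) * ((2 * (N * (4 * N + 2) + 1) + 1) + 1) + 1) +
        (N * ((N + 1) ^ 3 * (16 * N ^ 4 + 1)) * ((2 * (N * (4 * N + 2) + 1) + 1) + 1) + 1) + 1 := by
  have hs : A.length.size ≤ N := (NPC.Poly.size_le_self _).trans hN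
  have hM : ∀ i, (lay A A.length.size col U g i).length ≤ (N + 1) ^ 3 * (16 * N ^ 4 + 1) := by
    intro i
    refine ((h1 A A.length.size col U g i).1).trans (Nat.mul_le_mul ?_ ?_)
    · exact Nat.pow_le_pow_left (by omega) 3
    · refine (pow_size _).trans ?_
      have := Nat.pow_le_pow_left hN 4
      omega
  have hB : ∀ i ≤ N, ∀ F ∈ lay A A.length.size col U g i,
      sz F ≤ 2 * (N * (4 * N + 2) + 1) + 1 := by
    intro i hi F hF
    obtain ⟨e1, e2, e3⟩ := (h1 A A.length.size col U g i).2 F hF
    exact sz_fl F N (by omega) (by omega) fun v hv => lt_of_lt_of_le (e3 v hv) hN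
  rw [sz_pair]
  have a1 := sz_le_length_mul (lay A A.length.size col U g k) _ (hB k (by omega))
  have a2 := sz_le_length_mul ((List.range k).flatMap (fun i =>
    (lay A A.length.size col U g (i + 1)).filter (closed A A.length.size)))
    (2 * (N * (4 * N + 2) + 1) + 1) (by
      intro F hF
      obtain ⟨i, hi, hF⟩ := List.mem_flatMap.1 hF
      rw [List.mem_range] at hi
      exact hB (i + 1) (by omega) F (List.mem_filter.1 hF).1)
  have a3 := len_flatMap_le k ((N + 1) ^ 3 * (16 * N ^ 4 + 1)) (fun i =>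
    (lay A A.length.size col U g (i + 1)).filter (closed A A.length.size))
    fun i _ => (List.length_filter_le _ _).trans (hM _)
  have a4 : k * ((N + 1) ^ 3 * (16 * N ^ 4 + 1)) ≤ N * ((N + 1) ^ 3 * (16 * N ^ 4 + 1)) :=
    Nat.mul_le_mul_right _ (by omega)
  have a5 := Nat.mul_le_mul_right ((2 * (N * (4 * N + 2) + 1) + 1) + 1) (hM k)
  have a6 := Nat.mul_le_mul_right ((2 * (N * (4 * N + 2) + 1) + 1) + 1) (a3.trans a4)
  omega

end PolyFindAux

open PolyFindAux in
/-- TARGET -/
theorem PolyFind_proof (h1 : S_LaySize) : S_PolyFind := by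
  have hA : Poly (fun p : (List (List Bool) × List ℕ) × (List ℕ × List ℕ) => p.1.1) := by fun_prop
  have hL : UPoly (fun p : (List (List Bool) × List ℕ) × (List ℕ × List ℕ) =>
      p.1.1.length.size) := by
    refine UPoly.of_le ?_ (UPoly.length hA) fun a => NPC.Poly.size_le_self _
    exact (Poly.length (Poly.natBits (Poly.length hA))).congr fun a => by
      rw [Nat.size_eq_bits_len]
  have hr := hL.range
  have hstep : Poly (fun q : ((List (List Bool) × List ℕ) × (List ℕ × List ℕ)) ×
      (List Fl × List Fl) => st q.1.1.1 q.1.1.1.length.size q.1.1.2 q.1.2.1 q.1.2.2 q.2) :=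
    p_st (hA.comp (Poly.fst Poly.id)) (hL.comp (Poly.fst Poly.id)) (by fun_prop) (by fun_prop)
      (by fun_prop) (by fun_prop)
  have h2 := NPC.Poly.iterLen (α := (List (List Bool) × List ℕ) × (List ℕ × List ℕ))
    (l := fun p => List.range p.1.1.length.size) (s := fun _ => (([([], [])], []) : List Fl × List Fl))
    (F := fun p s => st p.1.1 p.1.1.length.size p.1.2 p.2.1 p.2.2 s) hr (NPC.Poly.const _) hstep
    ((((Polynomial.X + 1) ^ 3 * (16 * Polynomial.X ^ 4 + 1)) *
      ((2 * (Polynomial.X * (4 * Polynomial.X + 2) + 1) + 1) + 1) + 1) +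
        (Polynomial.X * ((Polynomial.X + 1) ^ 3 * (16 * Polynomial.X ^ 4 + 1)) *
          ((2 * (Polynomial.X * (4 * Polynomial.X + 2) + 1) + 1) + 1) + 1) + 1) (by
      rintro ⟨⟨A, col⟩, U, g⟩ k hk
      rw [List.length_range] at hk
      rw [st_iter]
      refine (sz_st h1 A col U g k (sz ((A, col), (U, g))) hk ?_).trans (le_of_eq ?_)
      · have := length_lt_sz A
        simp only [sz_pair]
        omega
      · simp)
  refine (Poly.head? (Poly.snd h2)).congr ?_
  rintro ⟨⟨A, col⟩, U, g⟩
  simp only [List.length_range]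
  rw [st_iter]
  rfl

end Pool.Agent.H329N
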