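import Pool.Agent.H329N.Spec

/-!
# PolyGreedy
-/

namespace Pool.Agent.H329N

open Pool.Agent.NPC Pool.Agent.NPC.R671

theorem PolyGreedyAux_nat {v n : ℕ} (h : v < n) : sz v ≤ 4 * n + 1 := by
  have h1 := sz_nat_le v
  have h2 := NPC.Poly.size_le_self v
  omega

theorem PolyGreedyAux_list {l : List ℕ} {n : ℕ} (hl : l.length ≤ n) (h : ∀ v ∈ l, v < n) :
    sz l ≤ n * (4 * n + 2) + 1 := by
  have h1 := sz_le_length_mul l (4 * n + 1) (fun v hv => PolyGreedyAux_nat (h v hv))
  have h2 : l.length * (4 * n + 1 + 1) ≤ n * (4 * n + 1 + 1) := Nat.mul_le_mul_right _ hl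
  have h3 : n * (4 * n + 1 + 1) = n * (4 * n + 2) := rfl
  omega

theorem PolyGreedyAux_flaw {A : List (List Bool)} {L : ℕ} {F : Fl} (hL : L ≤ A.length)
    (hF : IsFlaw A L F) : sz F ≤ 2 * (A.length * (4 * A.length + 2) + 1) + 1 := by
  obtain ⟨F1, F2⟩ := F
  have h1 := PolyGreedyAux_list (l := F1) (n := A.length) (hF.le.trans hL)
    (fun v hv => hF.lt v (by simp [verts, hv]))
  have h2 := PolyGreedyAux_list (l := F2) (n := A.length)
    ((hF.len.le.trans hF.le).trans hL) (fun v hv => hF.lt v (by simp [verts, hv]))
  simp only [sz_pair]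
  omega

theorem PolyGreedyAux_inv (h2 : S_FindSound) (A : List (List Bool)) (L : ℕ) (col : List ℕ) :
    ∀ (gs : List (List ℕ)) (I : List Fl), (∀ F ∈ I, IsFlaw A L F) →
      (∀ F ∈ gs.foldl (gstp (fun I g => find A L col (I.flatMap verts) g)) I, IsFlaw A L F) ∧
      (gs.foldl (gstp (fun I g => find A L col (I.flatMap verts) g)) I).length ≤
        I.length + gs.length := by
  intro gs
  induction gs with
  | nil => intro I hI; exact ⟨hI, by simp⟩
  | cons g gs ih =>
    intro I hI
    rw [List.foldl_cons]
    have key : (∀ F ∈ gstp (fun I g => find A L col (I.flatMap verts) g) I g, IsFlaw A L F) ∧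
        (gstp (fun I g => find A L col (I.flatMap verts) g) I g).length ≤ I.length + 1 := by
      have e : gstp (fun I g => find A L col (I.flatMap verts) g) I g =
          (find A L col (I.flatMap verts) g).elim I (fun i => i :: I) := rfl
      rw [e]
      cases hf : find A L col (I.flatMap verts) g with
      | none => exact ⟨hI, Nat.le_succ _⟩
      | some F =>
        refine ⟨fun F' hF' => ?_, le_refl _⟩
        have hF'' : F' ∈ F :: I := hF'
        rcases List.mem_cons.1 hF'' with h | h
        · rw [h]; exact (h2 _ _ _ _ _ _ hf).1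
        · exact hI F' h
    obtain ⟨k1, k2⟩ := ih _ key.1
    refine ⟨k1, k2.trans ?_⟩
    rw [List.length_cons]
    have := key.2
    omega

/-- TARGET -/
theorem PolyGreedy_proof (h1 : S_PolyFind) (h2 : S_FindSound) : S_PolyGreedy := by
  unfold S_PolyGreedy greedy
  unfold S_PolyFind at h1
  refine Poly.foldl (α := (List (List Bool) × List ℕ) × List (List ℕ)) (β := List ℕ)
    (σ := List Fl) (l := fun p => p.2) (s := fun _ => [])
    (F := fun p => gstp (fun I g => find p.1.1 p.1.1.length.size p.1.2 (I.flatMap verts) g))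
    (NPC.Poly.snd NPC.Poly.id) (NPC.Poly.const _) ?_
    (Polynomial.X * (2 * (Polynomial.X * (4 * Polynomial.X + 2) + 1) + 1 + 1) + 1) ?_
  · unfold gstp
    have hv : Poly (fun I : List Fl => I.flatMap verts) := by
      unfold verts
      fun_prop
    have h3 : Poly (fun p : ((List (List Bool) × List ℕ) × List (List ℕ)) × List Fl × List ℕ =>
        find p.1.1.1 p.1.1.1.length.size p.1.1.2 (p.2.1.flatMap verts) p.2.2) := by
      have h4 : Poly (fun p : ((List (List Bool) × List ℕ) × List (List ℕ)) × List Fl × List ℕ =>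
          ((p.1.1.1, p.1.1.2), (p.2.1.flatMap verts, p.2.2))) := by
        refine Poly.pair (Poly.pair (by fun_prop) (by fun_prop)) (Poly.pair ?_ (by fun_prop))
        exact hv.comp (by fun_prop)
      have h5 := NPC.Poly.comp h1 h4
      dsimp only at h5
      exact h5
    refine Poly.optElim h3 (by fun_prop) (by fun_prop)
  · rintro ⟨⟨A, col⟩, gs⟩ k hk
    obtain ⟨k1, k2⟩ := PolyGreedyAux_inv h2 A A.length.size col (gs.take k) [] (by simp)
    have hL : A.length.size ≤ A.length := NPC.Poly.size_le_self _
    set J := (gs.take k).foldl (gstp (fun I g => find A A.length.size col (I.flatMap verts) g)) []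
    have h3 := sz_le_length_mul J (2 * (A.length * (4 * A.length + 2) + 1) + 1)
      (fun F hF => PolyGreedyAux_flaw hL (k1 F hF))
    have h4 : J.length ≤ gs.length := by
      have : (gs.take k).length ≤ gs.length := by simp
      simp only [List.length_nil] at k2
      omega
    have h5 : A.length < sz A := length_lt_sz A
    have h6 : gs.length < sz gs := length_lt_sz gs
    set N := sz (((A, col), gs) : (List (List Bool) × List ℕ) × List (List ℕ)) with hN
    have h7 : N = sz A + sz col + 1 + sz gs + 1 := by rw [hN]; simp only [sz_pair]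
    have h8 : A.length ≤ N := by omega
    have h9 : J.length ≤ N := by omega
    simp only [Polynomial.eval_add, Polynomial.eval_mul, Polynomial.eval_X, Polynomial.eval_ofNat,
      Polynomial.eval_one]
    refine h3.trans ?_
    have h10 : A.length * (4 * A.length + 2) ≤ N * (4 * N + 2) :=
      Nat.mul_le_mul h8 (by omega)
    exact Nat.add_le_add_right (Nat.mul_le_mul h9 (by omega)) 1

end Pool.Agent.H329N
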