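import Pool.Agent.H329N.Base

/-!
# Sel
-/

namespace Pool.Agent.H329N

namespace SelAux

theorem mat_length {n : ℕ} (G : SimpleGraph (Fin n)) [DecidableRel G.Adj] :
    (mat G).length = n := by
  simp [mat]

theorem cl_toL {n K : ℕ} (x : Fin n → Fin K) (v : Fin n) : cl (toL x) v = x v := by
  simp [cl, toL, List.getD_eq_getElem?_getD]

theorem avg_mono {α : Type} [Fintype α] {f g : α → ℝ} (h : ∀ a, f a ≤ g a) : avg f ≤ avg g := by
  unfold avg
  exact div_le_div_of_nonneg_right (Finset.sum_le_sum fun a _ => h a) (Nat.cast_nonneg _)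

theorem ind_mono {p q : Prop} (h : p → q) : ind p ≤ ind q := by
  unfold ind
  by_cases hp : p
  · rw [if_pos hp, if_pos (h hp)]
  · rw [if_neg hp]
    split_ifs <;> norm_num

theorem mem_supp {n : ℕ} {F : Fl} {v : Fin n} : v ∈ supp n F ↔ (v : ℕ) ∈ verts F := by
  simp [supp]

theorem disj_iff {n : ℕ} {F F' : Fl} (h : ∀ v ∈ verts F, v < n) :
    Disjoint (supp n F) (supp n F') ↔ ∀ v ∈ verts F, v ∉ verts F' := by
  rw [Finset.disjoint_left]
  constructor
  · intro hd v hv hv'
    exact hd (a := ⟨v, h v hv⟩) (mem_supp.2 hv) (mem_supp.2 hv')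
  · intro hd v hv hv'
    exact hd v (mem_supp.1 hv) (mem_supp.1 hv')

theorem card_supp_le {n : ℕ} (F : Fl) : (supp n F).card ≤ (verts F).length := by
  have h1 : ((supp n F).map Fin.valEmbedding).card ≤ (verts F).toFinset.card := by
    apply Finset.card_le_card
    intro v hv
    rw [Finset.mem_map] at hv
    obtain ⟨w, hw, rfl⟩ := hv
    exact List.mem_toFinset.2 (mem_supp.1 hw)
  rw [Finset.card_map] at h1
  exact h1.trans (List.toFinset_card_le _)

theorem two_pow_kb_le {n : ℕ} (hn : 0 < n) : 2 ^ kb n ≤ 4 * n.size := by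
  have h0 : 0 < n.size := Nat.size_pos.2 hn
  have h1 : 0 < (2 * n.size).size := Nat.size_pos.2 (by omega)
  have h2 : 2 ^ ((2 * n.size).size - 1) ≤ 2 * n.size := by
    apply Nat.lt_size.1
    omega
  have h3 : kb n = ((2 * n.size).size - 1) + 1 := by
    unfold kb; omega
  rw [h3, pow_succ]
  omega

theorem le_two_pow_kb (n : ℕ) : 2 * n.size ≤ 2 ^ kb n := (Nat.lt_size_self _).le

theorem two_pow_size_le {n : ℕ} (hn : 0 < n) : 2 ^ n.size ≤ 2 * n := by
  have h0 : 0 < n.size := Nat.size_pos.2 hn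
  have h2 : 2 ^ (n.size - 1) ≤ n := by
    apply Nat.lt_size.1
    omega
  have h3 : n.size = (n.size - 1) + 1 := by omega
  rw [h3, pow_succ]
  omega

theorem prob_bound {n : ℕ} (hn : 0 < n) :
    (1 / (128 * n ^ 7) : ℝ) ≤ (1 / 3 : ℝ) ^ (2 ^ kb n) := by
  have hn' : (0 : ℝ) < n := by exact_mod_cast hn
  have h1 : (1 / 3 : ℝ) ^ (4 * n.size) ≤ (1 / 3 : ℝ) ^ (2 ^ kb n) :=
    pow_le_pow_of_le_one (by norm_num) (by norm_num) (two_pow_kb_le hn)
  refine le_trans ?_ h1
  have h2 : (1 / 128 : ℝ) ^ n.size ≤ (1 / 3 : ℝ) ^ (4 * n.size) := by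
    rw [pow_mul]
    exact pow_le_pow_left₀ (by norm_num) (by norm_num) _
  refine le_trans ?_ h2
  have h3 : ((2 : ℝ) ^ n.size) ^ 7 ≤ (2 * n) ^ 7 := by
    apply pow_le_pow_left₀ (by positivity)
    exact_mod_cast two_pow_size_le hn
  have h4 : (1 / 128 : ℝ) ^ n.size = 1 / ((2 : ℝ) ^ n.size) ^ 7 := by
    rw [one_div_pow, ← pow_mul, mul_comm, pow_mul]
    norm_num
  rw [h4]
  apply one_div_le_one_div_of_le (by positivity)
  calc ((2 : ℝ) ^ n.size) ^ 7 ≤ (2 * n) ^ 7 := h3
    _ = 128 * n ^ 7 := by ring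

end SelAux

open SelAux in
/-- TARGET -/
theorem Sel_proof (h1 : S_Greedy) (h2 : S_Color) (h3 : S_FindSound) (h4 : S_FindComplete) : S_Sel := by
  intro n G _ K R x hn
  have hn' : (0 : ℝ) < n := by exact_mod_cast hn
  have hlen : (mat G).length = n := mat_length G
  have hkey := h1 (Fin n) (Fin K) Fl (Fin n → Fin (2 ^ kb n)) (flaws (mat G) n.size) (supp n) violF x
    (fun I g => find (mat G) n.size (toL x) (I.flatMap verts) (toL g)) (1 / (128 * n ^ 7)) R
    ?_ ?_ ?_ ?_ ?_
  · rw [Fintype.card_fin] at hkey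
    refine le_trans (le_of_eq ?_) hkey
    congr 1
    funext a
    have : selF (mat G) n K (2 ^ kb n) R x a = (List.ofFn a).foldl
        (gstp (fun I g => find (mat G) n.size (toL x) (I.flatMap verts) (toL g))) [] := by
      unfold selF greedy
      have e : List.ofFn (fun j => toL (a j)) = (List.ofFn a).map toL := by
        rw [List.map_ofFn]; rfl
      rw [e, List.foldl_map]
      rfl
    rw [this]
  · intro F hF
    have hF' := mem_flaws.1 hF
    obtain ⟨v, hv⟩ : ∃ v, v ∈ F.1 := by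
      have := hF'.pos
      exact List.exists_mem_of_length_pos (by omega)
    have hv' : v ∈ verts F := by simp [verts, hv]
    exact ⟨⟨v, by have := hF'.lt v hv'; omega⟩, mem_supp.2 hv'⟩
  · positivity
  · rw [div_le_one (by positivity)]
    have : (1 : ℝ) ≤ n := by exact_mod_cast hn
    have h7 : (1 : ℝ) ≤ (n : ℝ) ^ 7 := one_le_pow₀ this
    linarith
  · intro I g F hI hF
    obtain ⟨ha, hb, hc⟩ := h3 _ _ _ _ _ _ hF
    refine ⟨mem_flaws.2 ha, hb, fun F' hF' => ?_⟩
    rw [disj_iff (fun v hv => by have := ha.lt v hv; omega)]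
    intro v hv hv'
    exact hc v hv (List.mem_flatMap.2 ⟨F', hF', hv'⟩)
  · rintro I hI ⟨F, hF, hv, hd⟩
    have hF' := mem_flaws.1 hF
    have hcard : (supp n F).card ≤ 2 ^ kb n := by
      refine (card_supp_le F).trans (le_trans ?_ (le_two_pow_kb n))
      have := hF'.len
      have := hF'.le
      simp only [verts, List.length_append]
      omega
    refine (prob_bound hn).trans ((h2 n (2 ^ kb n) (supp n F) (by positivity) hcard).trans ?_)
    apply avg_mono
    intro g
    apply ind_mono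
    intro hg
    apply h4 _ _ _ _ _ F hF' hv
    · intro v hv' hv''
      obtain ⟨F', hF1, hF2⟩ := List.mem_flatMap.1 hv''
      have hdj := hd F' hF1
      rw [disj_iff (fun v hv => by have := (mem_flaws.1 (hI F' hF1)).lt v hv; omega)] at hdj
      exact hdj v hF2 hv'
    · intro v hv'
      have hv2 : v < n := by omega
      have := cl_toL g ⟨v, hv2⟩
      simp only at this
      rw [this]
      exact lt_of_lt_of_le (g ⟨v, hv2⟩).2 (two_pow_kb_le hn)
    · intro v hv1 w hw1 hvw
      have hv2 : v < n := by have := hF'.lt v hv1; omega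
      have hw2 : w < n := by have := hF'.lt w hw1; omega
      have e1 := cl_toL g ⟨v, hv2⟩
      have e2 := cl_toL g ⟨w, hw2⟩
      simp only at e1 e2
      rw [e1, e2] at hvw
      have := @hg ⟨v, hv2⟩ (mem_supp.2 hv1) ⟨w, hw2⟩ (mem_supp.2 hw1) (Fin.ext hvw)
      exact congrArg Fin.val this

end Pool.Agent.H329N
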