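import Pool.Agent.H329N.Base

/-!
# Sum
-/

namespace Pool.Agent.H329N

/-- the flaws with `L = n.size = 1` do not exist -/
theorem SumAux_one {n : ℕ} (hn : n = 1) (G : SimpleGraph (Fin n)) [DecidableRel G.Adj] (F : Fl)
    (hF : IsFlaw (mat G) n.size F) : False := by
  have hlen : (mat G).length = n := by simp [mat]
  obtain ⟨a, ha⟩ : ∃ a, a ∈ F.1 := List.exists_mem_of_length_pos (by have := hF.pos; omega)
  obtain ⟨b, hb⟩ : ∃ b, b ∈ F.2 := List.exists_mem_of_length_pos (by have := hF.pos; have := hF.len; omega)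
  have h1 : a < 1 := by have := hF.lt a (by simp [verts, ha]); omega
  have h2 : b < 1 := by have := hF.lt b (by simp [verts, hb]); omega
  have h3 := hF.nd
  unfold verts at h3
  have h4 := List.disjoint_of_nodup_append h3
  have : a = b := by omega
  exact h4 ha (this ▸ hb)

/-- a flaw of length `i < L` gives a walk -/
theorem SumAux_walk {n : ℕ} (G : SimpleGraph (Fin n)) [DecidableRel G.Adj] (F : Fl)
    (hF : IsFlaw (mat G) n.size F) (hi : F.1.length < n.size) :
    F.2 ++ F.1 ∈ Wk G (2 * F.1.length) := by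
  have hlen : (mat G).length = n := by simp [mat]
  refine ⟨?_, ?_, ?_⟩
  · have := hF.len
    simp; omega
  · intro u hu
    have := hF.lt u (by simp [verts] at hu ⊢; tauto)
    omega
  · rw [List.isChain_append]
    refine ⟨hF.ch2, hF.ch1, ?_⟩
    rcases hF.clo with h | ⟨u, w, hu, hw, ha⟩
    · omega
    · intro x hx y hy
      rw [hw] at hx
      rw [hu] at hy
      simp at hx hy
      subst hx hy
      exact ha

/-- both parts of a flaw are walks -/
theorem SumAux_walk2 {n : ℕ} (G : SimpleGraph (Fin n)) [DecidableRel G.Adj] (F : Fl)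
    (hF : IsFlaw (mat G) n.size F) :
    F.1 ∈ Wk G F.1.length ∧ F.2 ∈ Wk G F.1.length := by
  have hlen : (mat G).length = n := by simp [mat]
  refine ⟨⟨rfl, ?_, hF.ch1⟩, ⟨hF.len, ?_, hF.ch2⟩⟩
  · intro u hu
    have := hF.lt u (by simp [verts, hu])
    omega
  · intro u hu
    have := hF.lt u (by simp [verts, hu])
    omega

/-- the number of short flaws through a vertex -/
theorem SumAux_short (h1 : S_Count) {n : ℕ} (G : SimpleGraph (Fin n)) [DecidableRel G.Adj]
    (v : Fin n) (i : ℕ) (hi1 : 1 ≤ i) (hi : i < n.size) :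
    (((flaws (mat G) n.size).filter (fun F => v ∈ supp n F)).filter
      (fun F => F.1.length = i)).card ≤ 2 * i * G.maxDegree ^ (2 * i - 1) := by
  classical
  obtain ⟨hfin, -, h3⟩ := h1 n G (2 * i) (by omega)
  refine le_trans ?_ (h3 v)
  rw [← Set.ncard_coe_finset]
  refine Set.ncard_le_ncard_of_injOn (fun F => F.2 ++ F.1) ?_ ?_
    (hfin.subset (fun l hl => hl.1))
  · intro F hF
    simp only [Finset.coe_filter, Finset.mem_filter, Set.mem_ofPred_eq, mem_flaws] at hF
    obtain ⟨⟨hF1, hF2⟩, hF3⟩ := hF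
    refine ⟨?_, ?_⟩
    · have := SumAux_walk G F hF1 (by omega)
      rwa [hF3] at this
    · have hF2' : (v : ℕ) ∈ verts F := by simpa [supp] using hF2
      have hF2'' : (v : ℕ) ∈ F.1 ∨ (v : ℕ) ∈ F.2 := by simpa [verts] using hF2'
      exact List.mem_append.2 hF2''.symm
  · intro F hF F' hF' h
    simp only [Finset.coe_filter, Finset.mem_filter, Set.mem_ofPred_eq, mem_flaws] at hF hF'
    obtain ⟨⟨hF1, hF2⟩, hF3⟩ := hF
    obtain ⟨⟨hF1', hF2'⟩, hF3'⟩ := hF'
    have h5 : F.2.length = F'.2.length := by rw [hF1.len, hF1'.len, hF3, hF3']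
    have := List.append_inj h h5
    exact Prod.ext this.2 this.1

/-- the number of long flaws through a vertex -/
theorem SumAux_long (h1 : S_Count) {n : ℕ} (G : SimpleGraph (Fin n)) [DecidableRel G.Adj]
    (v : Fin n) (i : ℕ) (hi1 : 1 ≤ i) :
    (((flaws (mat G) n.size).filter (fun F => v ∈ supp n F)).filter
      (fun F => F.1.length = i)).card ≤
      2 * ((i * G.maxDegree ^ (i - 1)) * (n * G.maxDegree ^ (i - 1))) := by
  classical
  obtain ⟨hfin, h2, h3⟩ := h1 n G i (by omega)
  set W : Finset (List ℕ) := hfin.toFinset with hW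
  have hWm : ∀ l, l ∈ W ↔ l ∈ Wk G i := by intro l; simp [hW]
  have hWc : W.card ≤ n * G.maxDegree ^ (i - 1) := by
    rw [← Set.ncard_coe_finset]
    simpa [hW] using h2
  have hWv : (W.filter (fun l => (v : ℕ) ∈ l)).card ≤ i * G.maxDegree ^ (i - 1) := by
    rw [← Set.ncard_coe_finset]
    refine le_trans (le_of_eq ?_) (h3 v)
    congr 1
    ext l
    simp [hW]
  have hsub : (((flaws (mat G) n.size).filter (fun F => v ∈ supp n F)).filter
      (fun F => F.1.length = i)) ⊆
      (W.filter (fun l => (v : ℕ) ∈ l)) ×ˢ W ∪ W ×ˢ (W.filter (fun l => (v : ℕ) ∈ l)) := by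
    intro F hF
    simp only [Finset.mem_filter, mem_flaws] at hF
    obtain ⟨⟨hF1, hF2⟩, hF3⟩ := hF
    obtain ⟨ha, hb⟩ := SumAux_walk2 G F hF1
    rw [hF3] at ha hb
    simp only [supp, Finset.mem_filter, Finset.mem_univ, true_and, verts, List.mem_append] at hF2
    simp only [Finset.mem_union, Finset.mem_product, Finset.mem_filter, hWm]
    tauto
  refine (Finset.card_le_card hsub).trans ((Finset.card_union_le _ _).trans ?_)
  rw [Finset.card_product, Finset.card_product]
  calc _ = 2 * ((W.filter (fun l => (v : ℕ) ∈ l)).card * W.card) := by ring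
    _ ≤ _ := by gcongr

theorem SumAux_two (i : ℕ) : 2 * i ≤ 2 ^ i := by
  rcases i with _ | i
  · simp
  · rw [pow_succ]
    have := Nat.lt_two_pow_self (n := i)
    omega

/-- the weight of all flaws of a given length -/
theorem SumAux_len (h1 : S_Count) {n : ℕ} (hn : n ≠ 1) (G : SimpleGraph (Fin n))
    [DecidableRel G.Adj] (v : Fin n) (i : ℕ) (hi1 : 1 ≤ i) (hi : i ≤ n.size) :
    ((((flaws (mat G) n.size).filter (fun F => v ∈ supp n F)).filter
      (fun F => F.1.length = i)).card : ℝ) *
      (8 / ((2 ^ (128 * (G.maxDegree * G.maxDegree)).size : ℕ) : ℝ)) ^ i ≤ (1 / 4) ^ i := by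
  have hn0 : 0 < n := lt_of_le_of_lt (Nat.zero_le _) v.2
  have hn2 : 2 ≤ n := by omega
  have hs2 : 2 ≤ n.size := by
    have : 1 < n.size := by
      rw [Nat.lt_size]
      simpa using hn2
    omega
  set D := G.maxDegree with hD
  set S := (((flaws (mat G) n.size).filter (fun F => v ∈ supp n F)).filter
      (fun F => F.1.length = i)) with hS
  rcases Nat.eq_zero_or_pos D with h0 | h0
  · -- no flaws
    have hS0 : S.card = 0 := by
      rcases Nat.lt_or_ge i n.size with hlt | hge
      · have := SumAux_short h1 G v i hi1 hlt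
        rw [← hD, h0, zero_pow (by omega)] at this
        exact Nat.le_zero.1 (this.trans (by simp))
      · have := SumAux_long h1 G v i hi1
        rw [← hD, h0, zero_pow (by omega)] at this
        exact Nat.le_zero.1 (this.trans (by simp))
    rw [hS0]
    simp
  · have hK : (128 * ((D : ℝ) * D)) ≤ ((2 ^ (128 * (D * D)).size : ℕ) : ℝ) := by
      have := (Nat.lt_size_self (128 * (D * D))).le
      exact_mod_cast this
    have hDr : (1 : ℝ) ≤ D := by exact_mod_cast h0
    have h8 : 8 / ((2 ^ (128 * (D * D)).size : ℕ) : ℝ) ≤ 1 / (16 * (D : ℝ) ^ 2) := by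
      rw [div_le_div_iff₀ (by positivity) (by positivity)]
      nlinarith
    have h9 : (8 / ((2 ^ (128 * (D * D)).size : ℕ) : ℝ)) ^ i ≤ (1 / (16 * (D : ℝ) ^ 2)) ^ i :=
      pow_le_pow_left₀ (by positivity) h8 i
    refine (mul_le_mul_of_nonneg_left h9 (by positivity)).trans ?_
    have h10 : (1 / (16 * (D : ℝ) ^ 2)) ^ i = (1 / 16) ^ i * (1 / (D : ℝ) ^ (2 * i)) := by
      rw [one_div_pow, mul_pow, ← pow_mul, one_div_pow]
      field_simp
    rw [h10]
    have h2i : (2 : ℝ) * i ≤ 2 ^ i := by exact_mod_cast SumAux_two i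
    have key : (S.card : ℝ) ≤ 4 ^ i * (D : ℝ) ^ (2 * i) := by
      rcases Nat.lt_or_ge i n.size with hlt | hge
      · have := SumAux_short h1 G v i hi1 hlt
        rw [← hD] at this
        have h11 : (S.card : ℝ) ≤ 2 * i * (D : ℝ) ^ (2 * i - 1) := by exact_mod_cast this
        refine h11.trans ?_
        have h12 : (D : ℝ) ^ (2 * i - 1) ≤ (D : ℝ) ^ (2 * i) := pow_le_pow_right₀ hDr (by omega)
        have h13 : (2 : ℝ) ^ i ≤ 4 ^ i := pow_le_pow_left₀ (by norm_num) (by norm_num) i
        exact mul_le_mul (h2i.trans h13) h12 (by positivity) (by positivity)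
      · have hin : i = n.size := le_antisymm hi hge
        have := SumAux_long h1 G v i hi1
        rw [← hD] at this
        have h11 : (S.card : ℝ) ≤
            2 * ((i * (D : ℝ) ^ (i - 1)) * (n * (D : ℝ) ^ (i - 1))) := by exact_mod_cast this
        refine h11.trans ?_
        have h12 : (D : ℝ) ^ (i - 1) ≤ (D : ℝ) ^ i := pow_le_pow_right₀ hDr (by omega)
        have h14 : (n : ℝ) ≤ 2 ^ i := by
          rw [hin]; exact_mod_cast (Nat.lt_size_self n).le
        calc 2 * ((i * (D : ℝ) ^ (i - 1)) * (n * (D : ℝ) ^ (i - 1)))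
            = (2 * i) * n * ((D : ℝ) ^ (i - 1) * (D : ℝ) ^ (i - 1)) := by ring
          _ ≤ 2 ^ i * 2 ^ i * ((D : ℝ) ^ i * (D : ℝ) ^ i) := by gcongr
          _ = 4 ^ i * (D : ℝ) ^ (2 * i) := by
            rw [← mul_pow, ← pow_add, two_mul i]
            norm_num
    calc (S.card : ℝ) * ((1 / 16) ^ i * (1 / (D : ℝ) ^ (2 * i)))
        ≤ (4 ^ i * (D : ℝ) ^ (2 * i)) * ((1 / 16) ^ i * (1 / (D : ℝ) ^ (2 * i))) := by gcongr
      _ = (4 * (1 / 16)) ^ i * ((D : ℝ) ^ (2 * i) * (1 / (D : ℝ) ^ (2 * i))) := by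
          rw [mul_pow]; ring
      _ = (1 / 4) ^ i := by
          rw [mul_one_div_cancel (by positivity)]
          norm_num

theorem SumAux_geom (L : ℕ) : ∑ i ∈ Finset.range L, (1 / 4 : ℝ) ^ (i + 1) ≤ 1 / 2 := by
  have h : ∀ L : ℕ, ∑ i ∈ Finset.range L, (1 / 4 : ℝ) ^ (i + 1) = (1 - (1 / 4) ^ L) / 3 := by
    intro L
    induction L with
    | zero => simp
    | succ L ih => rw [Finset.sum_range_succ, ih]; ring
  rw [h]
  have : (0 : ℝ) ≤ (1 / 4) ^ L := by positivity
  linarith

/-- TARGET -/
theorem Sum_proof (h1 : S_Count) : S_Sum := by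
  intro n G _ v
  by_cases hn : n = 1
  · have : (flaws (mat G) n.size).filter (fun F => v ∈ supp n F) = ∅ := by
      apply Finset.filter_eq_empty_iff.2
      intro F hF
      exact (SumAux_one hn G F (mem_flaws.1 hF)).elim
    rw [this]
    simp
  · have hmap : ∀ F ∈ (flaws (mat G) n.size).filter (fun F => v ∈ supp n F),
        F.1.length - 1 ∈ Finset.range n.size := by
      intro F hF
      have := mem_flaws.1 (Finset.mem_filter.1 hF).1
      have h2 := this.pos
      have h3 := this.le
      simp only [Finset.mem_range]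
      omega
    rw [← Finset.sum_fiberwise_of_maps_to hmap]
    refine le_trans (Finset.sum_le_sum (fun i hi => ?_)) (SumAux_geom n.size)
    have hi' : i < n.size := Finset.mem_range.1 hi
    refine le_trans (le_of_eq ?_) (SumAux_len h1 hn G v (i + 1) (by omega) (by omega))
    have heq : ((flaws (mat G) n.size).filter (fun F => v ∈ supp n F)).filter
        (fun F => F.1.length - 1 = i) =
        ((flaws (mat G) n.size).filter (fun F => v ∈ supp n F)).filter
        (fun F => F.1.length = i + 1) := by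
      apply Finset.filter_congr
      intro F hF
      have := (mem_flaws.1 (Finset.mem_filter.1 hF).1).pos
      omega
    rw [heq, ← nsmul_eq_mul, ← Finset.sum_const]
    refine Finset.sum_congr rfl (fun F hF => ?_)
    rw [psi, (Finset.mem_filter.1 hF).2]

end Pool.Agent.H329N
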