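import Pool.Agent.H329N.Base

/-!
# Exchanging two states
-/

namespace Pool.Agent.H329N

theorem SwapAux_patch_patch {V Col : Type} [DecidableEq V] (U : Finset V) (x y : V → Col) :
    patch U (patch U x y) (patch U y x) = x := by
  funext v
  unfold patch
  by_cases h : v ∈ U
  · simp [h]
  · simp [h]

/-- the exchange of two states on `U` -/
def SwapAux_equiv {V Col : Type} [DecidableEq V] (U : Finset V) :
    (V → Col) × (V → Col) ≃ (V → Col) × (V → Col) where
  toFun q := (patch U q.1 q.2, patch U q.2 q.1)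
  invFun q := (patch U q.1 q.2, patch U q.2 q.1)
  left_inv q := Prod.ext (SwapAux_patch_patch U q.1 q.2) (SwapAux_patch_patch U q.2 q.1)
  right_inv q := Prod.ext (SwapAux_patch_patch U q.1 q.2) (SwapAux_patch_patch U q.2 q.1)

/-- TARGET -/
theorem Swap_proof : S_Swap := by
  intro V Col _ _ _ _ U f h hf
  have h1 : ∑ q : (V → Col) × (V → Col), f q.1 * h (patch U q.1 q.2) =
      ∑ q : (V → Col) × (V → Col), f q.2 * h q.1 := by
    refine Fintype.sum_equiv (SwapAux_equiv U) _ _ fun q => ?_
    show f q.1 * h (patch U q.1 q.2) = f (patch U q.2 q.1) * h (patch U q.1 q.2)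
    rw [hf q.1 (patch U q.2 q.1) fun v hv => by simp [patch, hv]]
  unfold avg
  rw [h1, Fintype.card_prod, Fintype.sum_prod_type]
  simp only
  rw [Nat.cast_mul, div_mul_div_comm, mul_comm (∑ x, f x) (∑ x, h x), Finset.sum_mul_sum]
  congr 1
  exact Finset.sum_congr rfl fun x _ => Finset.sum_congr rfl fun y _ => mul_comm _ _

end Pool.Agent.H329N
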