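import Pool.Agent.H329N.Base

/-!
# Unif
-/

namespace Pool.Agent.H329N

namespace UnifAux

/-- a map preserving averages -/
def Uni {α β : Type} [Fintype α] [Fintype β] (f : α → β) : Prop :=
  ∀ h : β → ℝ, avg (fun x => h (f x)) = avg h

theorem avg_prod {α β : Type} [Fintype α] [Fintype β] (F : α × β → ℝ) :
    avg F = avg (fun x => avg (fun y => F (x, y))) := by
  unfold avg
  rw [Fintype.sum_prod_type, Fintype.card_prod, ← Finset.sum_div, div_div, Nat.cast_mul,
    mul_comm (Fintype.card α : ℝ)]

theorem uni_equiv {α β : Type} [Fintype α] [Fintype β] (e : α ≃ β) : Uni e := by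
  intro h
  unfold avg
  rw [Fintype.card_congr e, Fintype.sum_equiv e (fun x => h (e x)) h (fun _ => rfl)]

theorem uni_comp {α β γ : Type} [Fintype α] [Fintype β] [Fintype γ] {f : α → β} {g : β → γ}
    (hf : Uni f) (hg : Uni g) : Uni (fun x => g (f x)) := fun h =>
  (hf (fun y => h (g y))).trans (hg h)

theorem uni_prod {α β γ δ : Type} [Fintype α] [Fintype β] [Fintype γ] [Fintype δ]
    {f : α → γ} {g : β → δ} (hf : Uni f) (hg : Uni g) :
    Uni (fun p : α × β => (f p.1, g p.2)) := by
  intro h
  rw [avg_prod, avg_prod h]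
  have h1 : ∀ x, avg (fun y => h (f x, g y)) = avg (fun d => h (f x, d)) := fun x =>
    hg (fun d => h (f x, d))
  simp only [h1]
  exact hf (fun c => avg (fun d => h (c, d)))

theorem uni_fst {α β : Type} [Fintype α] [Fintype β] [Nonempty β] :
    Uni (fun p : α × β => p.1) := by
  intro h
  rw [avg_prod]
  congr 1
  funext x
  unfold avg
  have : (Fintype.card β : ℝ) ≠ 0 := by
    have := Fintype.card_pos (α := β); positivity
  simp only [Finset.sum_const, Finset.card_univ, nsmul_eq_mul]
  field_simp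

theorem uni_pi {α β : Type} [Fintype α] [Fintype β] {f : α → β} (hf : Uni f) (k : ℕ) :
    Uni (fun (g : Fin k → α) (i : Fin k) => f (g i)) := by
  induction k with
  | zero =>
    intro h
    unfold avg
    simp only [Finset.univ_unique, Finset.sum_singleton, Fintype.card_unique]
    congr 2
    exact Subsingleton.elim _ _
  | succ k ih =>
    have h1 := uni_comp (uni_comp (uni_equiv (Fin.consEquiv (fun _ : Fin (k + 1) => α)).symm)
      (uni_prod hf ih)) (uni_equiv (Fin.consEquiv (fun _ : Fin (k + 1) => β)))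
    convert h1 using 1
    funext g i
    refine Fin.cases ?_ (fun i => ?_) i <;> simp [Fin.consEquiv]
    rfl

theorem bval_inj : ∀ (a b : List Bool), a.length = b.length → bval a = bval b → a = b
  | [], [], _, _ => rfl
  | [], _ :: _, h, _ => by simp at h
  | _ :: _, [], h, _ => by simp at h
  | x :: a, y :: b, h, h2 => by
    simp only [bval] at h2
    have h3 : a = b := bval_inj a b (by simpa using h) (by
      cases x <;> cases y <;> simp at h2 <;> omega)
    subst h3
    cases x <;> cases y <;> simp at h2 ⊢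

theorem uni_bv (l : ℕ) : Uni (fun r : Fin l → Bool =>
    (⟨bval (List.ofFn r), lt_of_lt_of_le (bval_lt _)
      (Nat.pow_le_pow_right (by norm_num) (by simp))⟩ : Fin (2 ^ l))) := by
  have hb : Function.Bijective (fun r : Fin l → Bool =>
    (⟨bval (List.ofFn r), lt_of_lt_of_le (bval_lt _)
      (Nat.pow_le_pow_right (by norm_num) (by simp))⟩ : Fin (2 ^ l))) := by
    rw [Fintype.bijective_iff_injective_and_card]
    refine ⟨fun r s h => ?_, by simp⟩
    have h1 := congrArg Fin.val h
    exact List.ofFn_injective (bval_inj _ _ (by simp) h1)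
  exact uni_equiv (Equiv.ofBijective _ hb)

theorem uni_bits {w l : ℕ} (h : l ≤ w) : Uni (fun r : Fin w → Bool =>
    (⟨bval (List.ofFn (fun j : Fin l => r (Fin.castLE h j))), lt_of_lt_of_le (bval_lt _)
      (Nat.pow_le_pow_right (by norm_num) (by simp))⟩ : Fin (2 ^ l))) := by
  obtain ⟨d, rfl⟩ := Nat.exists_eq_add_of_le h
  have h1 := uni_comp (uni_comp (uni_equiv (Fin.appendEquiv l d).symm)
    (uni_fst (α := Fin l → Bool) (β := Fin d → Bool))) (uni_bv l)
  convert h1 using 1
  rfl

theorem rd_eq {N w i l : ℕ} (r : Fin N → Bool) (h : w * i + l ≤ N) :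
    rd (List.ofFn r) w i l = bval (List.ofFn (fun j : Fin l => r ⟨w * i + j, by omega⟩)) := by
  unfold rd
  congr 1
  apply List.ext_getElem
  · simp only [List.length_take, List.length_drop, List.length_ofFn]
    omega
  · intro k h1 h2
    simp

/-- positions of the bits -/
def idx (n w Q : ℕ) : Fin Q × (Fin n × Fin w) ≃ Fin (w * (n * Q)) :=
  ((Equiv.prodAssoc (Fin Q) (Fin n) (Fin w)).symm.trans
    ((Equiv.prodCongr finProdFinEquiv (Equiv.refl _)).trans
      (finProdFinEquiv.trans (finCongr (by ring : Q * n * w = w * (n * Q))))))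

theorem idx_val (n w Q : ℕ) (q : Fin Q) (v : Fin n) (j : Fin w) :
    ((idx n w Q (q, v, j) : Fin (w * (n * Q))) : ℕ) = w * (q * n + v) + j := by
  simp [idx, finProdFinEquiv]
  ring

/-- the bits of the blocks -/
def split (n w Q : ℕ) : (Fin (w * (n * Q)) → Bool) ≃ (Fin Q → Fin n → Fin w → Bool) :=
  (Equiv.arrowCongr (idx n w Q).symm (Equiv.refl Bool)).trans
    ((Equiv.curry _ _ _).trans (Equiv.arrowCongr (Equiv.refl _) (Equiv.curry _ _ _)))

theorem split_apply (n w Q : ℕ) (r : Fin (w * (n * Q)) → Bool) (q : Fin Q) (v : Fin n)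
    (j : Fin w) : split n w Q r q v j = r (idx n w Q (q, v, j)) := rfl

/-- the numbers in a block -/
def nums {n w : ℕ} (l : ℕ) (h : l ≤ w) (x : Fin n → Fin w → Bool) : Fin n → Fin (2 ^ l) :=
  fun v => ⟨bval (List.ofFn (fun j : Fin l => x v (Fin.castLE h j))), lt_of_lt_of_le (bval_lt _)
      (Nat.pow_le_pow_right (by norm_num) (by simp))⟩

theorem uni_nums {n w l : ℕ} (h : l ≤ w) : Uni (nums (n := n) l h) :=
  uni_pi (uni_bits h) n

theorem blkF_eq {n w Q l : ℕ} (h : l ≤ w) (r : Fin (w * (n * Q)) → Bool) (q : Fin Q) :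
    blkF w n l r q = nums l h (split n w Q r q) := by
  funext v
  apply Fin.ext
  simp only [blkF, nums]
  have h1 : w * (q * n + v) + l ≤ w * (n * Q) := by
    have h2 : (q : ℕ) + 1 ≤ Q := q.2
    have h3 : (v : ℕ) + 1 ≤ n := v.2
    calc w * (q * n + v) + l ≤ w * (q * n + v) + w := by omega
      _ = w * (q * n + (v + 1)) := by ring
      _ ≤ w * (q * n + n) := by gcongr
      _ = w * (n * (q + 1)) := by ring
      _ ≤ w * (n * Q) := by gcongr
  rw [rd_eq r h1]
  congr 2
  funext j
  rw [split_apply]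
  congr 1
  apply Fin.ext
  rw [idx_val]
  rfl

/-- the regrouping of the blocks -/
def fin1 (T R : ℕ) (X : Type) : (Fin (T * (R + 1) + 1) → X) ≃
    X × (Fin T → Fin (R + 1) → X) :=
  (Fin.snocEquiv (fun _ : Fin (T * (R + 1) + 1) => X)).symm.trans
    (Equiv.prodCongr (Equiv.refl _)
      ((Equiv.arrowCongr finProdFinEquiv.symm (Equiv.refl X)).trans (Equiv.curry _ _ _)))

end UnifAux

open UnifAux in
/-- TARGET -/
theorem Unif_proof : S_Unif := by
  intro n w ca cb T R ha hb h
  have h1 : Uni (fun y : Fin (R + 1) → Fin n → Fin w → Bool =>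
      ((nums ca ha (y 0), fun j => nums cb hb (y j.succ)) :
        (Fin n → Fin (2 ^ ca)) × (Fin R → Fin n → Fin (2 ^ cb)))) :=
    uni_comp (uni_equiv (Fin.consEquiv (fun _ : Fin (R + 1) => Fin n → Fin w → Bool)).symm)
      (uni_prod (uni_nums ha) (uni_pi (uni_nums hb) R))
  have h2 := uni_comp (uni_comp (uni_equiv (split n w (T * (R + 1) + 1)))
    (uni_equiv (fin1 T R (Fin n → Fin w → Bool)))) (uni_prod (uni_nums ha) (uni_pi h1 T))
  have h3 : (data n w ca cb T R : (Fin (w * (n * (T * (R + 1) + 1))) → Bool) → _) = fun r =>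
      (nums ca ha (fin1 T R (Fin n → Fin w → Bool) (split n w (T * (R + 1) + 1) r)).1,
        fun t => (nums ca ha
          ((fin1 T R (Fin n → Fin w → Bool) (split n w (T * (R + 1) + 1) r)).2 t 0),
          fun j => nums cb hb
            ((fin1 T R (Fin n → Fin w → Bool) (split n w (T * (R + 1) + 1) r)).2 t j.succ))) := by
    funext r
    have e1 := blkF_eq ha r (Fin.last _)
    have e2 : ∀ t : Fin T, blkF w n ca r (t * (R + 1)) = nums ca ha
          ((fin1 T R (Fin n → Fin w → Bool) (split n w (T * (R + 1) + 1) r)).2 t 0) := by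
      intro t
      have := blkF_eq ha r (Fin.castSucc (finProdFinEquiv (t, (0 : Fin (R + 1)))))
      have e3 : ((Fin.castSucc (finProdFinEquiv (t, (0 : Fin (R + 1)))) : Fin _) : ℕ) =
          t * (R + 1) := by simp [finProdFinEquiv, mul_comm]
      rw [e3] at this
      exact this
    have e4 : ∀ (t : Fin T) (j : Fin R), blkF w n cb r (t * (R + 1) + (j + 1)) = nums cb hb
          ((fin1 T R (Fin n → Fin w → Bool) (split n w (T * (R + 1) + 1) r)).2 t j.succ) := by
      intro t j
      have := blkF_eq hb r (Fin.castSucc (finProdFinEquiv (t, j.succ)))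
      have e3 : ((Fin.castSucc (finProdFinEquiv (t, j.succ)) : Fin _) : ℕ) =
          t * (R + 1) + (j + 1) := by simp [finProdFinEquiv]; ring
      rw [e3] at this
      exact this
    unfold data
    simp only [e2, e4]
    congr 1
  rw [h3]
  exact h2 h

end Pool.Agent.H329N
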