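import Pool.Agent.H329N.Base

/-!
# Wid
-/

namespace Pool.Agent.H329N

/-- TARGET -/
theorem Wid_proof : S_Wid := by
  intro n G _ hn
  have h0 : n < 2 ^ n := Nat.lt_two_pow_self
  have h2 : (2 : ℕ) ^ (2 * n + 8) = 2 ^ n * 2 ^ n * 256 := by
    rw [pow_add, two_mul, pow_add]; norm_num
  refine ⟨?_, ?_⟩
  · rw [Nat.size_le, wd, h2]
    have : Nonempty (Fin n) := ⟨⟨0, hn⟩⟩
    have h1 : G.maxDegree < n := by
      have := G.maxDegree_lt_card_verts
      simpa using this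
    have h3 : G.maxDegree * G.maxDegree ≤ 2 ^ n * 2 ^ n := Nat.mul_le_mul (by omega) (by omega)
    have h4 : 0 < 2 ^ n * 2 ^ n := by positivity
    omega
  · rw [kb, Nat.size_le, wd, h2]
    have h1 : n.size ≤ n := by rw [Nat.size_le]; exact h0
    have h5 : 1 ≤ 2 ^ n := Nat.one_le_two_pow
    have h4 : n.size ≤ 2 ^ n * 2 ^ n := by
      calc n.size ≤ 2 ^ n := by omega
        _ = 2 ^ n * 1 := by ring
        _ ≤ 2 ^ n * 2 ^ n := Nat.mul_le_mul le_rfl h5
    have h6 : 0 < 2 ^ n * 2 ^ n := by positivity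
    omega

end Pool.Agent.H329N
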