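import Pool.Agent.H329N.Base
import Pool.Agent.H671R2.PolyAuto

/-!
# Polynomial time: statements
-/

namespace Pool.Agent.H329N

open Pool.Agent.NPC Pool.Agent.NPC.R671

theorem bval_eq (l : List Bool) : bval l = valB l := by
  induction l with
  | nil => rfl
  | cons b l ih => simp [bval, ih]

/-- the search is polynomial -/
def S_PolyFind : Prop := Poly (fun p : (List (List Bool) × List ℕ) × (List ℕ × List ℕ) =>
  find p.1.1 p.1.1.length.size p.1.2 p.2.1 p.2.2)

/-- the greedy selection is polynomial -/
def S_PolyGreedy : Prop := Poly (fun p : (List (List Bool) × List ℕ) × List (List ℕ) =>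
  greedy p.1.1 p.1.1.length.size p.1.2 p.2)

/-- the algorithm is polynomial -/
def S_PolyAlg : Prop := Poly (fun p : List (List Bool) × List Bool => alg p.1 p.2)


end Pool.Agent.H329N
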